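import Pool.Agent.Y854.GM.Rate

/-! From dyadic counts to counts up to `X`. -/

set_option autoImplicit false

open Finset Filter Topology

namespace Pool.Agent.Y854.GM

open Classical in
/-- a set whose dyadic counting function has a power saving -/
lemma cum_pow (P : Set ℕ) {κ : ℝ} (hκ : 0 < κ) (K0 : ℕ)
    (h : ∀ K : ℕ, K0 ≤ K → (((Ioc K (2 * K)).filter (fun t => t ∈ P)).card : ℝ) ≤ (K : ℝ) ^ (1 - κ)) :
    ∃ η : ℝ, 0 < η ∧ ∃ C : ℝ, ∀ X : ℕ, (((Ioc 0 X).filter (fun t => t ∈ P)).card : ℝ) ≤ C * (X : ℝ) ^ (1 - η) := by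
  refine ⟨min κ (1 / 2), by positivity, 2 * K0 + 8, fun X => ?_⟩
  set s : ℝ := 1 - min κ (1 / 2) with hs
  have hs1 : 1 / 2 ≤ s := by
    have := min_le_right κ (1 / 2)
    linarith
  have hsκ : 1 - κ ≤ s := by
    have := min_le_left κ (1 / 2)
    linarith
  have h2s : (2 : ℝ) ^ (-s) ≤ 3 / 4 := by
    have h1 : (2 : ℝ) ^ (-s) ≤ (2 : ℝ) ^ (-(1 / 2) : ℝ) :=
      Real.rpow_le_rpow_of_exponent_le (by norm_num) (by linarith)
    have h2 : (2 : ℝ) ^ (-(1 / 2) : ℝ) ≤ 3 / 4 := by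
      rw [Real.rpow_neg (by norm_num), ← Real.sqrt_eq_rpow, inv_le_comm₀ (by positivity) (by norm_num)]
      rw [Real.le_sqrt (by norm_num) (by norm_num)]
      norm_num
    linarith
  induction X using Nat.strong_induction_on with
  | _ X ih =>
    rcases Nat.eq_zero_or_pos X with rfl | hX
    · simp only [Ioc_self, filter_empty, card_empty, Nat.cast_zero]
      positivity
    have hXp : (1 : ℝ) ≤ X := by exact_mod_cast hX
    have hXs : 1 ≤ (X : ℝ) ^ s := Real.one_le_rpow hXp (by linarith)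
    rcases lt_or_ge X (2 * K0 + 2) with hsm | hbig
    · have h1 : (((Ioc 0 X).filter (fun t => t ∈ P)).card : ℝ) ≤ X := by
        have h3 := Finset.card_filter_le (Ioc 0 X) (fun t => t ∈ P)
        rw [Nat.card_Ioc, Nat.sub_zero] at h3
        exact_mod_cast h3
      have h2 : (X : ℝ) ≤ 2 * K0 + 8 := by
        have : X ≤ 2 * K0 + 8 := by omega
        exact_mod_cast this
      have h3 : (0 : ℝ) ≤ K0 := Nat.cast_nonneg _
      nlinarith
    · set K := X / 2 with hK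
      have hKX : K < X := by omega
      have hK0 : K0 ≤ K := by omega
      have hK1 : 1 ≤ K := by omega
      have hKp : (1 : ℝ) ≤ K := by exact_mod_cast hK1
      have hsub : (Ioc 0 X).filter (fun t => t ∈ P) ⊆
          ((Ioc 0 K).filter (fun t => t ∈ P) ∪ (Ioc K (2 * K)).filter (fun t => t ∈ P)) ∪ {X} := by
        intro t ht
        rw [mem_filter, mem_Ioc] at ht
        simp only [mem_union, mem_filter, mem_Ioc, mem_singleton]
        by_cases h1 : t ≤ K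
        · exact Or.inl (Or.inl ⟨⟨ht.1.1, h1⟩, ht.2⟩)
        · by_cases h2 : t ≤ 2 * K
          · exact Or.inl (Or.inr ⟨⟨by omega, h2⟩, ht.2⟩)
          · right
            omega
      have h1 : (((Ioc 0 X).filter (fun t => t ∈ P)).card : ℝ) ≤
          ((Ioc 0 K).filter (fun t => t ∈ P)).card + ((Ioc K (2 * K)).filter (fun t => t ∈ P)).card + 1 := by
        have h2 := (card_le_card hsub).trans (card_union_le _ _)
        rw [card_singleton] at h2
        have h3 := card_union_le ((Ioc 0 K).filter (fun t => t ∈ P)) ((Ioc K (2 * K)).filter (fun t => t ∈ P))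
        exact_mod_cast h2.trans (Nat.add_le_add_right h3 1)
      have h2 := ih K hKX
      have h3 := h K hK0
      have h4 : (K : ℝ) ^ (1 - κ) ≤ (K : ℝ) ^ s := Real.rpow_le_rpow_of_exponent_le hKp hsκ
      have h5 : (K : ℝ) ^ s ≤ 3 / 4 * (X : ℝ) ^ s := by
        have h6 : (K : ℝ) ≤ 2⁻¹ * X := by
          have : 2 * K ≤ X := by omega
          have h7 : ((2 * K : ℕ) : ℝ) ≤ X := by exact_mod_cast this
          push_cast at h7
          linarith
        calc (K : ℝ) ^ s ≤ (2⁻¹ * (X : ℝ)) ^ s := Real.rpow_le_rpow (by linarith) h6 (by linarith)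
          _ = (2 : ℝ) ^ (-s) * (X : ℝ) ^ s := by
              rw [Real.mul_rpow (by norm_num) (by linarith), Real.inv_rpow (by norm_num), ← Real.rpow_neg (by norm_num)]
          _ ≤ 3 / 4 * (X : ℝ) ^ s := mul_le_mul_of_nonneg_right h2s (by positivity)
      have h6 : (0 : ℝ) ≤ K0 := Nat.cast_nonneg _
      have h7 : (2 * (K0 : ℝ) + 8) * (K : ℝ) ^ s + (K : ℝ) ^ s ≤ (2 * (K0 : ℝ) + 9) * (3 / 4 * (X : ℝ) ^ s) := by
        have : (2 * (K0 : ℝ) + 8) * (K : ℝ) ^ s + (K : ℝ) ^ s = (2 * (K0 : ℝ) + 9) * (K : ℝ) ^ s := by ring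
        rw [this]
        exact mul_le_mul_of_nonneg_left h5 (by positivity)
      nlinarith

open Classical in
/-- **Sets with a power saving in the dyadic intervals, along the sequence.** -/
theorem sets_dyad (c : ℝ) (hc : 1 < c) {ι : Type} [Countable ι] (P : ι → Set ℕ) :
    ∃ E : Set ℝ, dimH E < 1 ∧ ∀ α : ℝ, 0 < α → α ∉ E → ∀ k : ι, ∀ κ : ℝ, 0 < κ →
      (∃ K0 : ℝ, ∀ K : ℕ, K0 ≤ K → (((Ioc K (2 * K)).filter (fun t => t ∈ P k)).card : ℝ) ≤ (K : ℝ) ^ (1 - κ)) →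
      ∃ δ : ℝ, 0 < δ ∧ δ < 1 ∧ ∃ N0 : ℕ, ∀ N : ℕ, N0 ≤ N →
        (((Icc 1 N).filter (fun n : ℕ => ⌊α * (n : ℝ) ^ c⌋₊ ∈ P k)).card : ℝ) ≤ (N : ℝ) ^ (1 - δ) := by
  obtain ⟨E, hE, h⟩ := sets_pow c hc P
  refine ⟨E, hE, fun α hα hαE k κ hκ => ?_⟩
  rintro ⟨K0, hK0⟩
  obtain ⟨η, hη, C, hC⟩ := cum_pow (P k) hκ ⌈K0⌉₊ (fun K hK => hK0 K (Nat.ceil_le.1 hK))
  exact h α hα hαE k η C hη ⟨0, fun X _ => hC X⟩

end Pool.Agent.Y854.GM
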