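import Pool.Agent.Y854.PS.Fam

/-! The dimension of the set of the amplitudes for which infinitely many members of the sequence `⌊α n ^ c⌋` lie in a
given thin set. -/

set_option autoImplicit false

open Finset Filter Topology MeasureTheory

namespace Pool.Agent.Y854.GM

open scoped ENNReal NNReal

open Classical in
/-- one bounded range of amplitudes -/
theorem dim_lim {c s D : ℝ} (hc : 1 < c) (hs : 0 ≤ s) (hD : s + 1 / c < D) (P : Set ℕ) (C : ℝ) (hC : 0 ≤ C)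
    (hP : ∀ X : ℕ, (((Ioc 0 X).filter (fun t => t ∈ P)).card : ℝ) ≤ C * (X : ℝ) ^ s) (A : ℕ) :
    dimH {α : ℝ | 0 < α ∧ α ≤ A ∧ ∀ n1 : ℕ, ∃ n : ℕ, n1 ≤ n ∧ 0 < ⌊α * (n : ℝ) ^ c⌋₊ ∧ ⌊α * (n : ℝ) ^ c⌋₊ ∈ P} ≤
      ENNReal.ofReal D := by
  have hc0 : 0 < c := by linarith
  have hD0 : 0 < D := lt_of_le_of_lt (by positivity) hD
  have hDn : ((Real.toNNReal D : ℝ≥0) : ℝ) = D := Real.coe_toNNReal D hD0.le
  have hgoal : ENNReal.ofReal D = ((Real.toNNReal D : ℝ≥0) : ℝ≥0∞) := rfl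
  rw [hgoal]
  apply dimH_le_of_hausdorffMeasure_ne_top
  rw [hDn]
  set T : ℕ → Finset ℕ := fun m => (Ioc 0 ⌊(A : ℝ) * (m : ℝ) ^ c⌋₊).filter (fun t => t ∈ P) with hT
  have hcard : ∀ m : ℕ, ((T m).card : ℝ) ≤ C * (A : ℝ) ^ s * (m : ℝ) ^ (c * s) := by
    intro m
    refine (hP _).trans ?_
    rw [mul_assoc]
    apply mul_le_mul_of_nonneg_left _ hC
    calc ((⌊(A : ℝ) * (m : ℝ) ^ c⌋₊ : ℕ) : ℝ) ^ s ≤ ((A : ℝ) * (m : ℝ) ^ c) ^ s :=
          Real.rpow_le_rpow (Nat.cast_nonneg _) (Nat.floor_le (by positivity)) hs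
      _ = (A : ℝ) ^ s * (m : ℝ) ^ (c * s) := by
          rw [Real.mul_rpow (Nat.cast_nonneg _) (by positivity), ← Real.rpow_mul (Nat.cast_nonneg _)]
  set K : ℝ := C * (A : ℝ) ^ s with hK
  have hK0 : 0 ≤ K := by positivity
  set p : ℝ := c * s - c * D with hp
  have hp1 : p < -1 := by
    have h1 : c * (s + 1 / c) < c * D := mul_lt_mul_of_pos_left hD hc0
    have h2 : c * (s + 1 / c) = c * s + 1 := by
      field_simp
    rw [hp]
    linarith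
  have hsum : Summable (fun m : ℕ => K * (m : ℝ) ^ p) := (Real.summable_nat_rpow.2 hp1).mul_left K
  have hlev : ∀ m : ℕ, 1 ≤ m → ((T m).card : ℝ) * (((m : ℝ) ^ c)⁻¹) ^ D ≤ K * (m : ℝ) ^ p := by
    intro m hm
    have hm0 : (0 : ℝ) < m := by exact_mod_cast hm
    calc ((T m).card : ℝ) * (((m : ℝ) ^ c)⁻¹) ^ D ≤ (K * (m : ℝ) ^ (c * s)) * (((m : ℝ) ^ c)⁻¹) ^ D :=
          mul_le_mul_of_nonneg_right (hcard m) (by positivity)
      _ = K * (m : ℝ) ^ p := by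
          rw [← Real.rpow_neg hm0.le, ← Real.rpow_mul hm0.le, mul_assoc, ← Real.rpow_add hm0]
          congr 2
          rw [hp]
          ring
  have hr : Tendsto (fun n : ℕ => ENNReal.ofReal ((((n + 1 : ℕ) : ℝ) ^ c)⁻¹)) atTop (𝓝 0) := by
    have h1 : Tendsto (fun n : ℕ => (((n + 1 : ℕ) : ℝ) ^ c)⁻¹) atTop (𝓝 0) :=
      tendsto_inv_atTop_zero.comp ((tendsto_rpow_atTop hc0).comp
        (tendsto_natCast_atTop_atTop.comp (tendsto_add_atTop_nat 1)))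
    have h2 := ENNReal.tendsto_ofReal h1
    simpa using h2
  have hd : ∀ (n : ℕ) (q : Σ i : ℕ, (T (n + 1 + i))),
      Metric.ediam (Set.Icc (((q.2 : ℕ) : ℝ) / ((n + 1 + q.1 : ℕ) : ℝ) ^ c)
        ((((q.2 : ℕ) : ℝ) + 1) / ((n + 1 + q.1 : ℕ) : ℝ) ^ c)) =
        ENNReal.ofReal ((((n + 1 + q.1 : ℕ) : ℝ) ^ c)⁻¹) := by
    intro n q
    rw [Real.ediam_Icc]
    congr 1
    rw [← sub_div]
    simp
  have key := Measure.hausdorffMeasure_le_liminf_tsum (X := ℝ) (β := ℕ)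
    (ι := fun n => Σ i : ℕ, (T (n + 1 + i))) D
    {α : ℝ | 0 < α ∧ α ≤ A ∧ ∀ n1 : ℕ, ∃ n : ℕ, n1 ≤ n ∧ 0 < ⌊α * (n : ℝ) ^ c⌋₊ ∧ ⌊α * (n : ℝ) ^ c⌋₊ ∈ P}
    (l := atTop) (fun n : ℕ => ENNReal.ofReal ((((n + 1 : ℕ) : ℝ) ^ c)⁻¹)) hr
    (fun n q => Set.Icc (((q.2 : ℕ) : ℝ) / ((n + 1 + q.1 : ℕ) : ℝ) ^ c)
        ((((q.2 : ℕ) : ℝ) + 1) / ((n + 1 + q.1 : ℕ) : ℝ) ^ c))
    (Eventually.of_forall fun n q => by
      rw [hd n q]
      apply ENNReal.ofReal_le_ofReal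
      apply inv_anti₀ (by positivity)
      apply Real.rpow_le_rpow (by positivity) _ hc0.le
      exact_mod_cast Nat.le_add_right _ _)
    (Eventually.of_forall fun n α hα => by
      obtain ⟨hα0, hαA, hlim⟩ := hα
      obtain ⟨m, hm1, hm2, hm3⟩ := hlim (n + 1)
      obtain ⟨i, rfl⟩ := Nat.exists_eq_add_of_le hm1
      have hmp : (0 : ℝ) < ((n + 1 + i : ℕ) : ℝ) ^ c := by positivity
      have hmem : ⌊α * ((n + 1 + i : ℕ) : ℝ) ^ c⌋₊ ∈ T (n + 1 + i) := by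
        rw [hT, mem_filter, mem_Ioc]
        refine ⟨⟨hm2, ?_⟩, hm3⟩
        apply Nat.floor_le_floor
        exact mul_le_mul_of_nonneg_right hαA hmp.le
      rw [Set.mem_iUnion]
      refine ⟨⟨i, ⟨_, hmem⟩⟩, ?_⟩
      rw [Set.mem_Icc, div_le_iff₀ hmp, le_div_iff₀ hmp]
      exact ⟨Nat.floor_le (by positivity), (Nat.lt_floor_add_one _).le⟩)
  refine ne_top_of_le_ne_top ?_ key
  have htot : (∑' m : ℕ, ENNReal.ofReal (K * (m : ℝ) ^ p)) ≠ ⊤ := by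
    rw [← ENNReal.ofReal_tsum_of_nonneg (fun m => by positivity) hsum]
    exact ENNReal.ofReal_ne_top
  have hbound : ∀ n : ℕ, (∑' q : Σ i : ℕ, (T (n + 1 + i)),
      Metric.ediam (Set.Icc (((q.2 : ℕ) : ℝ) / ((n + 1 + q.1 : ℕ) : ℝ) ^ c)
        ((((q.2 : ℕ) : ℝ) + 1) / ((n + 1 + q.1 : ℕ) : ℝ) ^ c)) ^ D) ≤
      ∑' m : ℕ, ENNReal.ofReal (K * (m : ℝ) ^ p) := by
    intro n
    rw [ENNReal.tsum_sigma']
    calc (∑' i : ℕ, ∑' x : (T (n + 1 + i)),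
        Metric.ediam (Set.Icc (((x : ℕ) : ℝ) / ((n + 1 + i : ℕ) : ℝ) ^ c)
          ((((x : ℕ) : ℝ) + 1) / ((n + 1 + i : ℕ) : ℝ) ^ c)) ^ D)
        ≤ ∑' i : ℕ, ENNReal.ofReal (K * ((n + 1 + i : ℕ) : ℝ) ^ p) := by
          apply ENNReal.tsum_le_tsum
          intro i
          have h1 : ∀ x : (T (n + 1 + i)),
              Metric.ediam (Set.Icc (((x : ℕ) : ℝ) / ((n + 1 + i : ℕ) : ℝ) ^ c)
                ((((x : ℕ) : ℝ) + 1) / ((n + 1 + i : ℕ) : ℝ) ^ c)) ^ D =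
                ENNReal.ofReal (((((n + 1 + i : ℕ) : ℝ) ^ c)⁻¹) ^ D) := by
            intro x
            rw [hd n ⟨i, x⟩, ENNReal.ofReal_rpow_of_pos (by positivity)]
          simp only [h1]
          rw [tsum_fintype]
          simp only [Finset.sum_const, Finset.card_univ, Fintype.card_coe, nsmul_eq_mul]
          rw [← ENNReal.ofReal_natCast, ← ENNReal.ofReal_mul (by positivity)]
          apply ENNReal.ofReal_le_ofReal
          exact hlev (n + 1 + i) (by omega)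
      _ ≤ ∑' m : ℕ, ENNReal.ofReal (K * (m : ℝ) ^ p) :=
          ENNReal.tsum_comp_le_tsum_of_injective (f := fun i : ℕ => n + 1 + i)
            (fun a b h => by simpa using h) (fun m : ℕ => ENNReal.ofReal (K * (m : ℝ) ^ p))
  refine ne_top_of_le_ne_top htot ?_
  apply Filter.liminf_le_of_le
  · isBoundedDefault
  · intro b hb
    obtain ⟨n, hn⟩ := hb.exists
    exact hn.trans (hbound n)

open Classical in
/-- **Only finitely many members of the sequence in a thin set.** Let `P` have at most `C X ^ s` members up to `X`,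
and let `s + 1 / c < 1`. For all amplitudes `α > 0` outside a set of dimension at most `s + 1 / c` only finitely many
members of the sequence `⌊α n ^ c⌋` belong to `P`. -/
theorem finite_in (c s : ℝ) (hc : 1 < c) (hs : 0 ≤ s) (P : Set ℕ) (C : ℝ) (hC : 0 ≤ C)
    (hP : ∀ X : ℕ, (((Ioc 0 X).filter (fun t => t ∈ P)).card : ℝ) ≤ C * (X : ℝ) ^ s) :
    ∃ E : Set ℝ, dimH E ≤ ENNReal.ofReal (s + 1 / c) ∧ ∀ α : ℝ, 0 < α → α ∉ E →
      ∃ n0 : ℕ, ∀ n : ℕ, n0 ≤ n → 0 < ⌊α * (n : ℝ) ^ c⌋₊ ∧ ⌊α * (n : ℝ) ^ c⌋₊ ∉ P := by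
  have hc0 : 0 < c := by linarith
  set F : ℕ → Set ℝ := fun A => {α : ℝ | 0 < α ∧ α ≤ A ∧ ∀ n1 : ℕ, ∃ n : ℕ, n1 ≤ n ∧
    0 < ⌊α * (n : ℝ) ^ c⌋₊ ∧ ⌊α * (n : ℝ) ^ c⌋₊ ∈ P} with hF
  refine ⟨⋃ A, F A, ?_, fun α hα hαE => ?_⟩
  · rw [dimH_iUnion]
    apply iSup_le
    intro A
    apply ENNReal.le_of_forall_pos_le_add
    intro ε hε _
    have h1 := dim_lim hc hs (show s + 1 / c < s + 1 / c + ε by
      have : (0 : ℝ) < ε := by exact_mod_cast hε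
      linarith) P C hC hP A
    rw [ENNReal.ofReal_add (by positivity) (by positivity), ENNReal.ofReal_coe_nnreal] at h1
    exact h1
  · have h1 : α ∉ F ⌈α⌉₊ := fun h => hαE (Set.mem_iUnion.2 ⟨_, h⟩)
    have ht : Tendsto (fun n : ℕ => α * (n : ℝ) ^ c) atTop atTop :=
      ((tendsto_rpow_atTop hc0).comp tendsto_natCast_atTop_atTop).const_mul_atTop hα
    obtain ⟨M, hM⟩ := (ht.eventually (eventually_ge_atTop 1)).exists_forall_of_atTop
    by_contra hcon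
    push Not at hcon
    apply h1
    refine ⟨hα, Nat.le_ceil α, fun n1 => ?_⟩
    obtain ⟨n, hn1, hn2⟩ := hcon (max n1 M)
    have h2 : 0 < ⌊α * (n : ℝ) ^ c⌋₊ := Nat.floor_pos.2 (hM n ((le_max_right _ _).trans hn1))
    exact ⟨n, (le_max_left _ _).trans hn1, h2, hn2 h2⟩

end Pool.Agent.Y854.GM
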