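import Pool.Agent.Y854.GM.Slow

/-! Sets of logarithmic density: lower and upper bounds along the sequence. -/

set_option autoImplicit false

open Finset Filter Topology

namespace Pool.Agent.Y854.GM

open Pool.Agent.Y854.PS
open Pool.Agent.Y854.ST (sum_wt_up sum_wt_low Ioc_zero wsum)

lemma one_le_log3 {X : ℕ} (h : 3 ≤ X) : 1 ≤ Real.log X := by
  have h3 : (3 : ℝ) ≤ X := by exact_mod_cast h
  rw [Real.le_log_iff_exp_le (by linarith)]
  linarith [Real.exp_one_lt_d9]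

/-- the logarithm of the last term of the sequence -/
lemma log_last {α c : ℝ} (hα : 0 < α) (hc : 1 < c) : ∃ B : ℝ, 1 ≤ B ∧ ∀ N : ℕ, 3 ≤ N →
    Real.log ((⌊α * (N : ℝ) ^ c⌋₊ : ℝ) + 3) ≤ B * Real.log N := by
  refine ⟨Real.log (α + 3) + c, ?_, fun N hN => ?_⟩
  · have : 0 ≤ Real.log (α + 3) := Real.log_nonneg (by linarith)
    linarith
  have hN3 : (3 : ℝ) ≤ N := by exact_mod_cast hN
  have hl : 1 ≤ Real.log N := one_le_log3 hN
  have hNc : (1 : ℝ) ≤ (N : ℝ) ^ c := Real.one_le_rpow (by linarith) (by linarith)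
  have h1 : (⌊α * (N : ℝ) ^ c⌋₊ : ℝ) + 3 ≤ (α + 3) * (N : ℝ) ^ c := by
    have := Nat.floor_le (show 0 ≤ α * (N : ℝ) ^ c by positivity)
    nlinarith
  have h2 := Real.log_le_log (by positivity) h1
  rw [Real.log_mul (by linarith) (by positivity), Real.log_rpow (by linarith)] at h2
  have h3 : 0 ≤ Real.log (α + 3) := Real.log_nonneg (by linarith)
  nlinarith

/-- the terms grow faster than `N` -/
lemma last_ge {α c : ℝ} (hα : 0 < α) (hc : 1 < c) : ∃ N1 : ℕ, ∀ N : ℕ, N1 ≤ N → N ≤ ⌊α * (N : ℝ) ^ c⌋₊ := by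
  have h1 : Tendsto (fun N : ℕ => (N : ℝ) ^ (c - 1)) atTop atTop :=
    (tendsto_rpow_atTop (by linarith)).comp tendsto_natCast_atTop_atTop
  obtain ⟨M, hM⟩ := (h1.eventually (eventually_ge_atTop (1 / α))).exists_forall_of_atTop
  refine ⟨max M 1, fun N hN => ?_⟩
  have h2 := hM N ((le_max_left _ _).trans hN)
  have hN1 : (1 : ℝ) ≤ N := by exact_mod_cast (le_max_right M 1).trans hN
  rw [div_le_iff₀ hα] at h2
  have h3 : (N : ℝ) ^ c = (N : ℝ) ^ (c - 1) * N := by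
    rw [← Real.rpow_add_one (by linarith)]
    congr 1
    ring
  apply Nat.le_floor
  rw [h3]
  nlinarith

/-- powers with an exponent less than one -/
lemma pow_small {s K ε : ℝ} (hs : s < 1) (hε : 0 < ε) :
    ∃ N1 : ℕ, ∀ N : ℕ, N1 ≤ N → K * (N : ℝ) ^ s ≤ ε * N / Real.log N := by
  have h1 := isLittleO_log_rpow_atTop (r := 1 - s) (by linarith)
  have h2 := h1.bound (c := ε / (|K| + 1)) (by positivity)
  obtain ⟨M, hM⟩ := (tendsto_natCast_atTop_atTop.eventually h2).exists_forall_of_atTop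
  refine ⟨max M 3, fun N hN => ?_⟩
  have h3 := hM N ((le_max_left _ _).trans hN)
  have hN3 : 3 ≤ N := (le_max_right _ _).trans hN
  have hl := one_le_log3 hN3
  have hNp : (0 : ℝ) < N := by
    have : 0 < N := by omega
    exact_mod_cast this
  rw [Real.norm_of_nonneg (by linarith), Real.norm_of_nonneg (by positivity), div_mul_eq_mul_div,
    le_div_iff₀ (by positivity)] at h3
  rw [le_div_iff₀ (by linarith)]
  have h4 : (N : ℝ) = (N : ℝ) ^ (1 - s) * (N : ℝ) ^ s := by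
    rw [← Real.rpow_add hNp]
    simp
  have h5 : 0 < (N : ℝ) ^ s := by positivity
  have h6 : K * Real.log N ≤ ε * (N : ℝ) ^ (1 - s) := by
    have h7 : K * Real.log N ≤ Real.log N * (|K| + 1) := by
      have := le_abs_self K
      nlinarith
    linarith
  calc K * (N : ℝ) ^ s * Real.log N = (K * Real.log N) * (N : ℝ) ^ s := by ring
    _ ≤ (ε * (N : ℝ) ^ (1 - s)) * (N : ℝ) ^ s := mul_le_mul_of_nonneg_right h6 h5.le
    _ = ε * ((N : ℝ) ^ (1 - s) * (N : ℝ) ^ s) := by ring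
    _ = ε * N := by rw [← h4]

/-- **Lower bounds for sets of logarithmic density.** -/
theorem seq_lower_log {α c κ : ℝ} (hα : 0 < α) (hc : 1 < c) (hκ : 0 < κ) (u : ℕ → ℝ) (hu0 : ∀ m, 0 ≤ u m)
    {δ : ℝ} (hδ : 0 < δ) (X0 : ℕ) (hu : ∀ X : ℕ, X0 ≤ X → δ * X / Real.log X ≤ ∑ m ∈ Ioc 0 X, u m)
    (N0 : ℕ) (hlaw : ∀ N : ℕ, N0 ≤ N →
      |∑ n ∈ Icc 1 N, u ⌊α * (n : ℝ) ^ c⌋₊ -
        α ^ (-(1 / c)) * ∑ t ∈ Ioc 0 ⌊α * (N : ℝ) ^ c⌋₊, wt c t * u t| ≤ (N : ℝ) ^ (1 - κ)) :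
    ∃ κ1 : ℝ, 0 < κ1 ∧ ∃ N1 : ℕ, ∀ N : ℕ, N1 ≤ N → κ1 * N / Real.log N ≤ ∑ n ∈ Icc 1 N, u ⌊α * (n : ℝ) ^ c⌋₊ := by
  set a := α ^ (-(1 / c)) with ha
  have ha0 : 0 < a := Real.rpow_pos_of_pos hα _
  have hc0 : 0 < c := by linarith
  obtain ⟨B, hB1, hB⟩ := log_last hα hc
  obtain ⟨N2, hN2⟩ := last_ge hα hc
  set κ1 : ℝ := δ / (4 * c * B) with hκ1
  have hκ1p : 0 < κ1 := by positivity
  obtain ⟨N3, hN3⟩ := pow_small (s := 1 - κ) (K := 1) (by linarith) hκ1p
  obtain ⟨N4, hN4⟩ := last_ge (α := α / 2) (c := c) (by positivity) hc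
  refine ⟨κ1, hκ1p, max (max (max N0 N2) (max N3 N4)) (max X0 3), fun N hN => ?_⟩
  have g0 : N0 ≤ N := (((le_max_left _ _).trans (le_max_left _ _)).trans (le_max_left _ _)).trans hN
  have g2 : N2 ≤ N := (((le_max_right _ _).trans (le_max_left _ _)).trans (le_max_left _ _)).trans hN
  have g3 : N3 ≤ N := (((le_max_left _ _).trans (le_max_right _ _)).trans (le_max_left _ _)).trans hN
  have g4 : N4 ≤ N := (((le_max_right _ _).trans (le_max_right _ _)).trans (le_max_left _ _)).trans hN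
  have g5 : X0 ≤ N := ((le_max_left _ _).trans (le_max_right _ _)).trans hN
  have g6 : 3 ≤ N := ((le_max_right _ _).trans (le_max_right _ _)).trans hN
  have hNp : (3 : ℝ) ≤ N := by exact_mod_cast g6
  have hlN := one_le_log3 g6
  have h1 := hlaw N g0
  set X : ℕ := ⌊α * (N : ℝ) ^ c⌋₊ with hX
  have hXN : N ≤ X := hN2 N g2
  have hX3 : 3 ≤ X := g6.trans hXN
  have hXp : (3 : ℝ) ≤ X := by exact_mod_cast hX3
  have hlX := one_le_log3 hX3
  have hA := hu X (g5.trans hXN)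
  -- the weights are at least the last weight
  have h2 : wt c X * (δ * X / Real.log X) ≤ ∑ t ∈ Ioc 0 X, wt c t * u t := by
    calc wt c X * (δ * X / Real.log X) ≤ wt c X * ∑ m ∈ Ioc 0 X, u m := mul_le_mul_of_nonneg_left hA (wt_nonneg hc X)
      _ = ∑ m ∈ Ioc 0 X, wt c X * u m := by rw [Finset.mul_sum]
      _ ≤ _ := by
          apply Finset.sum_le_sum
          intro m hm
          rw [mem_Ioc] at hm
          exact mul_le_mul_of_nonneg_right (wt_anti hc hm.1 hm.2) (hu0 m)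
  have h3 : wt c X * (δ * X / Real.log X) = (δ / c) * (X : ℝ) ^ (1 / c) / Real.log X := by
    unfold wt
    have h4 : (X : ℝ) ^ (1 / c) = (X : ℝ) ^ (1 / c - 1) * X := by
      rw [← Real.rpow_add_one (by linarith)]
      congr 1
      ring
    rw [h4]
    field_simp
  have h5 : (N : ℝ) / 2 ≤ a * (X : ℝ) ^ (1 / c) := by
    have h6 : α / 2 * (N : ℝ) ^ c ≤ X := by
      have h7 := Nat.lt_floor_add_one (α * (N : ℝ) ^ c)
      rw [← hX] at h7
      have h8 := hN4 N g4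
      have h9 : (N : ℝ) ≤ α / 2 * (N : ℝ) ^ c := by
        have h10 := Nat.floor_le (show 0 ≤ α / 2 * (N : ℝ) ^ c by positivity)
        have h11 : (N : ℝ) ≤ (⌊α / 2 * (N : ℝ) ^ c⌋₊ : ℝ) := by exact_mod_cast h8
        linarith
      linarith
    have h7 : (α / 2 * (N : ℝ) ^ c) ^ (1 / c) ≤ (X : ℝ) ^ (1 / c) :=
      Real.rpow_le_rpow (by positivity) h6 (by positivity)
    have h8 : (α / 2 * (N : ℝ) ^ c) ^ (1 / c) = (α ^ (1 / c) / (2 : ℝ) ^ (1 / c)) * N := by
      rw [Real.mul_rpow (by positivity) (by positivity), Real.div_rpow hα.le (by norm_num), ← Real.rpow_mul (by linarith),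
        mul_one_div_cancel hc0.ne', Real.rpow_one]
    have h9 : a * α ^ (1 / c) = 1 := by
      rw [ha, ← Real.rpow_add hα]
      simp
    have h10 : (2 : ℝ) ^ (1 / c) ≤ 2 := by
      calc (2 : ℝ) ^ (1 / c) ≤ (2 : ℝ) ^ (1 : ℝ) :=
            Real.rpow_le_rpow_of_exponent_le (by norm_num) (by rw [div_le_one hc0]; exact hc.le)
        _ = 2 := Real.rpow_one 2
    have h11 : (0 : ℝ) < (2 : ℝ) ^ (1 / c) := by positivity
    calc (N : ℝ) / 2 ≤ N / (2 : ℝ) ^ (1 / c) := div_le_div_of_nonneg_left (by linarith) h11 h10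
      _ = (a * α ^ (1 / c)) * (N / (2 : ℝ) ^ (1 / c)) := by rw [h9, one_mul]
      _ = a * ((α ^ (1 / c) / (2 : ℝ) ^ (1 / c)) * N) := by ring
      _ = a * (α / 2 * (N : ℝ) ^ c) ^ (1 / c) := by rw [h8]
      _ ≤ _ := mul_le_mul_of_nonneg_left h7 ha0.le
  have h6 : Real.log X ≤ B * Real.log N := by
    refine le_trans ?_ (hB N g6)
    apply Real.log_le_log (by linarith)
    rw [← hX]
    linarith
  have h7 : 2 * (κ1 * N / Real.log N) ≤ a * ∑ t ∈ Ioc 0 X, wt c t * u t := by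
    calc 2 * (κ1 * N / Real.log N) = (δ / c) * (N / 2) / (B * Real.log N) := by
          rw [hκ1]
          field_simp
          ring
      _ ≤ (δ / c) * (N / 2) / Real.log X := by
          apply div_le_div_of_nonneg_left (by positivity) (by linarith) h6
      _ ≤ (δ / c) * (a * (X : ℝ) ^ (1 / c)) / Real.log X := by
          apply div_le_div_of_nonneg_right _ (by linarith)
          exact mul_le_mul_of_nonneg_left h5 (by positivity)
      _ = a * ((δ / c) * (X : ℝ) ^ (1 / c) / Real.log X) := by ring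
      _ ≤ _ := by
          apply mul_le_mul_of_nonneg_left _ ha0.le
          rw [← h3]
          exact h2
  have h8 := hN3 N g3
  rw [one_mul] at h8
  rw [abs_le] at h1
  linarith [h1.1]

/-- **Upper bounds for sets of logarithmic density.** -/
theorem seq_upper_log {α c κ : ℝ} (hα : 0 < α) (hc : 1 < c) (hκ : 0 < κ) (u : ℕ → ℝ) (hu0 : ∀ m, 0 ≤ u m)
    {F : ℝ} (hF : 0 ≤ F) (huF : ∀ m, u m ≤ F)
    {δ : ℝ} (hδ : 0 ≤ δ) (X0 : ℕ) (hu : ∀ X : ℕ, X0 ≤ X → ∑ m ∈ Ioc 0 X, u m ≤ δ * X / Real.log X)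
    (N0 : ℕ) (hlaw : ∀ N : ℕ, N0 ≤ N →
      |∑ n ∈ Icc 1 N, u ⌊α * (n : ℝ) ^ c⌋₊ -
        α ^ (-(1 / c)) * ∑ t ∈ Ioc 0 ⌊α * (N : ℝ) ^ c⌋₊, wt c t * u t| ≤ (N : ℝ) ^ (1 - κ)) (ε : ℝ) (hε : 0 < ε) :
    ∃ N1 : ℕ, ∀ N : ℕ, N1 ≤ N → ∑ n ∈ Icc 1 N, u ⌊α * (n : ℝ) ^ c⌋₊ ≤ (2 * δ + ε) * N / Real.log N := by
  classical
  set a := α ^ (-(1 / c)) with ha
  have ha0 : 0 < a := Real.rpow_pos_of_pos hα _
  have hc0 : 0 < c := by linarith
  obtain ⟨N2, hN2⟩ := last_ge hα hc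
  obtain ⟨N3, hN3⟩ := pow_small (s := 1 - κ) (K := 1) (by linarith) (show 0 < ε / 2 by positivity)
  obtain ⟨N4, hN4⟩ := pow_small (s := 1 / 2) (K := a * (F * α ^ (1 / (2 * c)))) (by norm_num) (show 0 < ε / 2 by positivity)
  refine ⟨max (max (max N0 N2) (max N3 N4)) ((max X0 3 + 1) ^ 2), fun N hN => ?_⟩
  have g0 : N0 ≤ N := (((le_max_left _ _).trans (le_max_left _ _)).trans (le_max_left _ _)).trans hN
  have g2 : N2 ≤ N := (((le_max_right _ _).trans (le_max_left _ _)).trans (le_max_left _ _)).trans hN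
  have g3 : N3 ≤ N := (((le_max_left _ _).trans (le_max_right _ _)).trans (le_max_left _ _)).trans hN
  have g4 : N4 ≤ N := (((le_max_right _ _).trans (le_max_right _ _)).trans (le_max_left _ _)).trans hN
  have g5 : (max X0 3 + 1) ^ 2 ≤ N := (le_max_right _ _).trans hN
  have hm3 : 3 ≤ max X0 3 := le_max_right _ _
  have g6 : 3 ≤ N := by nlinarith
  have hNp : (3 : ℝ) ≤ N := by exact_mod_cast g6
  have hlN := one_le_log3 g6
  have h1 := hlaw N g0
  have hws := wsum hα hc N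
  set X : ℕ := ⌊α * (N : ℝ) ^ c⌋₊ with hX
  have hms : ms α c N = X := rfl
  rw [hms] at hws
  have hXN : N ≤ X := hN2 N g2
  have hX3 : 3 ≤ X := g6.trans hXN
  have hXp : (3 : ℝ) ≤ X := by exact_mod_cast hX3
  have hlX := one_le_log3 hX3
  set Y : ℕ := Nat.sqrt X with hY
  have hYX : Y ^ 2 ≤ X := Nat.sqrt_le' X
  have hYX' : X < (Y + 1) ^ 2 := Nat.lt_succ_sqrt' X
  have hY0 : max X0 3 ≤ Y := by
    by_contra hcon
    push Not at hcon
    have : (Y + 1) ^ 2 ≤ (max X0 3 + 1) ^ 2 := Nat.pow_le_pow_left (by omega) 2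
    omega
  have hYX0 : X0 ≤ Y := (le_max_left _ _).trans hY0
  have hY3 : 3 ≤ Y := (le_max_right _ _).trans hY0
  have hYleX : Y ≤ X := by nlinarith
  -- the small terms
  set g : ℕ → ℝ := fun m => if Y < m then u m else 0 with hg
  have hsplit : ∑ t ∈ Ioc 0 X, wt c t * u t = ∑ t ∈ Ioc 0 Y, wt c t * u t + ∑ t ∈ Ioc 0 X, wt c t * g t := by
    have h2 : ∑ t ∈ Ioc 0 X, wt c t * g t = ∑ t ∈ Ioc Y X, wt c t * u t := by
      have h3 : ∀ t ∈ Ioc 0 X, wt c t * g t = if Y < t then wt c t * u t else 0 := by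
        intro t _
        rw [hg]
        simp only
        split_ifs <;> simp
      rw [Finset.sum_congr rfl h3, ← Finset.sum_filter]
      apply Finset.sum_congr
      · ext t
        rw [mem_filter, mem_Ioc, mem_Ioc]
        omega
      · intro _ _; rfl
    rw [h2, Finset.sum_Ioc_consecutive _ (Nat.zero_le _) hYleX]
  have hsmall : ∑ t ∈ Ioc 0 Y, wt c t * u t ≤ F * α ^ (1 / (2 * c)) * (N : ℝ) ^ ((1 : ℝ) / 2) := by
    have h2 : ∑ t ∈ Ioc 0 Y, wt c t * u t ≤ F * ∑ t ∈ Ioc 0 Y, wt c t := by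
      rw [Finset.mul_sum]
      apply Finset.sum_le_sum
      intro t _
      rw [mul_comm F]
      exact mul_le_mul_of_nonneg_left (huF t) (wt_nonneg hc t)
    have h3 := sum_wt_up hc Y
    have h4 : (Y : ℝ) ^ (1 / c) ≤ α ^ (1 / (2 * c)) * (N : ℝ) ^ ((1 : ℝ) / 2) := by
      have h5 : ((Y : ℝ) ^ (2 : ℝ)) ≤ α * (N : ℝ) ^ c := by
        have h6 : (X : ℝ) ≤ α * (N : ℝ) ^ c := Nat.floor_le (by positivity)
        have h7 : ((Y ^ 2 : ℕ) : ℝ) ≤ X := by exact_mod_cast hYX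
        push_cast at h7
        have h8 : (Y : ℝ) ^ (2 : ℝ) = (Y : ℝ) ^ (2 : ℕ) := by
          rw [← Real.rpow_natCast]
          norm_num
        rw [h8]
        linarith
      calc (Y : ℝ) ^ (1 / c) = ((Y : ℝ) ^ (2 : ℝ)) ^ (1 / (2 * c)) := by
            rw [← Real.rpow_mul (Nat.cast_nonneg _)]
            congr 1
            field_simp
        _ ≤ (α * (N : ℝ) ^ c) ^ (1 / (2 * c)) := Real.rpow_le_rpow (by positivity) h5 (by positivity)
        _ = α ^ (1 / (2 * c)) * (N : ℝ) ^ ((1 : ℝ) / 2) := by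
            rw [Real.mul_rpow hα.le (by positivity), ← Real.rpow_mul (by linarith)]
            congr 2
            field_simp
    calc ∑ t ∈ Ioc 0 Y, wt c t * u t ≤ F * ∑ t ∈ Ioc 0 Y, wt c t := h2
      _ ≤ F * (α ^ (1 / (2 * c)) * (N : ℝ) ^ ((1 : ℝ) / 2)) := mul_le_mul_of_nonneg_left (h3.trans h4) hF
      _ = _ := by ring
  have hlarge : ∑ t ∈ Ioc 0 X, wt c t * g t ≤ (2 * δ / Real.log X) * ∑ t ∈ Ioc 0 X, wt c t := by
    apply w_upper hc g X
    intro Z hZ
    rcases le_or_gt Z Y with hZY | hZY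
    · have h2 : ∑ m ∈ Ioc 0 Z, g m = 0 := by
        apply Finset.sum_eq_zero
        intro m hm
        rw [mem_Ioc] at hm
        rw [hg]
        simp only
        rw [if_neg (by omega)]
      rw [h2]
      positivity
    · have h2 : ∑ m ∈ Ioc 0 Z, g m ≤ ∑ m ∈ Ioc 0 Z, u m := by
        apply Finset.sum_le_sum
        intro m _
        rw [hg]
        simp only
        split_ifs
        · exact le_rfl
        · exact hu0 m
      have h3 := hu Z (by omega)
      have hZ3 : 3 ≤ Z := by omega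
      have hZp : (3 : ℝ) ≤ Z := by exact_mod_cast hZ3
      have hlZ := one_le_log3 hZ3
      have h4 : Real.log X ≤ 2 * Real.log Z := by
        have h5 : (X : ℝ) ≤ (Z : ℝ) ^ 2 := by
          have : X ≤ Z ^ 2 := by
            have h6 : (Y + 1) ^ 2 ≤ Z ^ 2 := Nat.pow_le_pow_left (by omega) 2
            omega
          exact_mod_cast this
        have h6 := Real.log_le_log (by linarith) h5
        rw [Real.log_pow] at h6
        exact_mod_cast h6
      calc ∑ m ∈ Ioc 0 Z, g m ≤ δ * Z / Real.log Z := h2.trans h3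
        _ = 2 * (δ * Z) / (2 * Real.log Z) := by
            field_simp
        _ ≤ 2 * (δ * Z) / Real.log X := by
            apply div_le_div_of_nonneg_left (by positivity) (by linarith) h4
        _ = _ := by ring
  have hlogs : Real.log N ≤ Real.log X := Real.log_le_log (by linarith) (by exact_mod_cast hXN)
  have h2 : a * ∑ t ∈ Ioc 0 X, wt c t * g t ≤ 2 * δ * N / Real.log N := by
    calc a * ∑ t ∈ Ioc 0 X, wt c t * g t ≤ a * ((2 * δ / Real.log X) * ∑ t ∈ Ioc 0 X, wt c t) :=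
          mul_le_mul_of_nonneg_left hlarge ha0.le
      _ = (2 * δ / Real.log X) * (a * ∑ t ∈ Ioc 0 X, wt c t) := by ring
      _ ≤ (2 * δ / Real.log X) * N := mul_le_mul_of_nonneg_left hws.2 (by positivity)
      _ = 2 * δ * N / Real.log X := by ring
      _ ≤ _ := div_le_div_of_nonneg_left (by positivity) (by linarith) hlogs
  have h3 : a * ∑ t ∈ Ioc 0 Y, wt c t * u t ≤ ε / 2 * N / Real.log N := by
    refine le_trans ?_ (hN4 N g4)
    calc a * ∑ t ∈ Ioc 0 Y, wt c t * u t ≤ a * (F * α ^ (1 / (2 * c)) * (N : ℝ) ^ ((1 : ℝ) / 2)) :=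
          mul_le_mul_of_nonneg_left hsmall ha0.le
      _ = _ := by ring
  have h4 := hN3 N g3
  rw [one_mul] at h4
  rw [abs_le] at h1
  have h5 := h1.2
  rw [hsplit, mul_add] at h5
  have h6 : (2 * δ + ε) * N / Real.log N = 2 * δ * N / Real.log N + ε / 2 * N / Real.log N + ε / 2 * N / Real.log N := by
    ring
  rw [h6]
  linarith

end Pool.Agent.Y854.GM
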