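import Pool.Agent.Y854.GM.Mean2
import Pool.Agent.Y854.GM.Log

/-! Thin sets of a countable family along the sequence, with rates. -/

set_option autoImplicit false

open Finset Filter Topology

namespace Pool.Agent.Y854.GM

open Pool.Agent.Y854.PS
open Pool.Agent.Y854.ST (sum_wt_up sum_wt_low Ioc_zero wsum)

/-- **Upper bounds along the sequence, with an antitone rate.** -/
theorem seq_rate {α c κ : ℝ} (hα : 0 < α) (hc : 1 < c) (u : ℕ → ℝ) (hu0 : ∀ m, 0 ≤ u m)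
    (hu1 : ∀ m, u m ≤ 1) (φ : ℕ → ℝ) (hφ0 : ∀ X, 0 ≤ φ X) (hφ : Antitone φ)
    (X0 : ℕ) (hu : ∀ X : ℕ, X0 ≤ X → ∑ m ∈ Ioc 0 X, u m ≤ φ X * X)
    (N0 : ℕ) (hlaw : ∀ N : ℕ, N0 ≤ N →
      |∑ n ∈ Icc 1 N, u ⌊α * (n : ℝ) ^ c⌋₊ -
        α ^ (-(1 / c)) * ∑ t ∈ Ioc 0 ⌊α * (N : ℝ) ^ c⌋₊, wt c t * u t| ≤ (N : ℝ) ^ (1 - κ)) :
    ∃ K : ℝ, 0 < K ∧ ∃ N1 : ℕ, ∀ N : ℕ, N1 ≤ N → ∑ n ∈ Icc 1 N, u ⌊α * (n : ℝ) ^ c⌋₊ ≤
      φ (Nat.sqrt N) * N + K * (N : ℝ) ^ ((1 : ℝ) / 2) + (N : ℝ) ^ (1 - κ) := by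
  classical
  set a := α ^ (-(1 / c)) with ha
  have ha0 : 0 < a := Real.rpow_pos_of_pos hα _
  have hc0 : 0 < c := by linarith
  obtain ⟨N2, hN2⟩ := last_ge hα hc
  refine ⟨a * α ^ (1 / (2 * c)), by positivity, max (max N0 N2) ((X0 + 1) ^ 2), fun N hN => ?_⟩
  have g0 : N0 ≤ N := ((le_max_left _ _).trans (le_max_left _ _)).trans hN
  have g2 : N2 ≤ N := ((le_max_right _ _).trans (le_max_left _ _)).trans hN
  have g5 : (X0 + 1) ^ 2 ≤ N := (le_max_right _ _).trans hN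
  have h1 := hlaw N g0
  have hws := wsum hα hc N
  set X : ℕ := ⌊α * (N : ℝ) ^ c⌋₊ with hX
  have hms : ms α c N = X := rfl
  rw [hms] at hws
  have hXN : N ≤ X := hN2 N g2
  set Y : ℕ := Nat.sqrt X with hY
  have hYX : Y ^ 2 ≤ X := Nat.sqrt_le' X
  have hYN : Nat.sqrt N ≤ Y := Nat.sqrt_le_sqrt hXN
  have hYX0 : X0 ≤ Y := by
    rw [hY, Nat.le_sqrt']
    exact (Nat.pow_le_pow_left (Nat.le_succ X0) 2).trans (g5.trans hXN)
  have hYleX : Y ≤ X := Nat.sqrt_le_self X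
  set g : ℕ → ℝ := fun m => if Y < m then u m else 0 with hg
  have hsplit : ∑ t ∈ Ioc 0 X, wt c t * u t = ∑ t ∈ Ioc 0 Y, wt c t * u t + ∑ t ∈ Ioc 0 X, wt c t * g t := by
    have h2 : ∑ t ∈ Ioc 0 X, wt c t * g t = ∑ t ∈ Ioc Y X, wt c t * u t := by
      have h3 : ∀ t ∈ Ioc 0 X, wt c t * g t = if Y < t then wt c t * u t else 0 := by
        intro t _
        rw [hg]
        simp only
        split_ifs <;> simp
      rw [Finset.sum_congr rfl h3, ← Finset.sum_filter]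
      apply Finset.sum_congr
      · ext t
        rw [mem_filter, mem_Ioc, mem_Ioc]
        omega
      · intro _ _; rfl
    rw [h2, Finset.sum_Ioc_consecutive _ (Nat.zero_le _) hYleX]
  have hsmall : ∑ t ∈ Ioc 0 Y, wt c t * u t ≤ α ^ (1 / (2 * c)) * (N : ℝ) ^ ((1 : ℝ) / 2) := by
    have h2 : ∑ t ∈ Ioc 0 Y, wt c t * u t ≤ ∑ t ∈ Ioc 0 Y, wt c t := by
      apply Finset.sum_le_sum
      intro t _
      have := mul_le_mul_of_nonneg_left (hu1 t) (wt_nonneg hc t)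
      linarith
    have h3 := sum_wt_up hc Y
    have h4 : (Y : ℝ) ^ (1 / c) ≤ α ^ (1 / (2 * c)) * (N : ℝ) ^ ((1 : ℝ) / 2) := by
      have h5 : ((Y : ℝ) ^ (2 : ℝ)) ≤ α * (N : ℝ) ^ c := by
        have h6 : (X : ℝ) ≤ α * (N : ℝ) ^ c := Nat.floor_le (by positivity)
        have h7 : ((Y ^ 2 : ℕ) : ℝ) ≤ X := by exact_mod_cast hYX
        push_cast at h7
        have h8 : (Y : ℝ) ^ (2 : ℝ) = (Y : ℝ) ^ (2 : ℕ) := by
          rw [← Real.rpow_natCast]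
          norm_num
        rw [h8]
        linarith
      calc (Y : ℝ) ^ (1 / c) = ((Y : ℝ) ^ (2 : ℝ)) ^ (1 / (2 * c)) := by
            rw [← Real.rpow_mul (Nat.cast_nonneg _)]
            congr 1
            field_simp
        _ ≤ (α * (N : ℝ) ^ c) ^ (1 / (2 * c)) := Real.rpow_le_rpow (by positivity) h5 (by positivity)
        _ = α ^ (1 / (2 * c)) * (N : ℝ) ^ ((1 : ℝ) / 2) := by
            rw [Real.mul_rpow hα.le (by positivity), ← Real.rpow_mul (Nat.cast_nonneg _)]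
            congr 2
            field_simp
    exact h2.trans (h3.trans h4)
  have hlarge : ∑ t ∈ Ioc 0 X, wt c t * g t ≤ φ (Nat.sqrt N) * ∑ t ∈ Ioc 0 X, wt c t := by
    apply w_upper hc g X
    intro Z hZ
    rcases le_or_gt Z Y with hZY | hZY
    · have h2 : ∑ m ∈ Ioc 0 Z, g m = 0 := by
        apply Finset.sum_eq_zero
        intro m hm
        rw [mem_Ioc] at hm
        rw [hg]
        simp only
        rw [if_neg (by omega)]
      rw [h2]
      exact mul_nonneg (hφ0 _) (Nat.cast_nonneg _)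
    · have h2 : ∑ m ∈ Ioc 0 Z, g m ≤ ∑ m ∈ Ioc 0 Z, u m := by
        apply Finset.sum_le_sum
        intro m _
        rw [hg]
        simp only
        split_ifs
        · exact le_rfl
        · exact hu0 m
      have h3 := hu Z (by omega)
      have h4 : φ Z ≤ φ (Nat.sqrt N) := hφ (by omega)
      exact h2.trans (h3.trans (mul_le_mul_of_nonneg_right h4 (Nat.cast_nonneg _)))
  have h2 : a * ∑ t ∈ Ioc 0 X, wt c t * u t ≤
      a * α ^ (1 / (2 * c)) * (N : ℝ) ^ ((1 : ℝ) / 2) + φ (Nat.sqrt N) * N := by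
    rw [hsplit, mul_add]
    have h3 : a * ∑ t ∈ Ioc 0 Y, wt c t * u t ≤ a * (α ^ (1 / (2 * c)) * (N : ℝ) ^ ((1 : ℝ) / 2)) :=
      mul_le_mul_of_nonneg_left hsmall ha0.le
    have h4 : a * ∑ t ∈ Ioc 0 X, wt c t * g t ≤ φ (Nat.sqrt N) * N := by
      calc a * ∑ t ∈ Ioc 0 X, wt c t * g t ≤ a * (φ (Nat.sqrt N) * ∑ t ∈ Ioc 0 X, wt c t) :=
            mul_le_mul_of_nonneg_left hlarge ha0.le
        _ = φ (Nat.sqrt N) * (a * ∑ t ∈ Ioc 0 X, wt c t) := by ring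
        _ ≤ φ (Nat.sqrt N) * N := mul_le_mul_of_nonneg_left hws.2 (hφ0 _)
    linarith
  have h3 := (abs_le.1 h1).2
  linarith

open Classical in
/-- **Thin sets along the sequence, with an antitone rate.** -/
theorem sets_rate (c : ℝ) (hc : 1 < c) {ι : Type} [Countable ι] (P : ι → Set ℕ) :
    ∃ κ : ℝ, 0 < κ ∧ κ < 1 ∧ ∃ E : Set ℝ, dimH E < 1 ∧ ∀ α : ℝ, 0 < α → α ∉ E → ∀ k : ι, ∀ φ : ℕ → ℝ,
      (∀ X, 0 ≤ φ X) → Antitone φ →
      (∃ X0 : ℕ, ∀ X : ℕ, X0 ≤ X → (((Ioc 0 X).filter (fun t => t ∈ P k)).card : ℝ) ≤ φ X * X) →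
      ∃ K : ℝ, 0 < K ∧ ∃ N0 : ℕ, ∀ N : ℕ, N0 ≤ N →
        (((Icc 1 N).filter (fun n : ℕ => ⌊α * (n : ℝ) ^ c⌋₊ ∈ P k)).card : ℝ) ≤
          φ (Nat.sqrt N) * N + K * (N : ℝ) ^ ((1 : ℝ) / 2) + (N : ℝ) ^ (1 - κ) := by
  obtain ⟨κ, hκ, hκ1, h⟩ := mean2 c hc
  obtain ⟨E, hE, hlaw⟩ := h (fun k t => if t ∈ P k then (1 : ℝ) else 0)
  refine ⟨κ, hκ, hκ1, E, hE, fun α hα hαE k φ hφ0 hφ => ?_⟩
  have hgrow : ∃ C : ℝ, 0 < C ∧ ∀ m : ℕ, 1 ≤ m → |(if m ∈ P k then (1 : ℝ) else 0)| ≤ C * (m : ℝ) ^ κ := by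
    refine ⟨1, one_pos, fun m hm => ?_⟩
    have h1 : (1 : ℝ) ≤ (m : ℝ) ^ κ := Real.one_le_rpow (by exact_mod_cast hm) hκ.le
    split_ifs <;> simp <;> linarith
  obtain ⟨N0, hN0⟩ := hlaw α hα hαE k hgrow
  have e1 : ∀ X : ℕ, (((Ioc 0 X).filter (fun t => t ∈ P k)).card : ℝ) = ∑ t ∈ Ioc 0 X, (if t ∈ P k then (1 : ℝ) else 0) := by
    intro X
    rw [Finset.sum_boole]
  have e2 : ∀ N : ℕ, (((Icc 1 N).filter (fun n : ℕ => ⌊α * (n : ℝ) ^ c⌋₊ ∈ P k)).card : ℝ) =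
      ∑ n ∈ Icc 1 N, (fun t : ℕ => if t ∈ P k then (1 : ℝ) else 0) ⌊α * (n : ℝ) ^ c⌋₊ := by
    intro N
    simp only
    rw [Finset.sum_boole]
  rintro ⟨X0, hX0⟩
  simp only [e1] at hX0
  obtain ⟨K, hK, N1, hN1⟩ := seq_rate hα hc (fun t : ℕ => if t ∈ P k then (1 : ℝ) else 0)
    (fun t => by split_ifs <;> norm_num) (fun t => by split_ifs <;> norm_num) φ hφ0 hφ X0 hX0 N0 hN0
  refine ⟨K, hK, N1, fun N hN => ?_⟩
  rw [e2]
  exact hN1 N hN

/-- sums of three power savings -/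
lemma three_pow {κ η K C : ℝ} (hκ : 0 < κ) (hη : 0 < η) :
    ∃ δ : ℝ, 0 < δ ∧ δ < 1 ∧ ∃ N1 : ℕ, ∀ N : ℕ, N1 ≤ N →
      C * (Nat.sqrt N + 1 : ℝ) ^ (-η) * N + K * (N : ℝ) ^ ((1 : ℝ) / 2) + (N : ℝ) ^ (1 - κ) ≤ (N : ℝ) ^ (1 - δ) := by
  set δ0 : ℝ := min κ (min (η / 2) (1 / 2)) with hδ0
  have h0 : 0 < δ0 := by
    rw [hδ0]
    positivity
  have hk : δ0 ≤ κ := min_le_left _ _
  have he : δ0 ≤ η / 2 := (min_le_right _ _).trans (min_le_left _ _)
  have hh : δ0 ≤ 1 / 2 := (min_le_right _ _).trans (min_le_right _ _)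
  refine ⟨δ0 / 2, by positivity, by linarith, ?_⟩
  have ht : Tendsto (fun N : ℕ => (N : ℝ) ^ (δ0 / 2)) atTop atTop :=
    (tendsto_rpow_atTop (by positivity)).comp tendsto_natCast_atTop_atTop
  obtain ⟨M, hM⟩ := (ht.eventually (eventually_ge_atTop (|C| + |K| + 1))).exists_forall_of_atTop
  refine ⟨max M 1, fun N hN => ?_⟩
  have h1 := hM N ((le_max_left _ _).trans hN)
  have hN1 : (1 : ℝ) ≤ N := by exact_mod_cast (le_max_right M 1).trans hN
  have hNp : (0 : ℝ) < N := by linarith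
  have hs : (N : ℝ) ^ ((1 : ℝ) / 2) ≤ (Nat.sqrt N + 1 : ℝ) := by
    have h2 : (N : ℝ) ≤ ((Nat.sqrt N + 1 : ℕ) : ℝ) ^ 2 := by
      have := (Nat.lt_succ_sqrt' N).le
      exact_mod_cast this
    rw [← Real.sqrt_eq_rpow]
    rw [Real.sqrt_le_left (by positivity)]
    push_cast at h2
    exact h2
  have a1 : (Nat.sqrt N + 1 : ℝ) ^ (-η) ≤ (N : ℝ) ^ (-δ0) := by
    calc (Nat.sqrt N + 1 : ℝ) ^ (-η) ≤ ((N : ℝ) ^ ((1 : ℝ) / 2)) ^ (-η) :=
          Real.rpow_le_rpow_of_nonpos (by positivity) hs (by linarith)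
      _ = (N : ℝ) ^ (-(η / 2)) := by
          rw [← Real.rpow_mul (Nat.cast_nonneg _)]
          congr 1
          ring
      _ ≤ (N : ℝ) ^ (-δ0) := Real.rpow_le_rpow_of_exponent_le hN1 (by linarith)
  have e : (N : ℝ) ^ (-δ0) * N = (N : ℝ) ^ (1 - δ0) := by
    rw [← Real.rpow_add_one hNp.ne']
    congr 1
    ring
  have a2 : C * (Nat.sqrt N + 1 : ℝ) ^ (-η) * N ≤ |C| * (N : ℝ) ^ (1 - δ0) := by
    calc C * (Nat.sqrt N + 1 : ℝ) ^ (-η) * N ≤ |C| * (N : ℝ) ^ (-δ0) * N := by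
          apply mul_le_mul_of_nonneg_right _ hNp.le
          exact mul_le_mul (le_abs_self C) a1 (by positivity) (abs_nonneg _)
      _ = |C| * (N : ℝ) ^ (1 - δ0) := by rw [mul_assoc, e]
  have a3 : K * (N : ℝ) ^ ((1 : ℝ) / 2) ≤ |K| * (N : ℝ) ^ (1 - δ0) :=
    mul_le_mul (le_abs_self K) (Real.rpow_le_rpow_of_exponent_le hN1 (by linarith)) (by positivity) (abs_nonneg _)
  have a4 : (N : ℝ) ^ (1 - κ) ≤ (N : ℝ) ^ (1 - δ0) := Real.rpow_le_rpow_of_exponent_le hN1 (by linarith)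
  have e2 : (N : ℝ) ^ (1 - δ0 / 2) = (N : ℝ) ^ (δ0 / 2) * (N : ℝ) ^ (1 - δ0) := by
    rw [← Real.rpow_add hNp]
    congr 1
    ring
  rw [e2]
  have h5 : 0 ≤ (N : ℝ) ^ (1 - δ0) := by positivity
  nlinarith

open Classical in
/-- **Sets with a power saving along the sequence.** -/
theorem sets_pow (c : ℝ) (hc : 1 < c) {ι : Type} [Countable ι] (P : ι → Set ℕ) :
    ∃ E : Set ℝ, dimH E < 1 ∧ ∀ α : ℝ, 0 < α → α ∉ E → ∀ k : ι, ∀ η C : ℝ, 0 < η →
      (∃ X0 : ℕ, ∀ X : ℕ, X0 ≤ X → (((Ioc 0 X).filter (fun t => t ∈ P k)).card : ℝ) ≤ C * (X : ℝ) ^ (1 - η)) →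
      ∃ δ : ℝ, 0 < δ ∧ δ < 1 ∧ ∃ N0 : ℕ, ∀ N : ℕ, N0 ≤ N →
        (((Icc 1 N).filter (fun n : ℕ => ⌊α * (n : ℝ) ^ c⌋₊ ∈ P k)).card : ℝ) ≤ (N : ℝ) ^ (1 - δ) := by
  obtain ⟨κ, hκ, hκ1, E, hE, h⟩ := sets_rate c hc P
  refine ⟨E, hE, fun α hα hαE k η C hη => ?_⟩
  rintro ⟨X0, hX0⟩
  obtain ⟨K, hK, N1, hN1⟩ := h α hα hαE k (fun X => (|C| * 2 ^ η) * ((X : ℝ) + 1) ^ (-η)) (fun X => by positivity)
    (by
      intro X Y hXY
      simp only
      apply mul_le_mul_of_nonneg_left _ (by positivity)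
      apply Real.rpow_le_rpow_of_nonpos (by positivity) _ (by linarith)
      have : (X : ℝ) ≤ Y := by exact_mod_cast hXY
      linarith)
    ⟨max X0 1, fun X hX => by
      have hX1 : (1 : ℝ) ≤ X := by exact_mod_cast (le_max_right X0 1).trans hX
      refine (hX0 X ((le_max_left _ _).trans hX)).trans ?_
      have e : (X : ℝ) ^ (1 - η) = (X : ℝ) ^ (-η) * X := by
        rw [← Real.rpow_add_one (by linarith)]
        congr 1
        ring
      have h1 : (X : ℝ) ^ (-η) ≤ 2 ^ η * ((X : ℝ) + 1) ^ (-η) := by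
        have h2 : (2 * (X : ℝ)) ^ (-η) ≤ ((X : ℝ) + 1) ^ (-η) :=
          Real.rpow_le_rpow_of_nonpos (by positivity) (by linarith) (by linarith)
        rw [Real.mul_rpow (by norm_num) (by linarith)] at h2
        calc (X : ℝ) ^ (-η) = 2 ^ η * (2 ^ (-η) * (X : ℝ) ^ (-η)) := by
              rw [← mul_assoc, ← Real.rpow_add (by norm_num)]
              simp
          _ ≤ 2 ^ η * ((X : ℝ) + 1) ^ (-η) := mul_le_mul_of_nonneg_left h2 (by positivity)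
      rw [e]
      calc C * ((X : ℝ) ^ (-η) * X) ≤ |C| * ((X : ℝ) ^ (-η) * X) :=
            mul_le_mul_of_nonneg_right (le_abs_self C) (by positivity)
        _ ≤ |C| * ((2 ^ η * ((X : ℝ) + 1) ^ (-η)) * X) := by
            apply mul_le_mul_of_nonneg_left _ (abs_nonneg _)
            exact mul_le_mul_of_nonneg_right h1 (by linarith)
        _ = |C| * 2 ^ η * ((X : ℝ) + 1) ^ (-η) * X := by ring⟩
  obtain ⟨δ, hδ, hδ1, N2, hN2⟩ := three_pow (κ := κ) (η := η) (K := K) (C := |C| * 2 ^ η) hκ hη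
  exact ⟨δ, hδ, hδ1, max N1 N2, fun N hN => (hN1 N ((le_max_left _ _).trans hN)).trans (hN2 N ((le_max_right _ _).trans hN))⟩

open Classical in
/-- **Sets with a saving of a power of the logarithm along the sequence.** -/
theorem sets_lpow (c : ℝ) (hc : 1 < c) {ι : Type} [Countable ι] (P : ι → Set ℕ) :
    ∃ E : Set ℝ, dimH E < 1 ∧ ∀ α : ℝ, 0 < α → α ∉ E → ∀ k : ι, ∀ U C : ℝ, 0 ≤ U → 0 ≤ C →
      (∃ X0 : ℕ, ∀ X : ℕ, X0 ≤ X → (((Ioc 0 X).filter (fun t => t ∈ P k)).card : ℝ) ≤ C * X / Real.log X ^ U) →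
      ∃ C' : ℝ, 0 < C' ∧ ∃ N0 : ℕ, ∀ N : ℕ, N0 ≤ N →
        (((Icc 1 N).filter (fun n : ℕ => ⌊α * (n : ℝ) ^ c⌋₊ ∈ P k)).card : ℝ) ≤ C' * N / Real.log N ^ U := by
  obtain ⟨κ, hκ, hκ1, E, hE, h⟩ := sets_rate c hc P
  refine ⟨E, hE, fun α hα hαE k U C hU hC => ?_⟩
  rintro ⟨X0, hX0⟩
  have hl3 : ∀ X : ℕ, 1 ≤ Real.log ((X : ℝ) + 3) := by
    intro X
    have h3 : (3 : ℝ) ≤ (X : ℝ) + 3 := by
      have : (0 : ℝ) ≤ X := Nat.cast_nonneg _
      linarith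
    rw [Real.le_log_iff_exp_le (by linarith)]
    linarith [Real.exp_one_lt_d9]
  obtain ⟨K, hK, N1, hN1⟩ := h α hα hαE k (fun X => (C * 2 ^ U) * Real.log ((X : ℝ) + 3) ^ (-U)) (fun X => by
      have := hl3 X
      positivity)
    (by
      intro X Y hXY
      simp only
      apply mul_le_mul_of_nonneg_left _ (by positivity)
      have h1 := hl3 X
      apply Real.rpow_le_rpow_of_nonpos (by linarith) _ (by linarith)
      have : (X : ℝ) ≤ Y := by exact_mod_cast hXY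
      exact Real.log_le_log (by positivity) (by linarith))
    ⟨max X0 3, fun X hX => by
      have hX3 : 3 ≤ X := (le_max_right X0 3).trans hX
      have hX1 : (3 : ℝ) ≤ X := by exact_mod_cast hX3
      refine (hX0 X ((le_max_left _ _).trans hX)).trans ?_
      have hl := one_le_log3 hX3
      have h1 : Real.log ((X : ℝ) + 3) ≤ 2 * Real.log X := by
        have h2 : (X : ℝ) + 3 ≤ (X : ℝ) ^ 2 := by nlinarith
        have h3 := Real.log_le_log (by positivity) h2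
        rw [Real.log_pow] at h3
        exact_mod_cast h3
      have h2 : (2 * Real.log X) ^ (-U) ≤ Real.log ((X : ℝ) + 3) ^ (-U) :=
        Real.rpow_le_rpow_of_nonpos (by linarith [hl3 X]) h1 (by linarith)
      have h3 : Real.log X ^ (-U) ≤ 2 ^ U * Real.log ((X : ℝ) + 3) ^ (-U) := by
        rw [Real.mul_rpow (by norm_num) (by linarith)] at h2
        calc Real.log X ^ (-U) = 2 ^ U * (2 ^ (-U) * Real.log X ^ (-U)) := by
              rw [← mul_assoc, ← Real.rpow_add (by norm_num)]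
              simp
          _ ≤ _ := mul_le_mul_of_nonneg_left h2 (by positivity)
      calc C * X / Real.log X ^ U = C * X * Real.log X ^ (-U) := by
            rw [Real.rpow_neg (by linarith)]
            rfl
        _ ≤ C * X * (2 ^ U * Real.log ((X : ℝ) + 3) ^ (-U)) := mul_le_mul_of_nonneg_left h3 (by positivity)
        _ = C * 2 ^ U * Real.log ((X : ℝ) + 3) ^ (-U) * X := by ring⟩
  -- the rate at the square root
  have hp1 : Tendsto (fun N : ℕ => Real.log N ^ U * (N : ℝ) ^ (-(1 / 2) : ℝ)) atTop (𝓝 0) := by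
    have := (isLittleO_log_rpow_rpow_atTop (r := U) (show (0 : ℝ) < 1 / 2 by norm_num)).tendsto_div_nhds_zero.comp
      tendsto_natCast_atTop_atTop
    refine this.congr fun N => ?_
    simp only [Function.comp]
    rw [Real.rpow_neg (Nat.cast_nonneg _)]
    rfl
  have hp2 : Tendsto (fun N : ℕ => Real.log N ^ U * (N : ℝ) ^ (-κ : ℝ)) atTop (𝓝 0) := by
    have := (isLittleO_log_rpow_rpow_atTop (r := U) hκ).tendsto_div_nhds_zero.comp
      tendsto_natCast_atTop_atTop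
    refine this.congr fun N => ?_
    simp only [Function.comp]
    rw [Real.rpow_neg (Nat.cast_nonneg _)]
    rfl
  obtain ⟨M1, hM1⟩ := (hp1.eventually (eventually_lt_nhds (show (0 : ℝ) < 1 by norm_num))).exists_forall_of_atTop
  obtain ⟨M2, hM2⟩ := (hp2.eventually (eventually_lt_nhds (show (0 : ℝ) < 1 by norm_num))).exists_forall_of_atTop
  refine ⟨C * 2 ^ U * 2 ^ U + K + 1, by positivity, max (max N1 3) (max M1 M2), fun N hN => ?_⟩
  have g1 : N1 ≤ N := ((le_max_left _ _).trans (le_max_left _ _)).trans hN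
  have g3 : 3 ≤ N := ((le_max_right _ _).trans (le_max_left _ _)).trans hN
  have g4 : M1 ≤ N := ((le_max_left _ _).trans (le_max_right _ _)).trans hN
  have g5 : M2 ≤ N := ((le_max_right _ _).trans (le_max_right _ _)).trans hN
  have hNp : (3 : ℝ) ≤ N := by exact_mod_cast g3
  have hl := one_le_log3 g3
  have hlU : 0 < Real.log N ^ U := by positivity
  refine (hN1 N g1).trans ?_
  rw [le_div_iff₀ hlU]
  have b1 : Real.log ((Nat.sqrt N : ℝ) + 3) ^ (-U) * Real.log N ^ U ≤ 2 ^ U := by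
    have h1 : Real.log N ≤ 2 * Real.log ((Nat.sqrt N : ℝ) + 3) := by
      have h2 : (N : ℝ) ≤ ((Nat.sqrt N : ℝ) + 3) ^ 2 := by
        have h3 := (Nat.lt_succ_sqrt' N).le
        have h4 : (N : ℝ) ≤ ((Nat.sqrt N + 1 : ℕ) : ℝ) ^ 2 := by exact_mod_cast h3
        push_cast at h4
        have : (0 : ℝ) ≤ Nat.sqrt N := Nat.cast_nonneg _
        nlinarith
      have h3 := Real.log_le_log (by linarith) h2
      rw [Real.log_pow] at h3
      exact_mod_cast h3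
    have h2 := hl3 (Nat.sqrt N)
    have h3 : Real.log N ^ U ≤ (2 * Real.log ((Nat.sqrt N : ℝ) + 3)) ^ U := Real.rpow_le_rpow (by linarith) h1 hU
    calc Real.log ((Nat.sqrt N : ℝ) + 3) ^ (-U) * Real.log N ^ U
        ≤ Real.log ((Nat.sqrt N : ℝ) + 3) ^ (-U) * (2 * Real.log ((Nat.sqrt N : ℝ) + 3)) ^ U :=
          mul_le_mul_of_nonneg_left h3 (by positivity)
      _ = 2 ^ U * (Real.log ((Nat.sqrt N : ℝ) + 3) ^ (-U) * Real.log ((Nat.sqrt N : ℝ) + 3) ^ U) := by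
          rw [Real.mul_rpow (by norm_num) (by linarith)]
          ring
      _ = 2 ^ U := by
          rw [← Real.rpow_add (by linarith)]
          simp
  have b2 : (N : ℝ) ^ ((1 : ℝ) / 2) * Real.log N ^ U ≤ N := by
    have h1 := (hM1 N g4).le
    calc (N : ℝ) ^ ((1 : ℝ) / 2) * Real.log N ^ U = (Real.log N ^ U * (N : ℝ) ^ (-(1 / 2) : ℝ)) * N := by
          have : (N : ℝ) ^ ((1 : ℝ) / 2) = (N : ℝ) ^ (-(1 / 2) : ℝ) * N := by
            rw [← Real.rpow_add_one (by linarith)]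
            congr 1
            norm_num
          rw [this]
          ring
      _ ≤ 1 * N := mul_le_mul_of_nonneg_right h1 (by linarith)
      _ = N := one_mul _
  have b3 : (N : ℝ) ^ (1 - κ) * Real.log N ^ U ≤ N := by
    have h1 := (hM2 N g5).le
    calc (N : ℝ) ^ (1 - κ) * Real.log N ^ U = (Real.log N ^ U * (N : ℝ) ^ (-κ : ℝ)) * N := by
          have : (N : ℝ) ^ (1 - κ) = (N : ℝ) ^ (-κ : ℝ) * N := by
            rw [← Real.rpow_add_one (by linarith)]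
            congr 1
            ring
          rw [this]
          ring
      _ ≤ 1 * N := mul_le_mul_of_nonneg_right h1 (by linarith)
      _ = N := one_mul _
  have b4 : C * 2 ^ U * Real.log ((Nat.sqrt N : ℝ) + 3) ^ (-U) * N * Real.log N ^ U ≤ C * 2 ^ U * 2 ^ U * N := by
    calc C * 2 ^ U * Real.log ((Nat.sqrt N : ℝ) + 3) ^ (-U) * N * Real.log N ^ U
        = (C * 2 ^ U * N) * (Real.log ((Nat.sqrt N : ℝ) + 3) ^ (-U) * Real.log N ^ U) := by ring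
      _ ≤ (C * 2 ^ U * N) * 2 ^ U := mul_le_mul_of_nonneg_left b1 (by positivity)
      _ = _ := by ring
  have b5 : K * (N : ℝ) ^ ((1 : ℝ) / 2) * Real.log N ^ U ≤ K * N := by
    rw [mul_assoc]
    exact mul_le_mul_of_nonneg_left b2 hK.le
  nlinarith

end Pool.Agent.Y854.GM
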