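import Mathlib

/-! Dyadic decomposition for sets of integers: counts on the dyadic blocks give a count up to `X`. -/

set_option autoImplicit false

open Finset

namespace Pool.Agent.Y854.GM

/-- counts on dyadic blocks give a count up to `X` -/
theorem dyadic (S : Set ℤ) (Z : ℕ → Set ℤ) (s : ℝ) (hs : 0 ≤ s) (N₁ : ℕ)
    (hZ : ∀ N : ℕ, N₁ ≤ N → ((Z N).ncard : ℝ) ≤ (N : ℝ) ^ s)
    (hZf : ∀ N : ℕ, (Z N).Finite)
    (hSZ : ∀ D ∈ S, ∀ N : ℕ, N₁ ≤ N → D.natAbs ≤ N → N < 2 * D.natAbs → D ∈ Z N) (ε : ℝ) (hε : 0 < ε) :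
    ∃ K : ℝ, ∀ X : ℝ, 1 ≤ X → {D : ℤ | D ∈ S ∧ |(D : ℝ)| ≤ X}.Finite ∧
      ({D : ℤ | D ∈ S ∧ |(D : ℝ)| ≤ X}.ncard : ℝ) ≤ K * X ^ (s + ε) := by
  refine ⟨(2 * N₁ + 1) + (2 + 2 / ε) * 2 ^ s, fun X hX => ?_⟩
  have hX0 : 0 < X := by linarith
  have hfin : {D : ℤ | D ∈ S ∧ |(D : ℝ)| ≤ X}.Finite := by
    refine (Set.finite_Icc (-⌊X⌋) ⌊X⌋).subset ?_
    rintro k ⟨-, h1⟩
    rw [abs_le] at h1
    rw [Set.mem_Icc]
    constructor
    · rw [neg_le]
      apply Int.le_floor.2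
      push_cast
      linarith [h1.1]
    · exact Int.le_floor.2 h1.2
  refine ⟨hfin, ?_⟩
  set M : ℕ := ⌊X⌋₊ with hM
  have hM1 : 1 ≤ M := Nat.le_floor (by exact_mod_cast hX)
  have hMX : (M : ℝ) ≤ X := Nat.floor_le hX0.le
  set J : ℕ := Nat.clog 2 M with hJ
  set I : Finset ℕ := (range (J + 1)).filter (fun j => N₁ ≤ 2 ^ j) with hI
  have hsub : {D : ℤ | D ∈ S ∧ |(D : ℝ)| ≤ X} ⊆
      ((Finset.Icc (-(N₁ : ℤ)) N₁ : Finset ℤ) : Set ℤ) ∪ ⋃ j ∈ I, Z (2 ^ j) := by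
    rintro D ⟨hD, hDX⟩
    have hDM : D.natAbs ≤ M := by
      apply Nat.le_floor
      have : ((D.natAbs : ℕ) : ℝ) = |(D : ℝ)| := by
        rw [← Int.cast_abs, Int.abs_eq_natAbs]
        simp
      rw [this]
      exact hDX
    by_cases h : D.natAbs ≤ N₁
    · left
      rw [mem_coe, Finset.mem_Icc]
      omega
    · right
      push Not at h
      have h1 : D.natAbs ≤ 2 ^ Nat.clog 2 D.natAbs := Nat.le_pow_clog (by norm_num) _
      by_cases h0 : D.natAbs ≤ 1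
      · have h00 : N₁ = 0 := by omega
        have h01 : D.natAbs = 1 := by omega
        rw [Set.mem_iUnion₂]
        refine ⟨0, ?_, hSZ D hD (2 ^ 0) (by omega) (by omega) (by omega)⟩
        rw [hI, mem_filter, mem_range]
        exact ⟨by omega, by omega⟩
      · have h2 : 2 ^ (Nat.clog 2 D.natAbs).pred < D.natAbs := Nat.pow_pred_clog_lt_self (by norm_num) (by omega)
        have h3 : 1 ≤ Nat.clog 2 D.natAbs := Nat.clog_pos (by norm_num) (by omega)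
        have h4 : 2 ^ Nat.clog 2 D.natAbs = 2 * 2 ^ (Nat.clog 2 D.natAbs).pred := by
          rw [← pow_succ', Nat.pred_eq_sub_one, Nat.sub_add_cancel h3]
        rw [Set.mem_iUnion₂]
        refine ⟨Nat.clog 2 D.natAbs, ?_, hSZ D hD _ (by omega) h1 (by omega)⟩
        rw [hI, mem_filter, mem_range]
        exact ⟨Nat.lt_succ_of_le (Nat.clog_mono_right 2 hDM), by omega⟩
  have hfU : (⋃ j ∈ I, Z (2 ^ j)).Finite := Set.Finite.biUnion (Finset.finite_toSet I) (fun j _ => hZf _)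
  have h1 : ({D : ℤ | D ∈ S ∧ |(D : ℝ)| ≤ X}.ncard : ℝ) ≤
      (((Finset.Icc (-(N₁ : ℤ)) N₁ : Finset ℤ) : Set ℤ).ncard : ℝ) + ((⋃ j ∈ I, Z (2 ^ j)).ncard : ℝ) := by
    have h2 := (Set.ncard_le_ncard hsub ((Finset.finite_toSet _).union hfU)).trans (Set.ncard_union_le _ _)
    exact_mod_cast h2
  have h2 : (((Finset.Icc (-(N₁ : ℤ)) N₁ : Finset ℤ) : Set ℤ).ncard : ℝ) = 2 * N₁ + 1 := by
    rw [Set.ncard_coe_finset, Int.card_Icc]
    have h3 : (((N₁ : ℤ) + 1 - -(N₁ : ℤ)).toNat : ℤ) = 2 * N₁ + 1 := by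
      rw [Int.toNat_of_nonneg (by omega)]
      ring
    have h4 : ((((N₁ : ℤ) + 1 - -(N₁ : ℤ)).toNat : ℕ) : ℝ) = 2 * (N₁ : ℝ) + 1 := by exact_mod_cast h3
    exact h4
  have h2J : ((2 ^ J : ℕ) : ℝ) ≤ 2 * X := by
    by_cases hM2 : M ≤ 1
    · have : J = 0 := by
        rw [hJ]
        exact Nat.clog_of_right_le_one hM2 2
      rw [this]
      norm_num
      linarith
    · have h5 : 2 ^ J.pred < M := Nat.pow_pred_clog_lt_self (by norm_num) (by omega)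
      have h6 : 1 ≤ J := Nat.clog_pos (by norm_num) (by omega)
      have h7 : 2 ^ J = 2 * 2 ^ J.pred := by
        rw [← pow_succ', Nat.pred_eq_sub_one, Nat.sub_add_cancel h6]
      have h8 : 2 ^ J ≤ 2 * M := by omega
      have h9 : ((2 ^ J : ℕ) : ℝ) ≤ ((2 * M : ℕ) : ℝ) := by exact_mod_cast h8
      push_cast at h9 ⊢
      linarith
  have hcl : ∀ j ∈ I, ((Z (2 ^ j)).ncard : ℝ) ≤ 2 ^ s * X ^ s := by
    intro j hj
    rw [hI, mem_filter, mem_range] at hj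
    calc ((Z (2 ^ j)).ncard : ℝ) ≤ ((2 ^ j : ℕ) : ℝ) ^ s := hZ _ hj.2
      _ ≤ ((2 ^ J : ℕ) : ℝ) ^ s := by
          apply Real.rpow_le_rpow (Nat.cast_nonneg _) _ hs
          exact_mod_cast Nat.pow_le_pow_right (by norm_num) (Nat.lt_succ_iff.1 hj.1)
      _ ≤ (2 * X) ^ s := Real.rpow_le_rpow (Nat.cast_nonneg _) h2J hs
      _ = 2 ^ s * X ^ s := Real.mul_rpow (by norm_num) hX0.le
  have h3 : ((⋃ j ∈ I, Z (2 ^ j)).ncard : ℝ) ≤ (J + 1) * (2 ^ s * X ^ s) := by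
    have h4 : (⋃ j ∈ I, Z (2 ^ j)).ncard ≤ ∑ j ∈ I, (Z (2 ^ j)).ncard := by
      classical
      have h5 : ∀ I' : Finset ℕ, (⋃ j ∈ I', Z (2 ^ j)).ncard ≤ ∑ j ∈ I', (Z (2 ^ j)).ncard := by
        intro I'
        induction I' using Finset.induction_on with
        | empty => simp
        | insert a t ha ih =>
          rw [Finset.set_biUnion_insert, Finset.sum_insert ha]
          exact (Set.ncard_union_le _ _).trans (by omega)
      exact h5 I
    calc ((⋃ j ∈ I, Z (2 ^ j)).ncard : ℝ) ≤ ((∑ j ∈ I, (Z (2 ^ j)).ncard : ℕ) : ℝ) := by exact_mod_cast h4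
      _ = ∑ j ∈ I, ((Z (2 ^ j)).ncard : ℝ) := by push_cast; rfl
      _ ≤ ∑ _j ∈ I, 2 ^ s * X ^ s := Finset.sum_le_sum hcl
      _ = (I.card : ℝ) * (2 ^ s * X ^ s) := by rw [Finset.sum_const, nsmul_eq_mul]
      _ ≤ (J + 1) * (2 ^ s * X ^ s) := by
          apply mul_le_mul_of_nonneg_right _ (by positivity)
          have : I.card ≤ J + 1 := (card_filter_le _ _).trans (by rw [card_range])
          exact_mod_cast this
  have hXε : 1 ≤ X ^ ε := Real.one_le_rpow hX hε.le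
  have hJlog : (J : ℝ) + 1 ≤ (2 + 2 / ε) * X ^ ε := by
    have h4 : Real.log ((2 ^ J : ℕ) : ℝ) ≤ Real.log (2 * X) := Real.log_le_log (by positivity) h2J
    have h5 : Real.log ((2 ^ J : ℕ) : ℝ) = J * Real.log 2 := by
      push_cast
      rw [Real.log_pow]
    rw [h5, Real.log_mul (by norm_num) hX0.ne'] at h4
    have hl2 : 0.6931471803 < Real.log 2 := Real.log_two_gt_d9
    have hlX : Real.log X ≤ X ^ ε / ε := Real.log_le_rpow_div hX0.le hε
    have hlX0 : 0 ≤ Real.log X := Real.log_nonneg hX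
    have hJ0 : (0 : ℝ) ≤ J := Nat.cast_nonneg _
    have h6 : (J : ℝ) ≤ 1 + 2 * Real.log X := by
      by_contra hcon
      push Not at hcon
      have h7 : (1 + 2 * Real.log X) * Real.log 2 < J * Real.log 2 := mul_lt_mul_of_pos_right hcon (by linarith)
      nlinarith
    calc (J : ℝ) + 1 ≤ 2 + 2 * Real.log X := by linarith
      _ ≤ 2 * X ^ ε + 2 * (X ^ ε / ε) := by linarith
      _ = (2 + 2 / ε) * X ^ ε := by ring
  have h4 : (1 : ℝ) ≤ X ^ (s + ε) := Real.one_le_rpow hX (by positivity)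
  calc ({D : ℤ | D ∈ S ∧ |(D : ℝ)| ≤ X}.ncard : ℝ)
      ≤ (2 * N₁ + 1) + (J + 1) * (2 ^ s * X ^ s) := by linarith
    _ ≤ (2 * N₁ + 1) * X ^ (s + ε) + ((2 + 2 / ε) * X ^ ε) * (2 ^ s * X ^ s) := by
        apply add_le_add
        · exact le_mul_of_one_le_right (by positivity) h4
        · exact mul_le_mul_of_nonneg_right hJlog (by positivity)
    _ = ((2 * N₁ + 1) + (2 + 2 / ε) * 2 ^ s) * X ^ (s + ε) := by
        rw [Real.rpow_add hX0]
        ring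

end Pool.Agent.Y854.GM
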