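import Pool.Agent.Y854.GM.Win
import Pool.Agent.Y854.GM.WinV

/-!
# Windows for families of sets with few elements
-/

set_option autoImplicit false

open Filter Topology
open scoped ENNReal

namespace Pool.Agent.Y854.GM

/-- a set with few elements in all `(X / 2, X]`, `X ≥ M`, and none of height below `M` has few elements up to `X` -/
theorem dyadic_sum_from {T : Type} (h : T → ℝ) (S : Set T) (M : ℝ) (hM : 4 ≤ M) (hS4 : ∀ x ∈ S, M ≤ h x) {s C : ℝ} (hs : 0 < s) (hC : 0 ≤ C)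
    (hd : ∀ X : ℝ, M ≤ X → {x | x ∈ S ∧ X / 2 < h x ∧ h x ≤ X}.Finite ∧
      ({x | x ∈ S ∧ X / 2 < h x ∧ h x ≤ X}.ncard : ℝ) ≤ C * X ^ s) :
    ∃ C' : ℝ, 0 ≤ C' ∧ ∀ X : ℝ, 1 ≤ X → {x | x ∈ S ∧ h x ≤ X}.Finite ∧
      ({x | x ∈ S ∧ h x ≤ X}.ncard : ℝ) ≤ C' * X ^ s := by
  have hrs : (1 / 2 : ℝ) ^ s < 1 := Real.rpow_lt_one (by norm_num) (by norm_num) hs
  have h1 : 0 < 1 - (1 / 2 : ℝ) ^ s := by linarith
  set C' : ℝ := C / (1 - (1 / 2 : ℝ) ^ s) with hC'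
  have hC0 : 0 ≤ C' := by positivity
  have hsmall : ∀ X : ℝ, 1 ≤ X → X < M → {x | x ∈ S ∧ h x ≤ X}.Finite ∧
      ({x | x ∈ S ∧ h x ≤ X}.ncard : ℝ) ≤ C' * X ^ s := by
    intro X hX hX4
    have h2 : {x | x ∈ S ∧ h x ≤ X} = ∅ := by
      rw [Set.eq_empty_iff_forall_notMem]
      rintro x ⟨h3, h4⟩
      have := hS4 x h3
      linarith
    rw [h2]
    refine ⟨Set.finite_empty, ?_⟩
    rw [Set.ncard_empty, Nat.cast_zero]
    positivity
  have key : ∀ L : ℕ, ∀ X : ℝ, 1 ≤ X → X < M * 2 ^ L → {x | x ∈ S ∧ h x ≤ X}.Finite ∧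
      ({x | x ∈ S ∧ h x ≤ X}.ncard : ℝ) ≤ C' * X ^ s := by
    intro L
    induction L with
    | zero =>
      intro X hX hXL
      exact hsmall X hX (by simpa using hXL)
    | succ L ih =>
      intro X hX hXL
      rcases lt_or_ge X M with hX4 | hX4
      · exact hsmall X hX hX4
      · have hX0 : 0 < X := by linarith
        obtain ⟨e1, e2⟩ := ih (X / 2) (by linarith) (by
          rw [pow_succ] at hXL
          linarith)
        obtain ⟨f1, f2⟩ := hd X hX4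
        have hsplit : {x | x ∈ S ∧ h x ≤ X} ⊆ {x | x ∈ S ∧ h x ≤ X / 2} ∪ {x | x ∈ S ∧ X / 2 < h x ∧ h x ≤ X} := by
          rintro x ⟨h3, h4⟩
          rcases le_or_gt (h x) (X / 2) with h5 | h5
          · exact Or.inl ⟨h3, h5⟩
          · exact Or.inr ⟨h3, h5, h4⟩
        refine ⟨(e1.union f1).subset hsplit, ?_⟩
        have h6 : C = C' * (1 - (1 / 2 : ℝ) ^ s) := by
          rw [hC']
          field_simp
        have h7 : (X / 2) ^ s = (1 / 2 : ℝ) ^ s * X ^ s := by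
          rw [← Real.mul_rpow (by norm_num) hX0.le]
          congr 1
          ring
        calc ({x | x ∈ S ∧ h x ≤ X}.ncard : ℝ)
            ≤ ({x | x ∈ S ∧ h x ≤ X / 2}.ncard : ℝ) + ({x | x ∈ S ∧ X / 2 < h x ∧ h x ≤ X}.ncard : ℝ) := by
              exact_mod_cast (Set.ncard_le_ncard hsplit (e1.union f1)).trans (Set.ncard_union_le _ _)
          _ ≤ C' * (X / 2) ^ s + C * X ^ s := add_le_add e2 f2
          _ = C' * ((1 / 2 : ℝ) ^ s * X ^ s) + C' * (1 - (1 / 2 : ℝ) ^ s) * X ^ s := by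
              rw [h7]
              nth_rewrite 1 [h6]
              rfl
          _ = C' * X ^ s := by ring
  refine ⟨C', hC0, fun X hX => ?_⟩
  obtain ⟨L, hL⟩ := pow_unbounded_of_one_lt X (show (1 : ℝ) < 2 by norm_num)
  exact key L X hX (by
    have : (0 : ℝ) < 2 ^ L := by positivity
    nlinarith)

/-- windows for a family of sets `G B N` with at most `C N ^ ε` members -/
theorem fam_windows_from {T : Type} (h : T → ℝ) (G : ℝ → ℝ → Set T)
    (hcount : ∀ ε : ℝ, 0 < ε → ∃ B C N₀ : ℝ, ∀ N : ℝ, N₀ ≤ N → (G B N).Finite ∧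
      ((G B N).ncard : ℝ) ≤ C * N ^ ε)
    (hmono : ∀ (B B' n N : ℝ) (x : T), B ≤ B' → 0 ≤ B' → 1 ≤ n → n ≤ N → N ≤ n ^ 2 → x ∈ G (2 * B') n → x ∈ G B N)
    {v : ℕ → ℝ} {τ θ : ℝ} (hv : ∀ k, 1 ≤ v k) (hτ : 0 ≤ τ) (hE : ExpLe v τ) (hθ1 : θ < 1) :
    ∃ E : Set ℝ, dimH E ≤ ENNReal.ofReal (τ / (1 - θ)) ∧ ∀ α : ℝ, 0 < α → α ∉ E → ∃ (B : ℝ) (k₀ : ℕ),
      ∀ k : ℕ, k₀ ≤ k → ∀ x : T, |h x - α * v k| ≤ (v k) ^ θ → x ∉ G B (h x) := by
  have hvp : ∀ n, 0 < v n := fun n => lt_of_lt_of_le one_pos (hv n)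
  have h1θ : 0 < 1 - θ := by linarith
  have htv : Tendsto v atTop atTop := tendsto_of_expLe hvp hτ hE
  have hall : ∀ j : ℕ, ∃ (B M : ℝ) (E : Set ℝ), dimH E ≤ ENNReal.ofReal ((1 / ((j : ℝ) + 1) + τ) / (1 - θ)) ∧
      ∀ α : ℝ, 0 < α → α ∉ E → ∃ k₀ : ℕ, ∀ k : ℕ, k₀ ≤ k → ∀ x ∈ {x : T | M ≤ h x ∧ x ∈ G B (h x)},
        (v k) ^ θ < |h x - α * v k| := by
    intro j
    obtain ⟨B, C, N₀, hBC⟩ := hcount (1 / ((j : ℝ) + 1)) (by positivity)
    have hM4 : 4 ≤ max N₀ 4 := le_max_right _ _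
    obtain ⟨C', hC', h'⟩ := dyadic_sum_from h {x : T | max N₀ 4 ≤ h x ∧ x ∈ G (2 * max B 0) (h x)} (max N₀ 4) hM4
      (fun x hx => hx.1)
      (s := 1 / ((j : ℝ) + 1)) (C := max C 0) (by positivity) (le_max_right _ _) (fun X hX => by
        obtain ⟨h1, h2⟩ := hBC X ((le_max_left _ _).trans hX)
        have hX4 : 4 ≤ X := hM4.trans hX
        have hsub : {x | x ∈ {x : T | max N₀ 4 ≤ h x ∧ x ∈ G (2 * max B 0) (h x)} ∧ X / 2 < h x ∧ h x ≤ X} ⊆
            G B X := by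
          rintro x ⟨⟨h3, h4⟩, h5, h6⟩
          refine hmono B (max B 0) (h x) X x (le_max_left _ _) (le_max_right _ _) (by linarith) h6 ?_ h4
          nlinarith
        refine ⟨h1.subset hsub, ?_⟩
        calc _ ≤ ((G B X).ncard : ℝ) := Nat.cast_le.2 (Set.ncard_le_ncard hsub h1)
          _ ≤ C * X ^ (1 / ((j : ℝ) + 1)) := h2
          _ ≤ max C 0 * X ^ (1 / ((j : ℝ) + 1)) :=
              mul_le_mul_of_nonneg_right (le_max_left _ _) (Real.rpow_nonneg (by linarith) _))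
    obtain ⟨E, h3, h4⟩ := windows {x : T | max N₀ 4 ≤ h x ∧ x ∈ G (2 * max B 0) (h x)} h hv hτ hE
      (s := 1 / ((j : ℝ) + 1)) (by positivity) hθ1 (fun ε hε => by
        refine ⟨C', fun X hX => ⟨(h' X hX).1, (h' X hX).2.trans ?_⟩⟩
        apply mul_le_mul_of_nonneg_left _ hC'
        exact Real.rpow_le_rpow_of_exponent_le hX (by linarith))
    exact ⟨2 * max B 0, max N₀ 4, E, h3, h4⟩
  choose B M E h1 h2 using hall
  have hlim : Tendsto (fun m : ℕ => ENNReal.ofReal ((1 / ((m : ℝ) + 1) + τ) / (1 - θ))) atTop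
      (𝓝 (ENNReal.ofReal ((0 + τ) / (1 - θ)))) :=
    ENNReal.tendsto_ofReal ((tendsto_one_div_add_atTop_nhds_zero_nat.add_const τ).div_const (1 - θ))
  rw [zero_add] at hlim
  refine ⟨⋂ m, E m, ge_of_tendsto' hlim fun m => (dimH_mono (Set.iInter_subset _ m)).trans (h1 m),
    fun α hα hαE => ?_⟩
  rw [Set.mem_iInter] at hαE
  push Not at hαE
  obtain ⟨j, hj⟩ := hαE
  obtain ⟨k₀, hk⟩ := h2 j α hα hj
  -- for large `k` the heights in the window are at least `M j`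
  have hvθ : Tendsto (fun n => (v n) ^ (1 - θ)) atTop atTop := (tendsto_rpow_atTop h1θ).comp htv
  obtain ⟨k₁, hk₁⟩ := (hvθ.eventually (eventually_ge_atTop (2 / α))).exists_forall_of_atTop
  obtain ⟨k₂, hk₂⟩ := (htv.eventually (eventually_ge_atTop (2 * M j / α))).exists_forall_of_atTop
  refine ⟨B j, max k₀ (max k₁ k₂), fun k hk1 x hx hG => ?_⟩
  rw [max_le_iff, max_le_iff] at hk1
  have h7 := hk₁ k hk1.2.1
  have h8 := hk₂ k hk1.2.2
  have h9 : v k = (v k) ^ (1 - θ) * (v k) ^ θ := by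
    rw [← Real.rpow_add (hvp k)]
    rw [show 1 - θ + θ = 1 by ring, Real.rpow_one]
  have hvθ0 : 0 < (v k) ^ θ := Real.rpow_pos_of_pos (hvp k) θ
  have h10 : 2 * (v k) ^ θ ≤ α * v k := by
    calc 2 * (v k) ^ θ = α * (2 / α) * (v k) ^ θ := by field_simp
      _ ≤ α * (v k) ^ (1 - θ) * (v k) ^ θ :=
          mul_le_mul_of_nonneg_right (mul_le_mul_of_nonneg_left h7 hα.le) hvθ0.le
      _ = α * ((v k) ^ (1 - θ) * (v k) ^ θ) := by ring
      _ = α * v k := by rw [← h9]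
  have h11 : 2 * M j ≤ α * v k := by
    calc 2 * M j = α * (2 * M j / α) := by field_simp
      _ ≤ α * v k := mul_le_mul_of_nonneg_left h8 hα.le
  have h12 : M j ≤ h x := by
    have := (abs_le.1 hx).1
    linarith
  exact absurd hx (not_le.2 (hk k hk1.1 x ⟨h12, hG⟩))

end Pool.Agent.Y854.GM
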