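import Pool.Agent.Y854.GM.Mean2
import Pool.Agent.Y854.GM.Log

/-! Sets of logarithmic density of a countable family along the sequence; the primes. -/

set_option autoImplicit false

open Finset Filter Topology

namespace Pool.Agent.Y854.GM

open Pool.Agent.Y854.PS

open Classical in
/-- **Sets of logarithmic density along the sequence.** -/
theorem sets_log (c : ℝ) (hc : 1 < c) {ι : Type} [Countable ι] (P : ι → Set ℕ) :
    ∃ E : Set ℝ, dimH E < 1 ∧ ∀ α : ℝ, 0 < α → α ∉ E → ∀ k : ι, ∀ δ : ℝ,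
      (0 ≤ δ → (∃ X0 : ℕ, ∀ X : ℕ, X0 ≤ X → (((Ioc 0 X).filter (fun t => t ∈ P k)).card : ℝ) ≤ δ * X / Real.log X) →
        ∀ ε : ℝ, 0 < ε → ∃ N0 : ℕ, ∀ N : ℕ, N0 ≤ N →
          (((Icc 1 N).filter (fun n : ℕ => ⌊α * (n : ℝ) ^ c⌋₊ ∈ P k)).card : ℝ) ≤ (2 * δ + ε) * N / Real.log N) ∧
      (0 < δ → (∃ X0 : ℕ, ∀ X : ℕ, X0 ≤ X → δ * X / Real.log X ≤ (((Ioc 0 X).filter (fun t => t ∈ P k)).card : ℝ)) →
        ∃ κ1 : ℝ, 0 < κ1 ∧ ∃ N0 : ℕ, ∀ N : ℕ, N0 ≤ N →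
          κ1 * N / Real.log N ≤ (((Icc 1 N).filter (fun n : ℕ => ⌊α * (n : ℝ) ^ c⌋₊ ∈ P k)).card : ℝ)) := by
  obtain ⟨κ, hκ, hκ1, h⟩ := mean2 c hc
  obtain ⟨E, hE, hlaw⟩ := h (fun k t => if t ∈ P k then (1 : ℝ) else 0)
  refine ⟨E, hE, fun α hα hαE k δ => ?_⟩
  have hgrow : ∃ C : ℝ, 0 < C ∧ ∀ m : ℕ, 1 ≤ m → |(if m ∈ P k then (1 : ℝ) else 0)| ≤ C * (m : ℝ) ^ κ := by
    refine ⟨1, one_pos, fun m hm => ?_⟩
    have h1 : (1 : ℝ) ≤ (m : ℝ) ^ κ := Real.one_le_rpow (by exact_mod_cast hm) hκ.le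
    split_ifs <;> simp <;> linarith
  obtain ⟨N0, hN0⟩ := hlaw α hα hαE k hgrow
  have e1 : ∀ X : ℕ, (((Ioc 0 X).filter (fun t => t ∈ P k)).card : ℝ) = ∑ t ∈ Ioc 0 X, (if t ∈ P k then (1 : ℝ) else 0) := by
    intro X
    rw [Finset.sum_boole]
  have e2 : ∀ N : ℕ, (((Icc 1 N).filter (fun n : ℕ => ⌊α * (n : ℝ) ^ c⌋₊ ∈ P k)).card : ℝ) =
      ∑ n ∈ Icc 1 N, (fun t : ℕ => if t ∈ P k then (1 : ℝ) else 0) ⌊α * (n : ℝ) ^ c⌋₊ := by
    intro N
    simp only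
    rw [Finset.sum_boole]
  have hpos : ∀ t : ℕ, 0 ≤ (fun t : ℕ => if t ∈ P k then (1 : ℝ) else 0) t := by
    intro t
    simp only
    split_ifs <;> norm_num
  have hle : ∀ t : ℕ, (fun t : ℕ => if t ∈ P k then (1 : ℝ) else 0) t ≤ 1 := by
    intro t
    simp only
    split_ifs <;> norm_num
  constructor
  · rintro hδ ⟨X0, hX0⟩ ε hε
    simp only [e1] at hX0
    obtain ⟨N1, hN1⟩ := seq_upper_log hα hc hκ _ hpos zero_le_one hle hδ X0 hX0 N0 hN0 ε hε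
    refine ⟨N1, fun N hN => ?_⟩
    rw [e2]
    exact hN1 N hN
  · rintro hδ ⟨X0, hX0⟩
    simp only [e1] at hX0
    obtain ⟨κ1, hκ1, N1, hN1⟩ := seq_lower_log hα hc hκ _ hpos hδ X0 hX0 N0 hN0
    refine ⟨κ1, hκ1, N1, fun N hN => ?_⟩
    rw [e2]
    exact hN1 N hN

lemma primes_eq (X : ℕ) : ((Ioc 0 X).filter Nat.Prime).card = Nat.primeCounting X := by
  rw [Nat.primeCounting, Nat.primeCounting', Nat.count_eq_card_filter_range]
  congr 1
  ext p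
  rw [mem_filter, mem_filter, mem_Ioc, mem_range]
  constructor
  · rintro ⟨⟨h1, h2⟩, h3⟩; exact ⟨by omega, h3⟩
  · rintro ⟨h1, h3⟩; exact ⟨⟨h3.pos, by omega⟩, h3⟩

/-- there are at least `X / (2 log X)` primes up to `X` -/
lemma prime_low : ∃ X0 : ℕ, ∀ X : ℕ, X0 ≤ X → (1 / 2 : ℝ) * X / Real.log X ≤ (((Ioc 0 X).filter Nat.Prime).card : ℝ) := by
  have h1 := isLittleO_log_rpow_atTop (r := 1) one_pos
  have h2 := h1.bound (c := 1 / 20) (by norm_num)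
  obtain ⟨M, hM⟩ := (tendsto_natCast_atTop_atTop.eventually h2).exists_forall_of_atTop
  refine ⟨max M 20, fun X hX => ?_⟩
  have h3 := hM (X + 1) (((le_max_left _ _).trans hX).trans (Nat.le_succ X))
  have hX20 : 20 ≤ X := (le_max_right _ _).trans hX
  have hXp : (20 : ℝ) ≤ X := by exact_mod_cast hX20
  have hl := one_le_log3 (show 3 ≤ X by omega)
  rw [primes_eq]
  refine le_trans ?_ (Chebyshev.pi_ge X)
  apply div_le_div_of_nonneg_right _ (by linarith)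
  push_cast at h3
  rw [Real.rpow_one, Real.norm_of_nonneg (Real.log_nonneg (by linarith)), Real.norm_of_nonneg (by linarith)] at h3
  have h4 := Real.log_two_gt_d9
  nlinarith

/-- there are at most `2 X / log X` primes up to `X` -/
lemma prime_up : ∃ X0 : ℕ, ∀ X : ℕ, X0 ≤ X → (((Ioc 0 X).filter Nat.Prime).card : ℝ) ≤ 2 * X / Real.log X := by
  have h1 := Chebyshev.eventually_primeCounting_le (ε := 1 / 2) (by norm_num)
  obtain ⟨M, hM⟩ := (tendsto_natCast_atTop_atTop.eventually h1).exists_forall_of_atTop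
  refine ⟨max M 3, fun X hX => ?_⟩
  have h2 := hM X ((le_max_left _ _).trans hX)
  have hX3 : 3 ≤ X := (le_max_right _ _).trans hX
  have hl := one_le_log3 hX3
  rw [Nat.floor_natCast] at h2
  rw [primes_eq]
  refine h2.trans ?_
  apply div_le_div_of_nonneg_right _ (by linarith)
  apply mul_le_mul_of_nonneg_right _ (Nat.cast_nonneg _)
  have h4 : Real.log 4 = 2 * Real.log 2 := by
    rw [show (4 : ℝ) = 2 ^ 2 by norm_num, Real.log_pow]
    norm_num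
  have h5 := Real.log_two_lt_d9
  rw [h4]
  linarith

end Pool.Agent.Y854.GM
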