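import Pool.Agent.Y854.GM.Mean2

/-! Densities of the sets of a countable family along the sequence. -/

set_option autoImplicit false

open Finset Filter Topology

namespace Pool.Agent.Y854.GM

open Pool.Agent.Y854.PS

open Classical in
/-- **Upper and lower densities along the sequence.** -/
theorem sets (c : ℝ) (hc : 1 < c) {ι : Type} [Countable ι] (P : ι → Set ℕ) :
    ∃ E : Set ℝ, dimH E < 1 ∧ ∀ α : ℝ, 0 < α → α ∉ E → ∀ k : ι, ∀ δ ε : ℝ, 0 < ε →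
      ((∃ X0 : ℕ, ∀ X : ℕ, X0 ≤ X → (((Ioc 0 X).filter (fun t => t ∈ P k)).card : ℝ) ≤ δ * X) →
        ∃ N0 : ℕ, ∀ N : ℕ, N0 ≤ N → (((Icc 1 N).filter (fun n : ℕ => ⌊α * (n : ℝ) ^ c⌋₊ ∈ P k)).card : ℝ) ≤ (δ + ε) * N) ∧
      ((∃ X0 : ℕ, ∀ X : ℕ, X0 ≤ X → δ * X ≤ (((Ioc 0 X).filter (fun t => t ∈ P k)).card : ℝ)) →
        ∃ N0 : ℕ, ∀ N : ℕ, N0 ≤ N → (δ - ε) * N ≤ (((Icc 1 N).filter (fun n : ℕ => ⌊α * (n : ℝ) ^ c⌋₊ ∈ P k)).card : ℝ)) := by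
  obtain ⟨κ, hκ, hκ1, h⟩ := mean2 c hc
  obtain ⟨E, hE, hlaw⟩ := h (fun k t => if t ∈ P k then (1 : ℝ) else 0)
  refine ⟨E, hE, fun α hα hαE k δ ε hε => ?_⟩
  have hgrow : ∃ C : ℝ, 0 < C ∧ ∀ m : ℕ, 1 ≤ m → |(if m ∈ P k then (1 : ℝ) else 0)| ≤ C * (m : ℝ) ^ κ := by
    refine ⟨1, one_pos, fun m hm => ?_⟩
    have h1 : (1 : ℝ) ≤ (m : ℝ) ^ κ := Real.one_le_rpow (by exact_mod_cast hm) hκ.le
    split_ifs <;> simp <;> linarith
  obtain ⟨N0, hN0⟩ := hlaw α hα hαE k hgrow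
  have e1 : ∀ X : ℕ, (((Ioc 0 X).filter (fun t => t ∈ P k)).card : ℝ) = ∑ t ∈ Ioc 0 X, (if t ∈ P k then (1 : ℝ) else 0) := by
    intro X
    rw [Finset.sum_boole]
  have e2 : ∀ N : ℕ, (((Icc 1 N).filter (fun n : ℕ => ⌊α * (n : ℝ) ^ c⌋₊ ∈ P k)).card : ℝ) =
      ∑ n ∈ Icc 1 N, (fun t : ℕ => if t ∈ P k then (1 : ℝ) else 0) ⌊α * (n : ℝ) ^ c⌋₊ := by
    intro N
    simp only
    rw [Finset.sum_boole]
  have hpos : ∀ X : ℕ, 0 ≤ ∑ t ∈ Ioc 0 X, (if t ∈ P k then (1 : ℝ) else 0) := by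
    intro X
    apply Finset.sum_nonneg
    intro t _
    split_ifs <;> norm_num
  constructor
  · rintro ⟨X0, hX0⟩
    simp only [e1] at hX0
    have hu : ∀ X : ℕ, ∑ t ∈ Ioc 0 X, (if t ∈ P k then (1 : ℝ) else 0) ≤ δ * X + (1 + |δ|) * X0 := by
      intro X
      rcases le_total X0 X with hX | hX
      · have := hX0 X hX
        have h2 : 0 ≤ (1 + |δ|) * (X0 : ℝ) := by positivity
        linarith
      · have h2 : ∑ t ∈ Ioc 0 X, (if t ∈ P k then (1 : ℝ) else 0) ≤ X := by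
          rw [← e1]
          have h3 := Finset.card_filter_le (Ioc 0 X) (fun t => t ∈ P k)
          rw [Nat.card_Ioc, Nat.sub_zero] at h3
          exact_mod_cast h3
        have h3 : (X : ℝ) ≤ X0 := by exact_mod_cast hX
        have h4 : -|δ| * (X : ℝ) ≤ δ * X := mul_le_mul_of_nonneg_right (neg_abs_le δ) (Nat.cast_nonneg _)
        have h5 : |δ| * (X : ℝ) ≤ |δ| * X0 := mul_le_mul_of_nonneg_left h3 (abs_nonneg _)
        nlinarith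
    obtain ⟨N1, hN1⟩ := seq_upper hα hc hκ (fun t : ℕ => if t ∈ P k then (1 : ℝ) else 0) hu N0 hN0 ε hε
    refine ⟨N1, fun N hN => ?_⟩
    rw [e2]
    exact hN1 N hN
  · rintro ⟨X0, hX0⟩
    simp only [e1] at hX0
    have hu : ∀ X : ℕ, δ * X - |δ| * X0 ≤ ∑ t ∈ Ioc 0 X, (if t ∈ P k then (1 : ℝ) else 0) := by
      intro X
      rcases le_total X0 X with hX | hX
      · have := hX0 X hX
        have h2 : 0 ≤ |δ| * (X0 : ℝ) := by positivity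
        linarith
      · have h3 : (X : ℝ) ≤ X0 := by exact_mod_cast hX
        have h4 : δ * (X : ℝ) ≤ |δ| * X := mul_le_mul_of_nonneg_right (le_abs_self δ) (Nat.cast_nonneg _)
        have h5 : |δ| * (X : ℝ) ≤ |δ| * X0 := mul_le_mul_of_nonneg_left h3 (abs_nonneg _)
        have h6 := hpos X
        linarith
    obtain ⟨N1, hN1⟩ := seq_lower hα hc hκ (fun t : ℕ => if t ∈ P k then (1 : ℝ) else 0) hu N0 hN0 ε hε
    refine ⟨N1, fun N hN => ?_⟩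
    rw [e2]
    exact hN1 N hN

end Pool.Agent.Y854.GM
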