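import Pool.Agent.Y854.GM.WinV

/-!
# Windows with few members of a sparse set
-/

set_option autoImplicit false

open Finset Filter Topology
open scoped ENNReal

namespace Pool.Agent.Y854.GM

open Classical in
/-- windows with few members of a set `P` of natural numbers with at most `X ^ (s + ε)` members up to `X` -/
theorem few_nat (P : Set ℕ) (h0 : 0 ∉ P) {v : ℕ → ℝ} {s τ θ : ℝ} (γ : ℝ) (hγs : γ ≤ s) (hv : ∀ n, 1 ≤ v n) (hτ : 0 ≤ τ)
    (hE : ExpLe v τ) (hs : 0 ≤ s) (hθ1 : θ < 1)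
    (hP' : ∀ ε : ℝ, 0 < ε → ∃ C : ℝ, ∀ X : ℕ, 1 ≤ X →
      (((Ioc 0 X).filter (fun t => t ∈ P)).card : ℝ) ≤ C * (X : ℝ) ^ (s + ε)) :
    ∃ E : Set ℝ, dimH E ≤ ENNReal.ofReal ((s - γ + τ) / (1 - θ)) ∧ ∀ α : ℝ, 0 < α → α ∉ E →
      ∃ k₀ : ℕ, ∀ k : ℕ, k₀ ≤ k →
        ({n : ℕ | n ∈ P ∧ |(n : ℝ) - α * v k| ≤ (v k) ^ θ}.ncard : ℝ) ≤ (v k) ^ γ := by
  have hP : ∀ ε : ℝ, 0 < ε → ∃ C : ℝ, 0 < C ∧ ∀ X : ℕ, 1 ≤ X →
      (((Ioc 0 X).filter (fun t => t ∈ P)).card : ℝ) ≤ C * (X : ℝ) ^ (s + ε) := by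
    intro ε hε
    obtain ⟨C, hC⟩ := hP' ε hε
    refine ⟨max C 1, lt_max_of_lt_right one_pos, fun X hX => ?_⟩
    have h1 := hC X hX
    have h2 : C * (X : ℝ) ^ (s + ε) ≤ max C 1 * (X : ℝ) ^ (s + ε) :=
      mul_le_mul_of_nonneg_right (le_max_left _ _) (by positivity)
    exact h1.trans h2
  have hvp : ∀ k, 0 < v k := fun k => lt_of_lt_of_le one_pos (hv k)
  have htv : Tendsto v atTop atTop := tendsto_of_expLe hvp hτ hE
  -- the block of `n`
  set f : ℕ → ℕ → ℕ := fun k n => ⌊(n : ℝ) / (v k) ^ θ⌋₊ with hf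
  obtain ⟨E, h2, h3⟩ := windowsV
    (fun k => {j : ℕ | (v k) ^ γ / 4 < ({n : ℕ | n ∈ P ∧ f k n = j}.ncard : ℝ)})
    (fun k (j : ℕ) => (j : ℝ) * (v k) ^ θ) 2 hv hτ hE (s := s - γ) (by linarith) hθ1 (by
      intro A ε hε
      obtain ⟨C, hC, h⟩ := hP ε hε
      have hA0 : (0 : ℝ) ≤ A := Nat.cast_nonneg A
      refine ⟨4 * (C * ((A : ℝ) + 2) ^ (s + ε)), 0, fun k _ => ?_⟩
      have hvk := hvp k
      have hvθ : (v k) ^ θ ≤ v k := by
        calc (v k) ^ θ ≤ (v k) ^ (1 : ℝ) := Real.rpow_le_rpow_of_exponent_le (hv k) hθ1.le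
          _ = v k := Real.rpow_one _
      have hvθ0 : 0 < (v k) ^ θ := by positivity
      set X : ℕ := ⌊((A : ℝ) + 2) * v k⌋₊ with hX
      have hXr : (X : ℝ) ≤ ((A : ℝ) + 2) * v k := Nat.floor_le (by positivity)
      have hX1 : 1 ≤ X := by
        apply Nat.le_floor
        push_cast
        have := hv k
        nlinarith
      set J : Finset ℕ := (range (⌊((A : ℝ) + 1) * v k / (v k) ^ θ⌋₊ + 1)).filter (fun j =>
        (v k) ^ γ / 4 < ({n : ℕ | n ∈ P ∧ f k n = j}.ncard : ℝ)) with hJ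
      have hsub : {j : ℕ | j ∈ {j : ℕ | (v k) ^ γ / 4 < ({n : ℕ | n ∈ P ∧ f k n = j}.ncard : ℝ)} ∧
          (j : ℝ) * (v k) ^ θ ≤ ((A : ℝ) + 1) * v k} ⊆ (J : Set ℕ) := by
        rintro j ⟨a1, a2⟩
        rw [mem_coe, hJ, mem_filter, mem_range]
        refine ⟨Nat.lt_succ_of_le (Nat.le_floor ?_), a1⟩
        rw [le_div_iff₀ hvθ0]
        exact a2
      refine ⟨(Finset.finite_toSet _).subset hsub, ?_⟩
      have h1 := Set.ncard_le_ncard hsub (Finset.finite_toSet _)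
      rw [Set.ncard_coe_finset] at h1
      have hfib : ∀ j ∈ J, {n : ℕ | n ∈ P ∧ f k n = j} =
          (((Ioc 0 X).filter (fun t => t ∈ P)).filter (fun n => f k n = j) : Finset ℕ) := by
        intro j hj
        rw [hJ, mem_filter, mem_range] at hj
        ext n
        rw [mem_coe, mem_filter, mem_filter, mem_Ioc]
        constructor
        · rintro ⟨a1, a2⟩
          refine ⟨⟨⟨Nat.pos_of_ne_zero (fun h' => h0 (h' ▸ a1)), ?_⟩, a1⟩, a2⟩
          apply Nat.le_floor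
          have b1 : (n : ℝ) / (v k) ^ θ < (j : ℝ) + 1 := by
            rw [← a2]
            exact Nat.lt_floor_add_one _
          rw [div_lt_iff₀ hvθ0] at b1
          have b2 : (j : ℝ) ≤ ((A : ℝ) + 1) * v k / (v k) ^ θ := by
            have b3 : j ≤ ⌊((A : ℝ) + 1) * v k / (v k) ^ θ⌋₊ := by omega
            exact (Nat.cast_le.2 b3).trans (Nat.floor_le (by positivity))
          rw [le_div_iff₀ hvθ0] at b2
          nlinarith
        · rintro ⟨⟨-, a1⟩, a2⟩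
          exact ⟨a1, a2⟩
      have h4 : (J.card : ℝ) * ((v k) ^ γ / 4) ≤ (((Ioc 0 X).filter (fun t => t ∈ P)).card : ℝ) := by
        have h5 : ∑ j ∈ J, ((((Ioc 0 X).filter (fun t => t ∈ P)).filter (fun n => f k n = j)).card : ℝ) ≤
            (((Ioc 0 X).filter (fun t => t ∈ P)).card : ℝ) := by
          rw [← Nat.cast_sum]
          apply Nat.cast_le.2
          rw [Finset.sum_card_fiberwise_eq_card_filter]
          exact card_filter_le _ _
        refine le_trans ?_ h5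
        rw [← nsmul_eq_mul]
        apply Finset.card_nsmul_le_sum
        intro j hj
        have h6 := hfib j hj
        rw [hJ, mem_filter] at hj
        have h7 := hj.2
        rw [h6, Set.ncard_coe_finset] at h7
        exact h7.le
      have h5 := h X hX1
      have hvγ : 0 < (v k) ^ γ := by positivity
      have h6 : (J.card : ℝ) ≤ 4 * (C * ((A : ℝ) + 2) ^ (s + ε)) * ((v k) ^ (s + ε) / (v k) ^ γ) := by
        have h7 : (X : ℝ) ^ (s + ε) ≤ ((A : ℝ) + 2) ^ (s + ε) * (v k) ^ (s + ε) := by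
          rw [← Real.mul_rpow (by positivity) hvk.le]
          exact Real.rpow_le_rpow (Nat.cast_nonneg _) hXr (by positivity)
        have h8 : (J.card : ℝ) * ((v k) ^ γ / 4) ≤
            C * (((A : ℝ) + 2) ^ (s + ε) * (v k) ^ (s + ε)) :=
          h4.trans (h5.trans (mul_le_mul_of_nonneg_left h7 hC.le))
        rw [← le_div_iff₀ (by positivity)] at h8
        refine h8.trans (le_of_eq ?_)
        field_simp
      calc (({j : ℕ | j ∈ {j : ℕ | (v k) ^ γ / 4 < ({n : ℕ | n ∈ P ∧ f k n = j}.ncard : ℝ)} ∧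
          (j : ℝ) * (v k) ^ θ ≤ ((A : ℝ) + 1) * v k}.ncard : ℕ) : ℝ) ≤ (J.card : ℝ) := by exact_mod_cast h1
        _ ≤ 4 * (C * ((A : ℝ) + 2) ^ (s + ε)) * ((v k) ^ (s + ε) / (v k) ^ γ) := h6
        _ = 4 * (C * ((A : ℝ) + 2) ^ (s + ε)) * (v k) ^ (s - γ + ε) := by
            rw [← Real.rpow_sub hvk]
            congr 2
            ring)
  refine ⟨E, h2, fun α hα hαE => ?_⟩
  obtain ⟨k₀, hk⟩ := h3 α hα hαE
  have h1θ : 0 < 1 - θ := by linarith
  have hvθ : Tendsto (fun n => (v n) ^ (1 - θ)) atTop atTop := (tendsto_rpow_atTop h1θ).comp htv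
  obtain ⟨M2, hM2⟩ := (hvθ.eventually (eventually_ge_atTop (2 / α))).exists_forall_of_atTop
  refine ⟨max k₀ M2, fun k hk1 => ?_⟩
  have hk0 : k₀ ≤ k := (le_max_left _ _).trans hk1
  have hk2 : M2 ≤ k := (le_max_right _ _).trans hk1
  have hvk := hvp k
  have hvθ0 : 0 < (v k) ^ θ := by positivity
  set z : ℝ := α * v k / (v k) ^ θ with hz
  have hz2 : 2 ≤ z := by
    have h1 := hM2 k hk2
    have h3 : v k = (v k) ^ (1 - θ) * (v k) ^ θ := by
      rw [← Real.rpow_add hvk]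
      rw [show 1 - θ + θ = 1 by ring, Real.rpow_one]
    have h4 : z = α * (v k) ^ (1 - θ) := by
      rw [hz, div_eq_iff hvθ0.ne']
      calc α * v k = α * ((v k) ^ (1 - θ) * (v k) ^ θ) := by rw [← h3]
        _ = α * (v k) ^ (1 - θ) * (v k) ^ θ := by ring
    rw [h4]
    calc (2 : ℝ) = α * (2 / α) := by field_simp
      _ ≤ α * (v k) ^ (1 - θ) := mul_le_mul_of_nonneg_left h1 hα.le
  have hαz : α * v k = z * (v k) ^ θ := by
    rw [hz]
    field_simp
  -- the window is covered by three blocks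
  set j0 : ℕ := ⌊z⌋₊ with hj0
  have hj0a : (j0 : ℝ) ≤ z := Nat.floor_le (by linarith)
  have hj0b : z < (j0 : ℝ) + 1 := Nat.lt_floor_add_one z
  have hj01 : 1 ≤ j0 := Nat.le_floor (by push_cast; linarith)
  have hblock : ∀ j : ℕ, j0 ≤ j + 1 → j ≤ j0 + 1 →
      ({n : ℕ | n ∈ P ∧ f k n = j}.ncard : ℝ) ≤ (v k) ^ γ / 4 := by
    intro j ha hb
    by_contra hcon
    push Not at hcon
    refine absurd (hk k hk0 j hcon) (not_lt.2 ?_)
    show |(j : ℝ) * (v k) ^ θ - α * v k| ≤ 2 * (v k) ^ θ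
    have ha' : (j0 : ℝ) ≤ (j : ℝ) + 1 := by exact_mod_cast ha
    have hb' : (j : ℝ) ≤ (j0 : ℝ) + 1 := by exact_mod_cast hb
    rw [hαz, ← sub_mul, abs_mul, abs_of_pos hvθ0]
    apply mul_le_mul_of_nonneg_right _ hvθ0.le
    rw [abs_le]
    constructor
    · linarith
    · linarith
  have hcov : {n : ℕ | n ∈ P ∧ |(n : ℝ) - α * v k| ≤ (v k) ^ θ} ⊆
      ({n : ℕ | n ∈ P ∧ f k n = j0 - 1} ∪ {n : ℕ | n ∈ P ∧ f k n = j0}) ∪
        {n : ℕ | n ∈ P ∧ f k n = j0 + 1} := by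
    rintro n ⟨a1, a2⟩
    obtain ⟨a3, a4⟩ := abs_le.1 a2
    have b1 : (n : ℝ) / (v k) ^ θ ≤ z + 1 := by
      rw [div_le_iff₀ hvθ0, add_mul, ← hαz]
      linarith
    have b2 : z - 1 ≤ (n : ℝ) / (v k) ^ θ := by
      rw [le_div_iff₀ hvθ0, sub_mul, ← hαz]
      linarith
    have c1 : f k n < j0 + 2 := by
      rw [hf]
      apply (Nat.floor_lt (by positivity)).2
      push_cast
      linarith
    have c2 : j0 - 1 ≤ f k n := by
      rw [hf]
      apply Nat.le_floor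
      rw [Nat.cast_sub hj01]
      push_cast
      linarith
    have c3 : f k n = j0 - 1 ∨ f k n = j0 ∨ f k n = j0 + 1 := by omega
    rcases c3 with h | h | h
    · exact Or.inl (Or.inl ⟨a1, h⟩)
    · exact Or.inl (Or.inr ⟨a1, h⟩)
    · exact Or.inr ⟨a1, h⟩
  have hfinb : ∀ j : ℕ, {n : ℕ | n ∈ P ∧ f k n = j}.Finite := by
    intro j
    refine (Set.finite_Iio ⌈((j : ℝ) + 1) * (v k) ^ θ⌉₊).subset ?_
    rintro n ⟨-, a2⟩
    have b1 : (n : ℝ) / (v k) ^ θ < (j : ℝ) + 1 := by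
      rw [← a2]
      exact Nat.lt_floor_add_one _
    rw [div_lt_iff₀ hvθ0] at b1
    exact Nat.lt_ceil.2 b1
  have h5 := Set.ncard_le_ncard hcov (((hfinb _).union (hfinb _)).union (hfinb _))
  have h6 := h5.trans ((Set.ncard_union_le _ _).trans (Nat.add_le_add_right (Set.ncard_union_le _ _) _))
  have h7 : ({n : ℕ | n ∈ P ∧ |(n : ℝ) - α * v k| ≤ (v k) ^ θ}.ncard : ℝ) ≤
      (({n : ℕ | n ∈ P ∧ f k n = j0 - 1}.ncard : ℝ) + ({n : ℕ | n ∈ P ∧ f k n = j0}.ncard : ℝ)) +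
        ({n : ℕ | n ∈ P ∧ f k n = j0 + 1}.ncard : ℝ) := by exact_mod_cast h6
  have g1 := hblock (j0 - 1) (by omega) (by omega)
  have g2 := hblock j0 (by omega) (by omega)
  have g3 := hblock (j0 + 1) (by omega) (by omega)
  have g4 : 0 < (v k) ^ γ := by positivity
  linarith

end Pool.Agent.Y854.GM
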