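import Pool.Agent.Y854.GM.Uni
import Pool.Agent.Y854.GM.Log

/-! The two-dimensional law: functions of two variables with mean zero, along pairs of sequences. -/

set_option autoImplicit false

open Finset Filter Topology

namespace Pool.Agent.Y854.GM

open Pool.Agent.Y854.PS
open Pool.Agent.Y854.ST (sum_wt_up sum_wt_low Ioc_zero wsum)

lemma wt_one_le {c : ℝ} (hc : 1 < c) : wt c 1 ≤ 1 := by
  unfold wt
  simp only [Nat.cast_one, Real.one_rpow, mul_one]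
  rw [div_le_one (by linarith)]
  exact hc.le

/-- partial summation in two variables -/
lemma two_abel {c c' : ℝ} (hc : 1 < c) (hc' : 1 < c') (f : ℕ → ℕ → ℝ) (hf1 : ∀ s t, f s t ≤ 1)
    {ε : ℝ} (hε : 0 < ε) (L : ℕ)
    (hL : ∀ X Y : ℕ, L ≤ X → L ≤ Y → ∑ s ∈ Ioc 0 X, ∑ t ∈ Ioc 0 Y, f s t ≤ ε * X * Y) (S T : ℕ) :
    ∑ s ∈ Ioc 0 S, wt c s * ∑ t ∈ Ioc 0 T, wt c' t * f s t ≤
      ε * (S : ℝ) ^ (1 / c) * (T : ℝ) ^ (1 / c') + L * (S : ℝ) ^ (1 / c) + L * (T : ℝ) ^ (1 / c') := by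
  classical
  set u : ℕ → ℝ := fun s => ∑ t ∈ Ioc 0 T, wt c' t * f s t with hu
  have hT0 : 0 ≤ (T : ℝ) ^ (1 / c') := by positivity
  have hu1 : ∀ s, u s ≤ (T : ℝ) ^ (1 / c') := by
    intro s
    refine le_trans ?_ (sum_wt_up hc' T)
    apply Finset.sum_le_sum
    intro t _
    exact mul_le_of_le_one_right (wt_nonneg hc' t) (hf1 s t)
  have hA : ∀ X : ℕ, L ≤ X → ∑ s ∈ Ioc 0 X, u s ≤ X * (ε * (T : ℝ) ^ (1 / c') + L) := by
    intro X hX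
    have e1 : ∑ s ∈ Ioc 0 X, u s = ∑ t ∈ Ioc 0 T, wt c' t * ∑ s ∈ Ioc 0 X, f s t := by
      rw [hu]
      simp only
      rw [Finset.sum_comm]
      exact Finset.sum_congr rfl fun t _ => by rw [Finset.mul_sum]
    have h1 : ∀ Y : ℕ, -((X : ℝ) * L) ≤ ∑ t ∈ Ioc 0 Y, (ε * X - ∑ s ∈ Ioc 0 X, f s t) := by
      intro Y
      rw [Finset.sum_sub_distrib, sum_const, Nat.card_Ioc, nsmul_eq_mul, Nat.sub_zero]
      rcases le_total L Y with hY | hY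
      · have h2 := hL X Y hX hY
        rw [Finset.sum_comm] at h2
        have h3 : (0 : ℝ) ≤ (X : ℝ) * L := by positivity
        nlinarith
      · have h2 : ∑ t ∈ Ioc 0 Y, ∑ s ∈ Ioc 0 X, f s t ≤ Y * X := by
          calc ∑ t ∈ Ioc 0 Y, ∑ s ∈ Ioc 0 X, f s t ≤ ∑ t ∈ Ioc 0 Y, ∑ s ∈ Ioc 0 X, (1 : ℝ) :=
                Finset.sum_le_sum fun t _ => Finset.sum_le_sum fun s _ => hf1 s t
            _ = Y * X := by simp
        have h3 : (Y : ℝ) * X ≤ L * X := mul_le_mul_of_nonneg_right (by exact_mod_cast hY) (Nat.cast_nonneg _)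
        have h4 : 0 ≤ (Y : ℝ) * (ε * X) := by positivity
        nlinarith
    have h2 := w_lower hc' (fun t => ε * X - ∑ s ∈ Ioc 0 X, f s t) ((X : ℝ) * L) h1 T
    have h3 : ∑ t ∈ Ioc 0 T, wt c' t * (ε * X - ∑ s ∈ Ioc 0 X, f s t) =
        ε * X * ∑ t ∈ Ioc 0 T, wt c' t - ∑ t ∈ Ioc 0 T, wt c' t * ∑ s ∈ Ioc 0 X, f s t := by
      rw [Finset.mul_sum, ← Finset.sum_sub_distrib]
      exact Finset.sum_congr rfl fun t _ => by ring
    rw [h3] at h2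
    have h4 : (X : ℝ) * L * wt c' 1 ≤ X * L := mul_le_of_le_one_right (by positivity) (wt_one_le hc')
    have h5 : ε * X * ∑ t ∈ Ioc 0 T, wt c' t ≤ ε * X * (T : ℝ) ^ (1 / c') :=
      mul_le_mul_of_nonneg_left (sum_wt_up hc' T) (by positivity)
    rw [e1]
    nlinarith
  have h1 : ∀ X : ℕ, -((L : ℝ) * (T : ℝ) ^ (1 / c')) ≤ ∑ s ∈ Ioc 0 X, (ε * (T : ℝ) ^ (1 / c') + L - u s) := by
    intro X
    rw [Finset.sum_sub_distrib, sum_const, Nat.card_Ioc, nsmul_eq_mul, Nat.sub_zero]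
    rcases le_total L X with hX | hX
    · have h2 := hA X hX
      have h3 : 0 ≤ (L : ℝ) * (T : ℝ) ^ (1 / c') := by positivity
      linarith
    · have h2 : ∑ s ∈ Ioc 0 X, u s ≤ X * (T : ℝ) ^ (1 / c') := by
        calc ∑ s ∈ Ioc 0 X, u s ≤ ∑ s ∈ Ioc 0 X, (T : ℝ) ^ (1 / c') := Finset.sum_le_sum fun s _ => hu1 s
          _ = X * (T : ℝ) ^ (1 / c') := by rw [sum_const, Nat.card_Ioc, nsmul_eq_mul, Nat.sub_zero]
      have h3 : (X : ℝ) * (T : ℝ) ^ (1 / c') ≤ L * (T : ℝ) ^ (1 / c') :=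
        mul_le_mul_of_nonneg_right (by exact_mod_cast hX) hT0
      have h4 : 0 ≤ (X : ℝ) * (ε * (T : ℝ) ^ (1 / c') + L) := by positivity
      linarith
  have h2 := w_lower hc (fun s => ε * (T : ℝ) ^ (1 / c') + L - u s) ((L : ℝ) * (T : ℝ) ^ (1 / c')) h1 S
  have h3 : ∑ s ∈ Ioc 0 S, wt c s * (ε * (T : ℝ) ^ (1 / c') + L - u s) =
      (ε * (T : ℝ) ^ (1 / c') + L) * ∑ s ∈ Ioc 0 S, wt c s - ∑ s ∈ Ioc 0 S, wt c s * u s := by
    rw [Finset.mul_sum, ← Finset.sum_sub_distrib]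
    exact Finset.sum_congr rfl fun t _ => by ring
  rw [h3] at h2
  have h4 : (L : ℝ) * (T : ℝ) ^ (1 / c') * wt c 1 ≤ L * (T : ℝ) ^ (1 / c') :=
    mul_le_of_le_one_right (by positivity) (wt_one_le hc)
  have h5 : (ε * (T : ℝ) ^ (1 / c') + L) * ∑ s ∈ Ioc 0 S, wt c s ≤ (ε * (T : ℝ) ^ (1 / c') + L) * (S : ℝ) ^ (1 / c) :=
    mul_le_mul_of_nonneg_left (sum_wt_up hc S) (by positivity)
  have h6 : ∑ s ∈ Ioc 0 S, wt c s * ∑ t ∈ Ioc 0 T, wt c' t * f s t = ∑ s ∈ Ioc 0 S, wt c s * u s := rfl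
  rw [h6]
  nlinarith

lemma pow2_small (K : ℝ) {δ η : ℝ} (hδ : 0 < δ) (hη : 0 < η) :
    ∃ k0 : ℕ, ∀ k : ℕ, k0 ≤ k → K * ((2 : ℝ) ^ k) ^ (-δ) ≤ η := by
  have h1 : Tendsto (fun k : ℕ => ((2 : ℝ) ^ k) ^ δ) atTop atTop :=
    (tendsto_rpow_atTop hδ).comp (tendsto_pow_atTop_atTop_of_one_lt (by norm_num))
  obtain ⟨k0, hk0⟩ := (h1.eventually (eventually_ge_atTop (|K| / η))).exists_forall_of_atTop
  refine ⟨k0, fun k hk => ?_⟩
  have h2 := hk0 k hk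
  have hX : (0 : ℝ) < ((2 : ℝ) ^ k) ^ δ := by positivity
  rw [div_le_iff₀ hη] at h2
  rw [Real.rpow_neg (by positivity), ← div_eq_mul_inv, div_le_iff₀ hX]
  have := le_abs_self K
  linarith

/-- the size of the power of two above a number -/
lemma clog_le {M : ℕ} (hM : 2 ≤ M) : M ≤ 2 ^ Nat.clog 2 M ∧ 2 ^ Nat.clog 2 M ≤ 2 * M := by
  constructor
  · exact Nat.le_pow_clog (by norm_num) M
  · have h1 : 2 ^ (Nat.clog 2 M).pred < M := Nat.pow_pred_clog_lt_self (by norm_num) (by omega)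
    have h2 : 0 < Nat.clog 2 M := Nat.clog_pos (by norm_num) hM
    have h3 : 2 ^ Nat.clog 2 M = 2 * 2 ^ (Nat.clog 2 M).pred := by
      conv_lhs => rw [← Nat.succ_pred_eq_of_pos h2]
      rw [pow_succ, mul_comm]
    omega

/-- **The two-dimensional law.** -/
theorem two (c c' : ℝ) (hc : 1 < c) (hc' : 1 < c') (f : ℕ → ℕ → ℝ) (hf0 : ∀ s t, 0 ≤ f s t)
    (hf1 : ∀ s t, f s t ≤ 1)
    (hmean : ∀ ε : ℝ, 0 < ε → ∃ L : ℕ, ∀ X Y : ℕ, L ≤ X → L ≤ Y →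
      ∑ s ∈ Ioc 0 X, ∑ t ∈ Ioc 0 Y, f s t ≤ ε * X * Y) :
    ∃ E : Set ℝ, dimH E < 1 ∧ ∀ α : ℝ, 0 < α → α ∉ E → ∃ E' : Set ℝ, dimH E' < 1 ∧ ∀ β : ℝ, 0 < β → β ∉ E' →
      ∀ (R : ℕ) (ε : ℝ), 0 < ε → ∃ L0 : ℕ, ∀ M N : ℕ, L0 ≤ M → L0 ≤ N → M ≤ N ^ R → N ≤ M ^ R →
        ∑ m ∈ Icc 1 M, ∑ n ∈ Icc 1 N, f ⌊α * (m : ℝ) ^ c⌋₊ ⌊β * (n : ℝ) ^ c'⌋₊ ≤ ε * M * N := by
  classical
  have hc0 : 0 < c := by linarith
  have hc0' : 0 < c' := by linarith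
  obtain ⟨κ1, hκ1, hκ1', law1⟩ := mean_uni_r c hc
  obtain ⟨κ2, hκ2, hκ2', law2⟩ := mean_uni_r c' hc'
  set H : ℕ → ℕ → ℝ := fun j s => ((2 : ℝ) ^ j) ^ (-(1 / c')) * ∑ t ∈ Ioc 0 (2 ^ j), wt c' t * f s t with hH
  have hinner : ∀ (s X : ℕ), 0 ≤ ∑ t ∈ Ioc 0 X, wt c' t * f s t := fun s X =>
    Finset.sum_nonneg fun t _ => mul_nonneg (wt_nonneg hc' t) (hf0 s t)
  have hH1 : ∀ j s, |H j s| ≤ 1 := by
    intro j s
    have h1 : ∑ t ∈ Ioc 0 (2 ^ j), wt c' t * f s t ≤ ((2 : ℝ) ^ j) ^ (1 / c') := by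
      have h2 := sum_wt_up hc' (2 ^ j)
      push_cast at h2
      refine le_trans ?_ h2
      exact Finset.sum_le_sum fun t _ => mul_le_of_le_one_right (wt_nonneg hc' t) (hf1 s t)
    have h2 : (0 : ℝ) < ((2 : ℝ) ^ j) ^ (-(1 / c')) := by positivity
    rw [hH]
    simp only
    rw [abs_of_nonneg (mul_nonneg h2.le (hinner s _))]
    calc ((2 : ℝ) ^ j) ^ (-(1 / c')) * ∑ t ∈ Ioc 0 (2 ^ j), wt c' t * f s t
        ≤ ((2 : ℝ) ^ j) ^ (-(1 / c')) * ((2 : ℝ) ^ j) ^ (1 / c') := mul_le_mul_of_nonneg_left h1 h2.le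
      _ = 1 := by rw [← Real.rpow_add (by positivity)]; simp
  obtain ⟨E, hE, hlaw1⟩ := law1 H hH1
  refine ⟨E, hE, fun α hα hαE => ?_⟩
  set A : ℕ → ℕ := fun m => ⌊α * (m : ℝ) ^ c⌋₊ with hAdef
  set G : ℕ → ℕ → ℝ := fun k t => ((2 : ℝ) ^ k)⁻¹ * ∑ m ∈ Icc 1 (2 ^ k), f (A m) t with hG
  have hG1 : ∀ k t, |G k t| ≤ 1 := by
    intro k t
    have h1 : ∑ m ∈ Icc 1 (2 ^ k), f (A m) t ≤ (2 : ℝ) ^ k := by
      calc ∑ m ∈ Icc 1 (2 ^ k), f (A m) t ≤ ∑ m ∈ Icc 1 (2 ^ k), (1 : ℝ) := Finset.sum_le_sum fun m _ => hf1 _ t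
        _ = (2 : ℝ) ^ k := by simp
    have h0 : 0 ≤ ∑ m ∈ Icc 1 (2 ^ k), f (A m) t := Finset.sum_nonneg fun m _ => hf0 _ t
    have h2 : (0 : ℝ) < ((2 : ℝ) ^ k)⁻¹ := by positivity
    rw [hG]
    simp only
    rw [abs_of_nonneg (mul_nonneg h2.le h0)]
    calc ((2 : ℝ) ^ k)⁻¹ * ∑ m ∈ Icc 1 (2 ^ k), f (A m) t ≤ ((2 : ℝ) ^ k)⁻¹ * (2 : ℝ) ^ k :=
          mul_le_mul_of_nonneg_left h1 h2.le
      _ = 1 := inv_mul_cancel₀ (by positivity)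
  obtain ⟨E', hE', hlaw2⟩ := law2 G hG1
  refine ⟨E', hE', fun β hβ hβE R ε hε => ?_⟩
  set a := α ^ (-(1 / c)) with ha
  have ha0 : 0 < a := Real.rpow_pos_of_pos hα _
  set b := β ^ (-(1 / c')) with hb
  have hb0 : 0 < b := Real.rpow_pos_of_pos hβ _
  -- the constants
  obtain ⟨L, hL⟩ := hmean (ε / 32) (by positivity)
  obtain ⟨r1, hr1⟩ := exists_nat_ge (c' * (R + 1) + 1)
  have hr1p : 0 < r1 := by
    have : (0 : ℝ) < r1 := lt_of_lt_of_le (by positivity) hr1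
    exact_mod_cast this
  obtain ⟨K1, hK1, j1, hlaw1'⟩ := hlaw1 α hα hαE r1 hr1p
  obtain ⟨K2, hK2, j2, hlaw2'⟩ := hlaw2 β hβ hβE (R + 1) (Nat.succ_pos R)
  -- thresholds
  set η : ℝ := ε / 128 with hη
  have hη0 : 0 < η := by positivity
  obtain ⟨p1, hp1⟩ := pow2_small (a * L) (δ := 1) one_pos hη0
  obtain ⟨p2, hp2⟩ := pow2_small (L : ℝ) (δ := 1 / c') (by positivity) hη0
  obtain ⟨p3, hp3⟩ := pow2_small K1 hκ1 hη0
  obtain ⟨p4, hp4⟩ := pow2_small K1 (δ := 1 - 1 / c) (by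
    have : 1 / c < 1 := by rw [div_lt_one hc0]; exact hc
    linarith) hη0
  obtain ⟨p5, hp5⟩ := pow2_small K2 hκ2 hη0
  obtain ⟨p6, hp6⟩ := pow2_small K2 (δ := 1 - 1 / c') (by
    have : 1 / c' < 1 := by rw [div_lt_one hc0']; exact hc'
    linarith) hη0
  obtain ⟨N1, hN1⟩ := last_ge hβ hc'
  obtain ⟨C0, hC0⟩ := exists_nat_ge (1 + Real.logb 2 β)
  set p : ℕ := p1 + p2 + p3 + p4 + p5 + p6 + N1 + C0 + j1 + j2 + L + 2 with hp
  refine ⟨2 ^ p, fun M N hM hN hMN hNM => ?_⟩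
  have hp2' : 2 ≤ 2 ^ p := by
    calc 2 = 2 ^ 1 := by norm_num
      _ ≤ 2 ^ p := Nat.pow_le_pow_right (by norm_num) (by omega)
  obtain ⟨hk1, hk2⟩ := clog_le (hp2'.trans hM)
  obtain ⟨hl1, hl2⟩ := clog_le (hp2'.trans hN)
  set k : ℕ := Nat.clog 2 M with hk
  set l : ℕ := Nat.clog 2 N with hl
  have hpk : p ≤ k := (Nat.pow_le_pow_iff_right (by norm_num)).mp (hM.trans hk1)
  have hpl : p ≤ l := (Nat.pow_le_pow_iff_right (by norm_num)).mp (hN.trans hl1)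
  have hkl : k ≤ (R + 1) * l := by
    have h1 : 2 ^ k ≤ 2 ^ (1 + l * R) := by
      calc 2 ^ k ≤ 2 * M := hk2
        _ ≤ 2 * N ^ R := by omega
        _ ≤ 2 * (2 ^ l) ^ R := Nat.mul_le_mul_left 2 (Nat.pow_le_pow_left hl1 R)
        _ = 2 ^ (1 + l * R) := by rw [pow_add, pow_one, pow_mul]
    have h2 := (Nat.pow_le_pow_iff_right (by norm_num)).mp h1
    nlinarith
  have hlk : l ≤ (R + 1) * k := by
    have h1 : 2 ^ l ≤ 2 ^ (1 + k * R) := by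
      calc 2 ^ l ≤ 2 * N := hl2
        _ ≤ 2 * M ^ R := by omega
        _ ≤ 2 * (2 ^ k) ^ R := Nat.mul_le_mul_left 2 (Nat.pow_le_pow_left hk1 R)
        _ = 2 ^ (1 + k * R) := by rw [pow_add, pow_one, pow_mul]
    have h2 := (Nat.pow_le_pow_iff_right (by norm_num)).mp h1
    nlinarith
  have h2k : (1 : ℝ) ≤ (2 : ℝ) ^ k := one_le_pow₀ (by norm_num)
  have h2l : (1 : ℝ) ≤ (2 : ℝ) ^ l := one_le_pow₀ (by norm_num)
  set B : ℕ → ℕ := fun n => ⌊β * (n : ℝ) ^ c'⌋₊ with hBdef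
  -- enlarge the range
  have hT : ∑ m ∈ Icc 1 M, ∑ n ∈ Icc 1 N, f (A m) (B n) ≤ (2 : ℝ) ^ k * ∑ n ∈ Icc 1 (2 ^ l), G k (B n) := by
    have e1 : (2 : ℝ) ^ k * ∑ n ∈ Icc 1 (2 ^ l), G k (B n) = ∑ m ∈ Icc 1 (2 ^ k), ∑ n ∈ Icc 1 (2 ^ l), f (A m) (B n) := by
      rw [hG]
      simp only
      rw [← Finset.mul_sum, ← mul_assoc, mul_inv_cancel₀ (by positivity), one_mul, Finset.sum_comm]
    rw [e1]
    calc ∑ m ∈ Icc 1 M, ∑ n ∈ Icc 1 N, f (A m) (B n) ≤ ∑ m ∈ Icc 1 M, ∑ n ∈ Icc 1 (2 ^ l), f (A m) (B n) := by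
          apply Finset.sum_le_sum
          intro m _
          exact Finset.sum_le_sum_of_subset_of_nonneg (Finset.Icc_subset_Icc_right hl1) fun _ _ _ => hf0 _ _
      _ ≤ _ := Finset.sum_le_sum_of_subset_of_nonneg (Finset.Icc_subset_Icc_right hk1) fun _ _ _ =>
          Finset.sum_nonneg fun _ _ => hf0 _ _
  -- the second law
  set X : ℕ := ⌊β * (((2 ^ l : ℕ)) : ℝ) ^ c'⌋₊ with hX
  have hXl : 2 ^ l ≤ X := hN1 (2 ^ l) (by
    have : l < 2 ^ l := Nat.lt_two_pow_self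
    omega)
  have hX2 : 2 ≤ X := by
    have : 2 ^ p ≤ 2 ^ l := Nat.pow_le_pow_right (by norm_num) hpl
    omega
  obtain ⟨hj1', hj2'⟩ := clog_le hX2
  set j : ℕ := Nat.clog 2 X with hj
  have hlj : l ≤ j := (Nat.pow_le_pow_iff_right (by norm_num)).mp (hXl.trans hj1')
  have hXup : (X : ℝ) ≤ β * ((2 : ℝ) ^ l) ^ c' := by
    have h0 : (X : ℝ) ≤ β * (((2 ^ l : ℕ)) : ℝ) ^ c' := Nat.floor_le (by positivity)
    rw [Nat.cast_pow, Nat.cast_ofNat] at h0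
    exact h0
  have h2j : (2 : ℝ) ^ j ≤ 2 * (β * ((2 : ℝ) ^ l) ^ c') := by
    have h1 : (2 : ℝ) ^ j ≤ 2 * X := by exact_mod_cast hj2'
    linarith
  have hjr : j ≤ r1 * k := by
    have h1 := Real.logb_le_logb_of_le (b := 2) (by norm_num) (by positivity) h2j
    rw [Real.logb_pow, Real.logb_self_eq_one (by norm_num), mul_one, Real.logb_mul (by norm_num) (by positivity),
      Real.logb_mul (by positivity) (by positivity), Real.logb_rpow_eq_mul_logb_of_pos (by positivity), Real.logb_pow,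
      Real.logb_self_eq_one (by norm_num), mul_one] at h1
    have h2 : (l : ℝ) ≤ (R + 1) * k := by exact_mod_cast hlk
    have h3 : (C0 : ℝ) ≤ k := by
      have : C0 ≤ k := by omega
      exact_mod_cast this
    have h4 : c' * l ≤ c' * ((R + 1) * k) := mul_le_mul_of_nonneg_left h2 hc0'.le
    have h5 : (c' * (R + 1) + 1) * k ≤ r1 * k := mul_le_mul_of_nonneg_right hr1 (Nat.cast_nonneg _)
    have h6 : (j : ℝ) ≤ (r1 : ℝ) * k := by nlinarith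
    exact_mod_cast h6
  have s2 := hlaw2' k (2 ^ l) (by omega) Nat.one_le_two_pow
  have s2' := (abs_le.mp s2).2
  have e2 : b * ∑ t ∈ Ioc 0 X, wt c' t * G k t ≤
      ((2 : ℝ) ^ k)⁻¹ * (2 * (2 : ℝ) ^ l) * ∑ m ∈ Icc 1 (2 ^ k), H j (A m) := by
    have e3 : ∑ t ∈ Ioc 0 X, wt c' t * G k t = ((2 : ℝ) ^ k)⁻¹ * ∑ m ∈ Icc 1 (2 ^ k), ∑ t ∈ Ioc 0 X, wt c' t * f (A m) t := by
      rw [hG]
      simp only
      rw [Finset.sum_comm, Finset.mul_sum]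
      apply Finset.sum_congr rfl
      intro t _
      rw [← Finset.mul_sum]
      ring
    have e4 : ∀ m, ∑ t ∈ Ioc 0 X, wt c' t * f (A m) t ≤ ((2 : ℝ) ^ j) ^ (1 / c') * H j (A m) := by
      intro m
      have e5 : ((2 : ℝ) ^ j) ^ (1 / c') * H j (A m) = ∑ t ∈ Ioc 0 (2 ^ j), wt c' t * f (A m) t := by
        rw [hH]
        simp only
        rw [← mul_assoc, ← Real.rpow_add (by positivity)]
        simp
      rw [e5]
      exact Finset.sum_le_sum_of_subset_of_nonneg (Finset.Ioc_subset_Ioc_right hj1') fun t _ _ =>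
        mul_nonneg (wt_nonneg hc' t) (hf0 _ _)
    have e5 : b * ((2 : ℝ) ^ j) ^ (1 / c') ≤ 2 * (2 : ℝ) ^ l := by
      have e6 : ((2 : ℝ) ^ j) ^ (1 / c') ≤ (2 * (β * ((2 : ℝ) ^ l) ^ c')) ^ (1 / c') :=
        Real.rpow_le_rpow (by positivity) h2j (by positivity)
      have e7 : (2 * (β * ((2 : ℝ) ^ l) ^ c')) ^ (1 / c') = (2 : ℝ) ^ (1 / c') * (β ^ (1 / c') * (2 : ℝ) ^ l) := by
        rw [Real.mul_rpow (by norm_num) (by positivity), Real.mul_rpow hβ.le (by positivity),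
          ← Real.rpow_mul (by positivity), mul_one_div_cancel hc0'.ne', Real.rpow_one]
      have e8 : (2 : ℝ) ^ (1 / c') ≤ 2 := by
        calc (2 : ℝ) ^ (1 / c') ≤ (2 : ℝ) ^ (1 : ℝ) :=
              Real.rpow_le_rpow_of_exponent_le (by norm_num) (by rw [div_le_one hc0']; exact hc'.le)
          _ = 2 := Real.rpow_one 2
      have e9 : b * β ^ (1 / c') = 1 := by
        rw [hb, ← Real.rpow_add hβ]
        simp
      calc b * ((2 : ℝ) ^ j) ^ (1 / c') ≤ b * ((2 : ℝ) ^ (1 / c') * (β ^ (1 / c') * (2 : ℝ) ^ l)) := by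
            rw [← e7]
            exact mul_le_mul_of_nonneg_left e6 hb0.le
        _ = (2 : ℝ) ^ (1 / c') * ((b * β ^ (1 / c')) * (2 : ℝ) ^ l) := by ring
        _ = (2 : ℝ) ^ (1 / c') * (2 : ℝ) ^ l := by rw [e9, one_mul]
        _ ≤ _ := mul_le_mul_of_nonneg_right e8 (by positivity)
    have hHn : 0 ≤ ∑ m ∈ Icc 1 (2 ^ k), H j (A m) := by
      apply Finset.sum_nonneg
      intro m _
      rw [hH]
      exact mul_nonneg (by positivity) (hinner _ _)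
    rw [e3]
    calc b * (((2 : ℝ) ^ k)⁻¹ * ∑ m ∈ Icc 1 (2 ^ k), ∑ t ∈ Ioc 0 X, wt c' t * f (A m) t)
        ≤ b * (((2 : ℝ) ^ k)⁻¹ * ∑ m ∈ Icc 1 (2 ^ k), ((2 : ℝ) ^ j) ^ (1 / c') * H j (A m)) := by
          apply mul_le_mul_of_nonneg_left _ hb0.le
          apply mul_le_mul_of_nonneg_left _ (by positivity)
          exact Finset.sum_le_sum fun m _ => e4 m
      _ = ((2 : ℝ) ^ k)⁻¹ * (b * ((2 : ℝ) ^ j) ^ (1 / c')) * ∑ m ∈ Icc 1 (2 ^ k), H j (A m) := by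
          rw [← Finset.mul_sum]
          ring
      _ ≤ _ := by
          apply mul_le_mul_of_nonneg_right _ hHn
          exact mul_le_mul_of_nonneg_left e5 (by positivity)
  -- the first law
  set Y : ℕ := ⌊α * (((2 ^ k : ℕ)) : ℝ) ^ c⌋₊ with hY
  have s1 := hlaw1' j (2 ^ k) (by omega) Nat.one_le_two_pow
  have s1' := (abs_le.mp s1).2
  have e3 : a * ∑ s ∈ Ioc 0 Y, wt c s * H j s ≤ (ε / 32) * (2 : ℝ) ^ k + L * ((2 : ℝ) ^ l) ^ (-(1 / c')) * (2 : ℝ) ^ k + a * L := by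
    have e4 := two_abel hc hc' f hf1 (show 0 < ε / 32 by positivity) L hL Y (2 ^ j)
    push_cast at e4
    have e5 : ∑ s ∈ Ioc 0 Y, wt c s * H j s =
        ((2 : ℝ) ^ j) ^ (-(1 / c')) * ∑ s ∈ Ioc 0 Y, wt c s * ∑ t ∈ Ioc 0 (2 ^ j), wt c' t * f s t := by
      rw [hH]
      simp only
      rw [Finset.mul_sum]
      exact Finset.sum_congr rfl fun s _ => by ring
    set P : ℝ := ((2 : ℝ) ^ j) ^ (-(1 / c')) with hP
    have hP0 : 0 < P := by positivity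
    have hPQ : P * ((2 : ℝ) ^ j) ^ (1 / c') = 1 := by
      rw [hP, ← Real.rpow_add (by positivity)]
      simp
    have e6 : a * (Y : ℝ) ^ (1 / c) ≤ (2 : ℝ) ^ k := by
      have e7 : (Y : ℝ) ≤ α * ((2 : ℝ) ^ k) ^ c := by
        have h0 : (Y : ℝ) ≤ α * (((2 ^ k : ℕ)) : ℝ) ^ c := Nat.floor_le (by positivity)
        rw [Nat.cast_pow, Nat.cast_ofNat] at h0
        exact h0
      have e8 : (Y : ℝ) ^ (1 / c) ≤ (α * ((2 : ℝ) ^ k) ^ c) ^ (1 / c) := Real.rpow_le_rpow (Nat.cast_nonneg _) e7 (by positivity)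
      have e9 : (α * ((2 : ℝ) ^ k) ^ c) ^ (1 / c) = α ^ (1 / c) * (2 : ℝ) ^ k := by
        rw [Real.mul_rpow hα.le (by positivity), ← Real.rpow_mul (by positivity), mul_one_div_cancel hc0.ne', Real.rpow_one]
      have e10 : a * α ^ (1 / c) = 1 := by
        rw [ha, ← Real.rpow_add hα]
        simp
      calc a * (Y : ℝ) ^ (1 / c) ≤ a * (α ^ (1 / c) * (2 : ℝ) ^ k) := by
            rw [← e9]
            exact mul_le_mul_of_nonneg_left e8 ha0.le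
        _ = (a * α ^ (1 / c)) * (2 : ℝ) ^ k := by ring
        _ = (2 : ℝ) ^ k := by rw [e10, one_mul]
    have e7 : P ≤ ((2 : ℝ) ^ l) ^ (-(1 / c')) := by
      rw [hP]
      apply Real.rpow_le_rpow_of_nonpos (by positivity)
      · exact pow_le_pow_right₀ (by norm_num) hlj
      · have : 0 < 1 / c' := by positivity
        linarith
    rw [e5]
    calc a * (P * ∑ s ∈ Ioc 0 Y, wt c s * ∑ t ∈ Ioc 0 (2 ^ j), wt c' t * f s t)
        ≤ a * (P * (ε / 32 * (Y : ℝ) ^ (1 / c) * ((2 : ℝ) ^ j) ^ (1 / c') + L * (Y : ℝ) ^ (1 / c) +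
            L * ((2 : ℝ) ^ j) ^ (1 / c'))) := by
          apply mul_le_mul_of_nonneg_left _ ha0.le
          exact mul_le_mul_of_nonneg_left e4 hP0.le
      _ = ε / 32 * (a * (Y : ℝ) ^ (1 / c)) * (P * ((2 : ℝ) ^ j) ^ (1 / c')) + L * P * (a * (Y : ℝ) ^ (1 / c)) +
            a * L * (P * ((2 : ℝ) ^ j) ^ (1 / c')) := by ring
      _ = ε / 32 * (a * (Y : ℝ) ^ (1 / c)) + L * P * (a * (Y : ℝ) ^ (1 / c)) + a * L := by rw [hPQ]; ring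
      _ ≤ _ := by
          have q1 : ε / 32 * (a * (Y : ℝ) ^ (1 / c)) ≤ ε / 32 * (2 : ℝ) ^ k := mul_le_mul_of_nonneg_left e6 (by positivity)
          have q2 : L * P * (a * (Y : ℝ) ^ (1 / c)) ≤ L * ((2 : ℝ) ^ l) ^ (-(1 / c')) * (2 : ℝ) ^ k := by
            apply mul_le_mul _ e6 (by positivity) (by positivity)
            exact mul_le_mul_of_nonneg_left e7 (Nat.cast_nonneg _)
          linarith
  -- the errors
  have q1 : a * L ≤ η * (2 : ℝ) ^ k := by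
    have := hp1 k (by omega)
    rw [Real.rpow_neg (by positivity), Real.rpow_one, ← div_eq_mul_inv, div_le_iff₀ (by positivity)] at this
    exact this
  have q2 : (L : ℝ) * ((2 : ℝ) ^ l) ^ (-(1 / c')) ≤ η := hp2 l (by omega)
  have q3 : K1 * (((2 ^ k : ℕ)) : ℝ) ^ (1 - κ1) ≤ η * (2 : ℝ) ^ k := by
    have h1 := hp3 k (by omega)
    push_cast
    have h2 : ((2 : ℝ) ^ k) ^ (1 - κ1) = ((2 : ℝ) ^ k) ^ (-κ1) * (2 : ℝ) ^ k := by
      rw [← Real.rpow_add_one (by positivity)]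
      congr 1
      ring
    rw [h2, ← mul_assoc]
    exact mul_le_mul_of_nonneg_right h1 (by positivity)
  have q4 : K1 * ((2 : ℝ) ^ (j / r1)) ^ (1 / c) ≤ η * (2 : ℝ) ^ k := by
    have h1 := hp4 k (by omega)
    have h2 : j / r1 ≤ k := by
      rw [Nat.div_le_iff_le_mul_add_pred hr1p]
      nlinarith
    have h3 : ((2 : ℝ) ^ (j / r1)) ^ (1 / c) ≤ ((2 : ℝ) ^ k) ^ (1 / c) :=
      Real.rpow_le_rpow (by positivity) (pow_le_pow_right₀ (by norm_num) h2) (by positivity)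
    have h4 : ((2 : ℝ) ^ k) ^ (1 / c) = ((2 : ℝ) ^ k) ^ (-(1 - 1 / c)) * (2 : ℝ) ^ k := by
      rw [← Real.rpow_add_one (by positivity)]
      congr 1
      ring
    calc K1 * ((2 : ℝ) ^ (j / r1)) ^ (1 / c) ≤ K1 * ((2 : ℝ) ^ k) ^ (1 / c) := mul_le_mul_of_nonneg_left h3 hK1.le
      _ = K1 * ((2 : ℝ) ^ k) ^ (-(1 - 1 / c)) * (2 : ℝ) ^ k := by rw [h4]; ring
      _ ≤ _ := mul_le_mul_of_nonneg_right h1 (by positivity)
  have q5 : K2 * (((2 ^ l : ℕ)) : ℝ) ^ (1 - κ2) ≤ η * (2 : ℝ) ^ l := by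
    have h1 := hp5 l (by omega)
    push_cast
    have h2 : ((2 : ℝ) ^ l) ^ (1 - κ2) = ((2 : ℝ) ^ l) ^ (-κ2) * (2 : ℝ) ^ l := by
      rw [← Real.rpow_add_one (by positivity)]
      congr 1
      ring
    rw [h2, ← mul_assoc]
    exact mul_le_mul_of_nonneg_right h1 (by positivity)
  have q6 : K2 * ((2 : ℝ) ^ (k / (R + 1))) ^ (1 / c') ≤ η * (2 : ℝ) ^ l := by
    have h1 := hp6 l (by omega)
    have h2 : k / (R + 1) ≤ l := by
      rw [Nat.div_le_iff_le_mul_add_pred (Nat.succ_pos R)]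
      nlinarith
    have h3 : ((2 : ℝ) ^ (k / (R + 1))) ^ (1 / c') ≤ ((2 : ℝ) ^ l) ^ (1 / c') :=
      Real.rpow_le_rpow (by positivity) (pow_le_pow_right₀ (by norm_num) h2) (by positivity)
    have h4 : ((2 : ℝ) ^ l) ^ (1 / c') = ((2 : ℝ) ^ l) ^ (-(1 - 1 / c')) * (2 : ℝ) ^ l := by
      rw [← Real.rpow_add_one (by positivity)]
      congr 1
      ring
    calc K2 * ((2 : ℝ) ^ (k / (R + 1))) ^ (1 / c') ≤ K2 * ((2 : ℝ) ^ l) ^ (1 / c') := mul_le_mul_of_nonneg_left h3 hK2.le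
      _ = K2 * ((2 : ℝ) ^ l) ^ (-(1 - 1 / c')) * (2 : ℝ) ^ l := by rw [h4]; ring
      _ ≤ _ := mul_le_mul_of_nonneg_right h1 (by positivity)
  -- conclusion
  have z1 : ∑ m ∈ Icc 1 (2 ^ k), H j (A m) ≤ (ε / 16) * (2 : ℝ) ^ k := by
    have h1 : ∑ m ∈ Icc 1 (2 ^ k), H j (A m) ≤ a * ∑ s ∈ Ioc 0 Y, wt c s * H j s +
        (K1 * (((2 ^ k : ℕ)) : ℝ) ^ (1 - κ1) + K1 * ((2 : ℝ) ^ (j / r1)) ^ (1 / c)) := by
      linarith
    have h2 : (L : ℝ) * ((2 : ℝ) ^ l) ^ (-(1 / c')) * (2 : ℝ) ^ k ≤ η * (2 : ℝ) ^ k :=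
      mul_le_mul_of_nonneg_right q2 (by positivity)
    have h3 : (ε / 16) * (2 : ℝ) ^ k = ε / 32 * (2 : ℝ) ^ k + η * (2 : ℝ) ^ k + η * (2 : ℝ) ^ k + η * (2 : ℝ) ^ k + η * (2 : ℝ) ^ k := by
      rw [hη]; ring
    rw [h3]
    linarith
  have z2 : ∑ n ∈ Icc 1 (2 ^ l), G k (B n) ≤ (ε / 4) * (2 : ℝ) ^ l := by
    have h1 : ∑ n ∈ Icc 1 (2 ^ l), G k (B n) ≤ b * ∑ t ∈ Ioc 0 X, wt c' t * G k t +
        (K2 * (((2 ^ l : ℕ)) : ℝ) ^ (1 - κ2) + K2 * ((2 : ℝ) ^ (k / (R + 1))) ^ (1 / c')) := by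
      linarith
    have h2 : ((2 : ℝ) ^ k)⁻¹ * (2 * (2 : ℝ) ^ l) * ∑ m ∈ Icc 1 (2 ^ k), H j (A m) ≤ (ε / 8) * (2 : ℝ) ^ l := by
      calc ((2 : ℝ) ^ k)⁻¹ * (2 * (2 : ℝ) ^ l) * ∑ m ∈ Icc 1 (2 ^ k), H j (A m)
          ≤ ((2 : ℝ) ^ k)⁻¹ * (2 * (2 : ℝ) ^ l) * ((ε / 16) * (2 : ℝ) ^ k) := mul_le_mul_of_nonneg_left z1 (by positivity)
        _ = (ε / 8) * (2 : ℝ) ^ l * (((2 : ℝ) ^ k)⁻¹ * (2 : ℝ) ^ k) := by ring
        _ = _ := by rw [inv_mul_cancel₀ (by positivity), mul_one]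
    have h3 : η * (2 : ℝ) ^ l ≤ (ε / 16) * (2 : ℝ) ^ l := mul_le_mul_of_nonneg_right (by rw [hη]; linarith) (by positivity)
    have h4 : (ε / 4) * (2 : ℝ) ^ l = (ε / 8) * (2 : ℝ) ^ l + (ε / 16) * (2 : ℝ) ^ l + (ε / 16) * (2 : ℝ) ^ l := by ring
    rw [h4]
    linarith
  have z3 : (2 : ℝ) ^ k ≤ 2 * M := by exact_mod_cast hk2
  have z4 : (2 : ℝ) ^ l ≤ 2 * N := by exact_mod_cast hl2
  calc ∑ m ∈ Icc 1 M, ∑ n ∈ Icc 1 N, f (A m) (B n) ≤ (2 : ℝ) ^ k * ∑ n ∈ Icc 1 (2 ^ l), G k (B n) := hT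
    _ ≤ (2 : ℝ) ^ k * ((ε / 4) * (2 : ℝ) ^ l) := mul_le_mul_of_nonneg_left z2 (by positivity)
    _ = (ε / 4) * ((2 : ℝ) ^ k * (2 : ℝ) ^ l) := by ring
    _ ≤ (ε / 4) * ((2 * M) * (2 * N)) := by
        apply mul_le_mul_of_nonneg_left _ (by positivity)
        exact mul_le_mul z3 z4 (by positivity) (by positivity)
    _ = ε * M * N := by ring

end Pool.Agent.Y854.GM
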