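import Mathlib

/-! The Borel-Cantelli argument for windows around `α v_n`: sets `S n` of density at most `κ n` on all scales and windows
of length `L n` with `∑ κ n L n < ∞` meet only finitely often, for almost every `α`. -/

set_option autoImplicit false

open Finset Filter Topology MeasureTheory

namespace Pool.Agent.Y854.GM

open scoped ENNReal NNReal

/-- one range of amplitudes, one index -/
theorem vol_le {T : Type} (S : Set T) (h : T → ℝ) {v L κ : ℝ} (hv : 1 ≤ v) (hL0 : 0 ≤ L) (hLv : L ≤ v) (hκ : 0 ≤ κ)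
    (hS : ∀ X : ℝ, 1 ≤ X → {t | t ∈ S ∧ h t ≤ X}.Finite ∧ ({t | t ∈ S ∧ h t ≤ X}.ncard : ℝ) ≤ κ * X) (A : ℕ) :
    volume {α : ℝ | 0 < α ∧ α ≤ A ∧ ∃ t ∈ S, |h t - α * v| ≤ L} ≤ ENNReal.ofReal (2 * (A + 1) * (κ * L)) := by
  have hv0 : 0 < v := by linarith
  have hX : 1 ≤ ((A : ℝ) + 1) * v := by
    have : (0 : ℝ) ≤ A := Nat.cast_nonneg _
    nlinarith
  obtain ⟨hfin, hcard⟩ := hS _ hX
  have hsub : {α : ℝ | 0 < α ∧ α ≤ A ∧ ∃ t ∈ S, |h t - α * v| ≤ L} ⊆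
      ⋃ t ∈ hfin.toFinset, Metric.closedBall (h t / v) (L / v) := by
    rintro α ⟨hα, hαA, t, ht, hw⟩
    rw [Set.mem_iUnion₂]
    refine ⟨t, ?_, ?_⟩
    · rw [Set.Finite.mem_toFinset]
      refine ⟨ht, ?_⟩
      have h1 := (abs_le.1 hw).2
      nlinarith
    · rw [Metric.mem_closedBall, Real.dist_eq, abs_sub_comm]
      have h1 : h t / v - α = (h t - α * v) / v := by
        field_simp
      rw [h1, abs_div, abs_of_pos hv0]
      exact div_le_div_of_nonneg_right hw hv0.le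
  calc volume {α : ℝ | 0 < α ∧ α ≤ A ∧ ∃ t ∈ S, |h t - α * v| ≤ L}
      ≤ volume (⋃ t ∈ hfin.toFinset, Metric.closedBall (h t / v) (L / v)) := measure_mono hsub
    _ ≤ ∑ t ∈ hfin.toFinset, volume (Metric.closedBall (h t / v) (L / v)) := measure_biUnion_finset_le _ _
    _ = ∑ _t ∈ hfin.toFinset, ENNReal.ofReal (2 * (L / v)) := by
        apply Finset.sum_congr rfl
        intro t _
        rw [Real.volume_closedBall]
    _ = (hfin.toFinset.card : ℝ≥0∞) * ENNReal.ofReal (2 * (L / v)) := by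
        rw [Finset.sum_const, nsmul_eq_mul]
    _ = ENNReal.ofReal ((hfin.toFinset.card : ℝ) * (2 * (L / v))) := by
        rw [ENNReal.ofReal_mul (Nat.cast_nonneg _), ENNReal.ofReal_natCast]
    _ ≤ ENNReal.ofReal (2 * (A + 1) * (κ * L)) := by
        apply ENNReal.ofReal_le_ofReal
        have h2 : (hfin.toFinset.card : ℝ) ≤ κ * (((A : ℝ) + 1) * v) := by
          rw [← Set.ncard_eq_toFinset_card _ hfin]
          exact hcard
        calc (hfin.toFinset.card : ℝ) * (2 * (L / v)) ≤ κ * (((A : ℝ) + 1) * v) * (2 * (L / v)) :=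
              mul_le_mul_of_nonneg_right h2 (by positivity)
          _ = 2 * (A + 1) * (κ * L) := by
              field_simp

/-- **Borel-Cantelli for windows.** -/
theorem ae_windows {T : Type} (S : ℕ → Set T) (h : T → ℝ) (v L κ : ℕ → ℝ) (hv : ∀ n, 1 ≤ v n) (hL0 : ∀ n, 0 ≤ L n)
    (hLv : ∀ n, L n ≤ v n) (hκ : ∀ n, 0 ≤ κ n)
    (hS : ∀ n, ∀ X : ℝ, 1 ≤ X → {t | t ∈ S n ∧ h t ≤ X}.Finite ∧ ({t | t ∈ S n ∧ h t ≤ X}.ncard : ℝ) ≤ κ n * X)
    (hsum : Summable (fun n => κ n * L n)) :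
    ∃ E : Set ℝ, volume E = 0 ∧ ∀ α : ℝ, 0 < α → α ∉ E → ∃ n₀ : ℕ, ∀ n : ℕ, n₀ ≤ n → ∀ t ∈ S n,
      L n < |h t - α * v n| := by
  have hA : ∀ A : ℕ, volume {α : ℝ | ∃ᶠ n in atTop, 0 < α ∧ α ≤ A ∧ ∃ t ∈ S n, |h t - α * v n| ≤ L n} = 0 := by
    intro A
    apply measure_setOf_frequently_eq_zero
    have h1 : Summable (fun n => 2 * ((A : ℝ) + 1) * (κ n * L n)) := hsum.mul_left _
    have h2 : ∑' n, volume {α : ℝ | 0 < α ∧ α ≤ A ∧ ∃ t ∈ S n, |h t - α * v n| ≤ L n} ≤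
        ∑' n, ENNReal.ofReal (2 * ((A : ℝ) + 1) * (κ n * L n)) :=
      ENNReal.tsum_le_tsum (fun n => vol_le (S n) h (hv n) (hL0 n) (hLv n) (hκ n) (hS n) A)
    exact ne_top_of_le_ne_top h1.tsum_ofReal_ne_top h2
  refine ⟨⋃ A : ℕ, {α : ℝ | ∃ᶠ n in atTop, 0 < α ∧ α ≤ A ∧ ∃ t ∈ S n, |h t - α * v n| ≤ L n},
    (measure_iUnion_null_iff).2 hA, fun α hα hαE => ?_⟩
  rw [Set.mem_iUnion] at hαE
  push Not at hαE
  obtain ⟨A, hAα⟩ := exists_nat_ge α
  have h1 := hαE A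
  rw [Set.mem_setOf_eq, Filter.not_frequently, eventually_atTop] at h1
  obtain ⟨n₀, hn⟩ := h1
  refine ⟨n₀, fun n hn1 t ht => ?_⟩
  by_contra hcon
  push Not at hcon
  exact hn n hn1 ⟨hα, hAα, t, ht, hcon⟩

end Pool.Agent.Y854.GM
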