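import Pool.Agent.Y854.GM.Mean

/-! Partial summation, and lower bounds along the sequence. -/

set_option autoImplicit false

open Finset Filter

namespace Pool.Agent.Y854.GM

open Pool.Agent.Y854.PS
open Pool.Agent.Y854.ST (sum_wt_up sum_wt_low Ioc_zero wsum)

/-- partial summation with the decreasing weights -/
lemma w_lower {c : ℝ} (hc : 1 < c) (u : ℕ → ℝ) (C : ℝ) (h : ∀ X : ℕ, -C ≤ ∑ m ∈ Ioc 0 X, u m) (X : ℕ) :
    -(C * wt c 1) ≤ ∑ m ∈ Ioc 0 X, wt c m * u m := by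
  have hC : 0 ≤ C := by
    have := h 0
    simp at this
    linarith
  have key : ∀ X : ℕ, 1 ≤ X → (∑ m ∈ Ioc 0 X, u m) * wt c X - C * (wt c 1 - wt c X) ≤ ∑ m ∈ Ioc 0 X, wt c m * u m := by
    intro X hX
    induction X, hX using Nat.le_induction with
    | base =>
      have : Ioc 0 1 = {1} := rfl
      rw [this]
      simp only [sum_singleton]
      linarith [mul_comm (u 1) (wt c 1)]
    | succ t ht ih =>
      rw [← Finset.insert_Ioc_right_eq_Ioc_add_one (Nat.zero_le t), Finset.sum_insert (by simp),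
        Finset.sum_insert (by simp)]
      have h2 := wt_anti hc (by omega : 0 < t) (Nat.le_succ t)
      have h3 := h t
      have h4 : -C * (wt c t - wt c (t + 1)) ≤ (∑ m ∈ Ioc 0 t, u m) * (wt c t - wt c (t + 1)) :=
        mul_le_mul_of_nonneg_right h3 (by linarith)
      nlinarith
  rcases Nat.eq_zero_or_pos X with rfl | hX
  · simp only [Ioc_self, sum_empty]
    have := wt_nonneg hc 1
    have := mul_nonneg hC this
    linarith
  · refine le_trans ?_ (key X hX)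
    have h1 := h X
    have h2 := wt_nonneg hc X
    have h3 : -C * wt c X ≤ (∑ m ∈ Ioc 0 X, u m) * wt c X := mul_le_mul_of_nonneg_right h1 h2
    linarith

/-- **Lower bounds along the sequence.** If the sums of `u` are at least `δ X - C`, then the sums along the
sequence are at least `(δ - ε) N`, if the mean value law holds. -/
theorem seq_lower {α c κ : ℝ} (hα : 0 < α) (hc : 1 < c) (hκ : 0 < κ) (u : ℕ → ℝ) {δ C : ℝ}
    (hu : ∀ X : ℕ, δ * X - C ≤ ∑ m ∈ Ioc 0 X, u m) (N0 : ℕ) (hlaw : ∀ N : ℕ, N0 ≤ N →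
      |∑ n ∈ Icc 1 N, u ⌊α * (n : ℝ) ^ c⌋₊ -
        α ^ (-(1 / c)) * ∑ t ∈ Ioc 0 ⌊α * (N : ℝ) ^ c⌋₊, wt c t * u t| ≤ (N : ℝ) ^ (1 - κ)) (ε : ℝ) (hε : 0 < ε) :
    ∃ N1 : ℕ, ∀ N : ℕ, N1 ≤ N → (δ - ε) * N ≤ ∑ n ∈ Icc 1 N, u ⌊α * (n : ℝ) ^ c⌋₊ := by
  set a := α ^ (-(1 / c)) with ha
  have ha0 : 0 < a := Real.rpow_pos_of_pos hα _
  have hw1 := wt_nonneg hc 1
  set D : ℝ := |C| * wt c 1 * a + |δ| * a with hD
  have hD0 : 0 ≤ D := by positivity
  have hlim : Tendsto (fun N : ℕ => (N : ℝ) ^ κ) atTop atTop :=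
    (tendsto_rpow_atTop hκ).comp tendsto_natCast_atTop_atTop
  obtain ⟨N2, hN2⟩ := (hlim.eventually (eventually_ge_atTop (2 / ε))).exists_forall_of_atTop
  obtain ⟨N3, hN3⟩ := exists_nat_ge (2 * D / ε)
  refine ⟨max (max N0 1) (max N2 N3), fun N hN => ?_⟩
  have hNN0 : N0 ≤ N := ((le_max_left _ _).trans (le_max_left _ _)).trans hN
  have hN1' : 1 ≤ N := ((le_max_right _ _).trans (le_max_left _ _)).trans hN
  have hNN2 : N2 ≤ N := ((le_max_left _ _).trans (le_max_right _ _)).trans hN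
  have hNN3 : N3 ≤ N := ((le_max_right _ _).trans (le_max_right _ _)).trans hN
  have hNpos : (0 : ℝ) < N := by exact_mod_cast hN1'
  have h1 := hlaw N hNN0
  have h2 := wsum hα hc N
  have h3 : -(C * wt c 1) ≤ ∑ m ∈ Ioc 0 ⌊α * (N : ℝ) ^ c⌋₊, wt c m * (u m - δ) := by
    apply w_lower hc
    intro X
    have h4 := hu X
    rw [Finset.sum_sub_distrib, sum_const, Nat.card_Ioc, nsmul_eq_mul, Nat.sub_zero]
    linarith [mul_comm (X : ℝ) δ]
  have h4 : ∑ m ∈ Ioc 0 ⌊α * (N : ℝ) ^ c⌋₊, wt c m * (u m - δ) =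
      ∑ m ∈ Ioc 0 ⌊α * (N : ℝ) ^ c⌋₊, wt c m * u m - δ * ∑ m ∈ Ioc 0 (ms α c N), wt c m := by
    have h5 : ms α c N = ⌊α * (N : ℝ) ^ c⌋₊ := rfl
    rw [h5, Finset.mul_sum, ← Finset.sum_sub_distrib]
    apply Finset.sum_congr rfl
    intro m _
    ring
  rw [h4] at h3
  set W := ∑ m ∈ Ioc 0 (ms α c N), wt c m with hW
  have h5 : δ * (N : ℝ) - |δ| * a ≤ δ * (a * W) := by
    rcases le_total 0 δ with hd | hd
    · have := mul_le_mul_of_nonneg_left h2.1 hd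
      rw [abs_of_nonneg hd]
      linarith
    · have := mul_le_mul_of_nonpos_left h2.2 hd
      have h6 : 0 ≤ |δ| * a := by positivity
      linarith
  have h6 : -(|C| * wt c 1 * a) + δ * (a * W) ≤ a * ∑ m ∈ Ioc 0 ⌊α * (N : ℝ) ^ c⌋₊, wt c m * u m := by
    have h7 : C * wt c 1 ≤ |C| * wt c 1 := mul_le_mul_of_nonneg_right (le_abs_self C) hw1
    have h8 : -(|C| * wt c 1) + δ * W ≤ ∑ m ∈ Ioc 0 ⌊α * (N : ℝ) ^ c⌋₊, wt c m * u m := by linarith
    have h9 := mul_le_mul_of_nonneg_left h8 ha0.le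
    linarith
  have h7 : (N : ℝ) ^ (1 - κ) ≤ (ε / 2) * N := by
    have h8 := hN2 N hNN2
    have h9 : (N : ℝ) = (N : ℝ) ^ κ * (N : ℝ) ^ (1 - κ) := by
      rw [← Real.rpow_add hNpos]
      simp
    have h10 : (0 : ℝ) ≤ (N : ℝ) ^ (1 - κ) := by positivity
    have h11 : 1 ≤ (ε / 2) * (N : ℝ) ^ κ := by
      rw [div_le_iff₀ hε] at h8
      linarith
    calc (N : ℝ) ^ (1 - κ) = 1 * (N : ℝ) ^ (1 - κ) := (one_mul _).symm
      _ ≤ ((ε / 2) * (N : ℝ) ^ κ) * (N : ℝ) ^ (1 - κ) := mul_le_mul_of_nonneg_right h11 h10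
      _ = (ε / 2) * ((N : ℝ) ^ κ * (N : ℝ) ^ (1 - κ)) := by ring
      _ = (ε / 2) * N := by rw [← h9]
  have h8 : D ≤ (ε / 2) * N := by
    have h9 : 2 * D / ε ≤ N := hN3.trans (by exact_mod_cast hNN3)
    rw [div_le_iff₀ hε] at h9
    linarith
  rw [abs_le] at h1
  have h9 := h1.1
  linarith

end Pool.Agent.Y854.GM
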