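import Mathlib

/-! Binary digits. -/

set_option autoImplicit false

open Finset

namespace Pool.Agent.Y854.GM

/-- the binary digit -/
def bit (q b : ℕ) : ℕ := if q.testBit b then 1 else 0

lemma sum_bits (B q : ℕ) (h : q < 2 ^ B) : ∑ b ∈ range B, 2 ^ b * bit q b = q := by
  induction B generalizing q with
  | zero =>
    simp only [pow_zero] at h
    interval_cases q
    simp
  | succ B ih =>
    rw [Finset.sum_range_succ']
    have h1 : q / 2 < 2 ^ B := by
      rw [pow_succ] at h
      omega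
    have h2 : ∀ b, bit q (b + 1) = bit (q / 2) b := by
      intro b
      unfold bit
      rw [Nat.testBit_succ]
    have h3 : ∑ b ∈ range B, 2 ^ (b + 1) * bit q (b + 1) = 2 * (q / 2) := by
      rw [← ih (q / 2) h1, Finset.mul_sum]
      apply Finset.sum_congr rfl
      intro b _
      rw [h2, pow_succ]
      ring
    have h4 : bit q 0 = q % 2 := by
      unfold bit
      rw [Nat.testBit_zero]
      have := Nat.mod_two_eq_zero_or_one q
      rcases this with h | h <;> simp [h]
    rw [h3, h4]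
    simp only [pow_zero, one_mul]
    omega

lemma bit_le (q b : ℕ) : bit q b ≤ 1 := by unfold bit; split_ifs <;> norm_num

lemma bit_zero_of_lt {q b : ℕ} (h : q < 2 ^ b) : bit q b = 0 := by
  unfold bit
  rw [Nat.testBit_lt_two_pow h]
  simp

/-- the scaled integer part -/
noncomputable def qd (i : ℕ) (x : ℝ) : ℕ := ⌊x * 2 ^ i⌋₊

lemma qd_low (i : ℕ) {x : ℝ} (hx : 0 ≤ x) : (qd i x : ℝ) / 2 ^ i ≤ x := by
  have h1 : (qd i x : ℝ) ≤ x * 2 ^ i := Nat.floor_le (by positivity)
  rwa [div_le_iff₀ (by positivity)]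

lemma qd_up (i : ℕ) (x : ℝ) : x ≤ (qd i x : ℝ) / 2 ^ i + 1 / 2 ^ i := by
  have h1 : x * 2 ^ i < (qd i x : ℝ) + 1 := Nat.lt_floor_add_one _
  rw [← add_div, le_div_iff₀ (by positivity)]
  exact h1.le

end Pool.Agent.Y854.GM
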