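import Pool.Agent.Y854.GM.Samp
import Pool.Agent.Y854.GM.Bits

/-! Functions on one dyadic block. -/

set_option autoImplicit false

open Finset Filter

namespace Pool.Agent.Y854.GM

open Pool.Agent.Y854.PS

/-- the number of digits -/
def BB (i : ℕ) : ℕ := 3 * (i + 2)

/-- the function number `k`, with the sign `s` -/
noncomputable def sg (F : ℕ → ℕ → ℝ) (s k t : ℕ) : ℝ := if s = 0 then max (F k t) 0 else max (-(F k t)) 0

/-- the sets -/
def AF (F : ℕ → ℕ → ℝ) (i j : ℕ) : Set ℕ := {t | (qd i (sg F (j % 2) (j / 2 / BB i) t)).testBit (j / 2 % BB i) = true}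

/-- the number of the sets -/
def MF (i : ℕ) : ℕ := (i + 1) * BB i * 2

lemma MF_le (i : ℕ) : MF i ≤ (i + 2) ^ 4 := by
  unfold MF BB
  have h1 : 6 * (i + 1) ≤ (i + 2) ^ 3 := by nlinarith [Nat.zero_le i, sq_nonneg i]
  calc (i + 1) * (3 * (i + 2)) * 2 = (6 * (i + 1)) * (i + 2) := by ring
    _ ≤ (i + 2) ^ 3 * (i + 2) := Nat.mul_le_mul_right _ h1
    _ = (i + 2) ^ 4 := by ring

lemma BB_pos (i : ℕ) : 0 < BB i := by unfold BB; omega

lemma idx (F : ℕ → ℕ → ℝ) (i k b s : ℕ) (hb : b < BB i) (hs : s < 2) :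
    AF F i ((k * BB i + b) * 2 + s) = {t | (qd i (sg F s k t)).testBit b = true} := by
  unfold AF
  have h1 : ((k * BB i + b) * 2 + s) % 2 = s := by omega
  have h2 : ((k * BB i + b) * 2 + s) / 2 = k * BB i + b := by omega
  have h3 : (k * BB i + b) / BB i = k := by
    rw [mul_comm, Nat.mul_add_div (BB_pos i), Nat.div_eq_of_lt hb, add_zero]
  have h4 : (k * BB i + b) % BB i = b := by
    rw [mul_comm, Nat.mul_add_mod, Nat.mod_eq_of_lt hb]
  rw [h1, h2, h3, h4]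

lemma idx_lt (i k b s : ℕ) (hk : k ≤ i) (hb : b < BB i) (hs : s < 2) : (k * BB i + b) * 2 + s < MF i := by
  unfold MF
  have h1 : k * BB i + b < (i + 1) * BB i := by
    calc k * BB i + b < k * BB i + BB i := by omega
      _ = (k + 1) * BB i := by ring
      _ ≤ (i + 1) * BB i := Nat.mul_le_mul_right _ (by omega)
  omega

lemma sg_nonneg (F : ℕ → ℕ → ℝ) (s k t : ℕ) : 0 ≤ sg F s k t := by
  unfold sg; split_ifs <;> exact le_max_right _ _

lemma sg_le (F : ℕ → ℕ → ℝ) (s k t : ℕ) : sg F s k t ≤ |F k t| := by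
  unfold sg; split_ifs
  · exact max_le (le_abs_self _) (abs_nonneg _)
  · exact max_le (neg_le_abs _) (abs_nonneg _)

lemma sg_sub (F : ℕ → ℕ → ℝ) (k t : ℕ) : sg F 0 k t - sg F 1 k t = F k t := by
  unfold sg
  simp only [if_true, one_ne_zero, if_false]
  rcases le_total 0 (F k t) with h | h
  · rw [max_eq_left h, max_eq_right (by linarith), sub_zero]
  · rw [max_eq_right h, max_eq_left (by linarith)]
    ring

/-- the sum of the powers of two up to a bound -/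
lemma pow_sum_le (B : ℕ) (G : ℝ) (hG : 0 ≤ G) :
    ∑ b ∈ (range B).filter (fun b => (2 : ℝ) ^ b ≤ G), (2 : ℝ) ^ b ≤ 2 * G := by
  classical
  by_cases hne : ((range B).filter (fun b => (2 : ℝ) ^ b ≤ G)).Nonempty
  · set T := (range B).filter (fun b => (2 : ℝ) ^ b ≤ G) with hT
    set b0 := T.max' hne with hb0
    have h1 : T ⊆ range (b0 + 1) := by
      intro b hb
      rw [mem_range]
      have := T.le_max' b hb
      omega
    have h2 : (2 : ℝ) ^ b0 ≤ G := by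
      have := T.max'_mem hne
      rw [← hb0] at this
      rw [hT, mem_filter] at this
      exact this.2
    calc ∑ b ∈ T, (2 : ℝ) ^ b ≤ ∑ b ∈ range (b0 + 1), (2 : ℝ) ^ b :=
          Finset.sum_le_sum_of_subset_of_nonneg h1 fun _ _ _ => by positivity
      _ = 2 ^ (b0 + 1) - 1 := by
          rw [geom_sum_eq (by norm_num)]
          norm_num
      _ ≤ 2 * G := by
          rw [pow_succ]
          linarith
  · rw [Finset.not_nonempty_iff_eq_empty] at hne
    rw [hne, Finset.sum_empty]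
    positivity

open Classical in
/-- one function of one sign on one block -/
theorem blockG (F : ℕ → ℕ → ℝ) (m : ℕ → ℕ) (c a κ C : ℝ) (ha : 0 ≤ a) (i : ℕ) (k s : ℕ) (hk : k ≤ i) (hs : s < 2)
    (hc : 1 < c) (hC : 0 ≤ C)
    (u v : ℕ) (hu : 2 ^ i ≤ u) (huv : u ≤ v) (hv : v ≤ 2 ^ (i + 1)) (S : Finset ℕ)
    (hS : ∀ n, n ∈ S ↔ 1 ≤ n ∧ u < m n ∧ m n ≤ v)
    (hSamp : ∀ j < MF i, |∑ n ∈ S, (if m n ∈ AF F i j then (1 : ℝ) else 0) -
        a * ∑ t ∈ Ioc u v, wt c t * (if t ∈ AF F i j then (1 : ℝ) else 0)| ≤ C * ((2 : ℝ) ^ i) ^ (1 / c - κ))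
    (G : ℝ) (hG0 : 0 ≤ G) (hG : ∀ t, u < t → t ≤ v → |F k t| ≤ G) (hG2 : G ≤ (2 : ℝ) ^ i) :
    |∑ n ∈ S, sg F s k (m n) - a * ∑ t ∈ Ioc u v, wt c t * sg F s k t| ≤
      2 * G * (C * ((2 : ℝ) ^ i) ^ (1 / c - κ)) + (S.card + a * ∑ t ∈ Ioc u v, wt c t) / 2 ^ i := by
  set f : ℕ → ℝ := sg F s k with hf
  have hf0 : ∀ t, 0 ≤ f t := fun t => sg_nonneg F s k t
  have hfG : ∀ t, u < t → t ≤ v → f t ≤ G := fun t h1 h2 => (sg_le F s k t).trans (hG t h1 h2)
  have h2i : (0 : ℝ) < 2 ^ i := by positivity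
  -- the digits
  have hq : ∀ t, u < t → t ≤ v → qd i (f t) < 2 ^ BB i := by
    intro t h1 h2
    have h3 : (qd i (f t) : ℝ) ≤ f t * 2 ^ i := Nat.floor_le (mul_nonneg (hf0 t) h2i.le)
    have h4 : f t * 2 ^ i ≤ 2 ^ i * 2 ^ i := mul_le_mul_of_nonneg_right ((hfG t h1 h2).trans hG2) h2i.le
    have h5 : ((2 : ℝ) ^ i * 2 ^ i) < 2 ^ BB i := by
      rw [← pow_add]
      apply pow_lt_pow_right₀ (by norm_num)
      unfold BB; omega
    have h6 : (qd i (f t) : ℝ) < 2 ^ BB i := by linarith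
    exact_mod_cast h6
  have hdec : ∀ t, u < t → t ≤ v → (∑ b ∈ range (BB i), (2 : ℝ) ^ b / 2 ^ i *
      (if t ∈ AF F i ((k * BB i + b) * 2 + s) then (1 : ℝ) else 0)) = (qd i (f t) : ℝ) / 2 ^ i := by
    intro t h1 h2
    have h3 := sum_bits (BB i) (qd i (f t)) (hq t h1 h2)
    have h4 : ((∑ b ∈ range (BB i), 2 ^ b * bit (qd i (f t)) b : ℕ) : ℝ) = (qd i (f t) : ℝ) := by
      rw [h3]
    rw [← h4]
    push_cast
    rw [Finset.sum_div]
    apply Finset.sum_congr rfl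
    intro b hb
    rw [mem_range] at hb
    have hm : t ∈ AF F i ((k * BB i + b) * 2 + s) ↔ (qd i (f t)).testBit b = true := by
      rw [idx F i k b s hb hs]
      exact Iff.rfl
    have h5 : (if t ∈ AF F i ((k * BB i + b) * 2 + s) then (1 : ℝ) else 0) = (bit (qd i (f t)) b : ℝ) := by
      unfold bit
      by_cases hh : (qd i (f t)).testBit b = true
      · rw [if_pos (hm.mpr hh), if_pos hh]; simp
      · rw [if_neg (fun h => hh (hm.mp h)), if_neg hh]; simp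
    rw [h5]
    ring
  -- the error of one digit
  have hdig : ∀ b ∈ range (BB i), |(2 : ℝ) ^ b / 2 ^ i * (∑ n ∈ S, (if m n ∈ AF F i ((k * BB i + b) * 2 + s) then (1 : ℝ) else 0) -
        a * ∑ t ∈ Ioc u v, wt c t * (if t ∈ AF F i ((k * BB i + b) * 2 + s) then (1 : ℝ) else 0))| ≤
      (if (2 : ℝ) ^ b ≤ G * 2 ^ i then (2 : ℝ) ^ b / 2 ^ i else 0) * (C * ((2 : ℝ) ^ i) ^ (1 / c - κ)) := by
    intro b hb
    rw [mem_range] at hb
    split_ifs with hbG
    · rw [abs_mul, abs_of_nonneg (by positivity)]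
      apply mul_le_mul_of_nonneg_left _ (by positivity)
      exact hSamp _ (idx_lt i k b s hk hb hs)
    · push Not at hbG
      have hz : ∀ t, u < t → t ≤ v → t ∉ AF F i ((k * BB i + b) * 2 + s) := by
        intro t h1 h2 h3
        rw [idx F i k b s hb hs, Set.mem_setOf_eq] at h3
        have h4 : qd i (f t) < 2 ^ b := by
          have h5 : (qd i (f t) : ℝ) ≤ f t * 2 ^ i := Nat.floor_le (mul_nonneg (hf0 t) h2i.le)
          have h6 : f t * 2 ^ i ≤ G * 2 ^ i := mul_le_mul_of_nonneg_right (hfG t h1 h2) h2i.le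
          have h7 : (qd i (f t) : ℝ) < 2 ^ b := by linarith
          exact_mod_cast h7
        rw [Nat.testBit_lt_two_pow h4] at h3
        exact absurd h3 (by simp)
      have e1 : ∑ n ∈ S, (if m n ∈ AF F i ((k * BB i + b) * 2 + s) then (1 : ℝ) else 0) = 0 := by
        apply Finset.sum_eq_zero
        intro n hn
        have h1 := (hS n).mp hn
        rw [if_neg (hz _ h1.2.1 h1.2.2)]
      have e2 : ∑ t ∈ Ioc u v, wt c t * (if t ∈ AF F i ((k * BB i + b) * 2 + s) then (1 : ℝ) else 0) = 0 := by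
        apply Finset.sum_eq_zero
        intro t ht
        rw [mem_Ioc] at ht
        rw [if_neg (hz _ ht.1 ht.2), mul_zero]
      rw [e1, e2]
      simp
  have hmain : |∑ n ∈ S, (qd i (f (m n)) : ℝ) / 2 ^ i - a * ∑ t ∈ Ioc u v, wt c t * ((qd i (f t) : ℝ) / 2 ^ i)| ≤
      2 * G * (C * ((2 : ℝ) ^ i) ^ (1 / c - κ)) := by
    have e1 : ∑ n ∈ S, (qd i (f (m n)) : ℝ) / 2 ^ i = ∑ b ∈ range (BB i), (2 : ℝ) ^ b / 2 ^ i *
        ∑ n ∈ S, (if m n ∈ AF F i ((k * BB i + b) * 2 + s) then (1 : ℝ) else 0) := by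
      simp only [Finset.mul_sum]
      rw [Finset.sum_comm]
      apply Finset.sum_congr rfl
      intro n hn
      have h1 := (hS n).mp hn
      exact (hdec _ h1.2.1 h1.2.2).symm
    have e2 : ∑ t ∈ Ioc u v, wt c t * ((qd i (f t) : ℝ) / 2 ^ i) = ∑ b ∈ range (BB i), (2 : ℝ) ^ b / 2 ^ i *
        ∑ t ∈ Ioc u v, wt c t * (if t ∈ AF F i ((k * BB i + b) * 2 + s) then (1 : ℝ) else 0) := by
      simp only [Finset.mul_sum]
      rw [Finset.sum_comm]
      apply Finset.sum_congr rfl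
      intro t ht
      rw [mem_Ioc] at ht
      rw [← hdec t ht.1 ht.2, Finset.mul_sum]
      apply Finset.sum_congr rfl
      intro b _
      ring
    rw [e1, e2, Finset.mul_sum, ← Finset.sum_sub_distrib]
    have e3 : ∀ b, (2 : ℝ) ^ b / 2 ^ i * ∑ n ∈ S, (if m n ∈ AF F i ((k * BB i + b) * 2 + s) then (1 : ℝ) else 0) -
        a * ((2 : ℝ) ^ b / 2 ^ i * ∑ t ∈ Ioc u v, wt c t * (if t ∈ AF F i ((k * BB i + b) * 2 + s) then (1 : ℝ) else 0)) =
        (2 : ℝ) ^ b / 2 ^ i * (∑ n ∈ S, (if m n ∈ AF F i ((k * BB i + b) * 2 + s) then (1 : ℝ) else 0) -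
        a * ∑ t ∈ Ioc u v, wt c t * (if t ∈ AF F i ((k * BB i + b) * 2 + s) then (1 : ℝ) else 0)) := by
      intro b; ring
    simp only [e3]
    refine (Finset.abs_sum_le_sum_abs _ _).trans ((Finset.sum_le_sum hdig).trans ?_)
    rw [← Finset.sum_mul]
    apply mul_le_mul_of_nonneg_right _ (by positivity)
    rw [← Finset.sum_filter, ← Finset.sum_div, div_le_iff₀ h2i]
    have := pow_sum_le (BB i) (G * 2 ^ i) (by positivity)
    linarith
  have hr1 : |∑ n ∈ S, f (m n) - ∑ n ∈ S, (qd i (f (m n)) : ℝ) / 2 ^ i| ≤ S.card / 2 ^ i := by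
    rw [← Finset.sum_sub_distrib]
    refine (Finset.abs_sum_le_sum_abs _ _).trans ?_
    calc ∑ n ∈ S, |f (m n) - (qd i (f (m n)) : ℝ) / 2 ^ i| ≤ ∑ n ∈ S, 1 / (2 : ℝ) ^ i := by
          apply Finset.sum_le_sum
          intro n _
          rw [abs_le]
          have h1 := qd_low i (hf0 (m n))
          have h2 := qd_up i (f (m n))
          have h3 : (0 : ℝ) < 1 / 2 ^ i := by positivity
          constructor <;> linarith
      _ = S.card / 2 ^ i := by rw [sum_const, nsmul_eq_mul]; ring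
  have hr2 : |a * ∑ t ∈ Ioc u v, wt c t * f t - a * ∑ t ∈ Ioc u v, wt c t * ((qd i (f t) : ℝ) / 2 ^ i)| ≤
      (a * ∑ t ∈ Ioc u v, wt c t) / 2 ^ i := by
    rw [← mul_sub, ← Finset.sum_sub_distrib, abs_mul, abs_of_nonneg ha, mul_div_assoc]
    apply mul_le_mul_of_nonneg_left _ ha
    refine (Finset.abs_sum_le_sum_abs _ _).trans ?_
    rw [Finset.sum_div]
    apply Finset.sum_le_sum
    intro t _
    have h0 : wt c t / 2 ^ i = wt c t * (1 / 2 ^ i) := by ring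
    rw [← mul_sub, abs_mul, abs_of_nonneg (wt_nonneg hc t), h0]
    apply mul_le_mul_of_nonneg_left _ (wt_nonneg hc t)
    rw [abs_le]
    have h1 := qd_low i (hf0 t)
    have h2 := qd_up i (f t)
    have h3 : (0 : ℝ) < 1 / 2 ^ i := by positivity
    constructor <;> linarith
  have e : ∑ n ∈ S, f (m n) - a * ∑ t ∈ Ioc u v, wt c t * f t =
      (∑ n ∈ S, (qd i (f (m n)) : ℝ) / 2 ^ i - a * ∑ t ∈ Ioc u v, wt c t * ((qd i (f t) : ℝ) / 2 ^ i)) +
      ((∑ n ∈ S, f (m n) - ∑ n ∈ S, (qd i (f (m n)) : ℝ) / 2 ^ i) -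
        (a * ∑ t ∈ Ioc u v, wt c t * f t - a * ∑ t ∈ Ioc u v, wt c t * ((qd i (f t) : ℝ) / 2 ^ i))) := by ring
  rw [e]
  refine (abs_add_le _ _).trans ?_
  have h9 := abs_sub (∑ n ∈ S, f (m n) - ∑ n ∈ S, (qd i (f (m n)) : ℝ) / 2 ^ i)
    (a * ∑ t ∈ Ioc u v, wt c t * f t - a * ∑ t ∈ Ioc u v, wt c t * ((qd i (f t) : ℝ) / 2 ^ i))
  rw [add_div]
  linarith

end Pool.Agent.Y854.GM
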