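import Pool.Agent.Y854.GM.Abel

/-! Mean values and upper bounds along the sequence. -/

set_option autoImplicit false

open Finset Filter Topology

namespace Pool.Agent.Y854.GM

open Pool.Agent.Y854.PS

/-- the law for the negative of a function -/
lemma law_neg {α c κ : ℝ} (u : ℕ → ℝ) (N0 : ℕ) (hlaw : ∀ N : ℕ, N0 ≤ N →
      |∑ n ∈ Icc 1 N, u ⌊α * (n : ℝ) ^ c⌋₊ -
        α ^ (-(1 / c)) * ∑ t ∈ Ioc 0 ⌊α * (N : ℝ) ^ c⌋₊, wt c t * u t| ≤ (N : ℝ) ^ (1 - κ)) :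
    ∀ N : ℕ, N0 ≤ N → |∑ n ∈ Icc 1 N, (fun m => -u m) ⌊α * (n : ℝ) ^ c⌋₊ -
        α ^ (-(1 / c)) * ∑ t ∈ Ioc 0 ⌊α * (N : ℝ) ^ c⌋₊, wt c t * (fun m => -u m) t| ≤ (N : ℝ) ^ (1 - κ) := by
  intro N hN
  have h := hlaw N hN
  have e1 : ∑ n ∈ Icc 1 N, (fun m => -u m) ⌊α * (n : ℝ) ^ c⌋₊ = -∑ n ∈ Icc 1 N, u ⌊α * (n : ℝ) ^ c⌋₊ := by
    rw [← Finset.sum_neg_distrib]
  have e2 : ∑ t ∈ Ioc 0 ⌊α * (N : ℝ) ^ c⌋₊, wt c t * (fun m => -u m) t =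
      -∑ t ∈ Ioc 0 ⌊α * (N : ℝ) ^ c⌋₊, wt c t * u t := by
    rw [← Finset.sum_neg_distrib]
    exact Finset.sum_congr rfl fun t _ => by ring
  rw [e1, e2]
  have e3 : -∑ n ∈ Icc 1 N, u ⌊α * (n : ℝ) ^ c⌋₊ - α ^ (-(1 / c)) * -∑ t ∈ Ioc 0 ⌊α * (N : ℝ) ^ c⌋₊, wt c t * u t =
      -(∑ n ∈ Icc 1 N, u ⌊α * (n : ℝ) ^ c⌋₊ - α ^ (-(1 / c)) * ∑ t ∈ Ioc 0 ⌊α * (N : ℝ) ^ c⌋₊, wt c t * u t) := by ring
  rw [e3, abs_neg]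
  exact h

/-- **Upper bounds along the sequence.** -/
theorem seq_upper {α c κ : ℝ} (hα : 0 < α) (hc : 1 < c) (hκ : 0 < κ) (u : ℕ → ℝ) {δ C : ℝ}
    (hu : ∀ X : ℕ, ∑ m ∈ Ioc 0 X, u m ≤ δ * X + C) (N0 : ℕ) (hlaw : ∀ N : ℕ, N0 ≤ N →
      |∑ n ∈ Icc 1 N, u ⌊α * (n : ℝ) ^ c⌋₊ -
        α ^ (-(1 / c)) * ∑ t ∈ Ioc 0 ⌊α * (N : ℝ) ^ c⌋₊, wt c t * u t| ≤ (N : ℝ) ^ (1 - κ)) (ε : ℝ) (hε : 0 < ε) :
    ∃ N1 : ℕ, ∀ N : ℕ, N1 ≤ N → ∑ n ∈ Icc 1 N, u ⌊α * (n : ℝ) ^ c⌋₊ ≤ (δ + ε) * N := by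
  have h1 : ∀ X : ℕ, -δ * X - C ≤ ∑ m ∈ Ioc 0 X, (fun m => -u m) m := by
    intro X
    rw [Finset.sum_neg_distrib]
    linarith [hu X]
  obtain ⟨N1, hN1⟩ := seq_lower hα hc hκ (fun m => -u m) h1 N0 (law_neg u N0 hlaw) ε hε
  refine ⟨N1, fun N hN => ?_⟩
  have := hN1 N hN
  simp only [Finset.sum_neg_distrib] at this
  linarith

/-- lower bounds of the partial sums from the mean value -/
lemma partial_lower (u : ℕ → ℝ) {δ : ℝ}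
    (hu : Tendsto (fun X : ℕ => (∑ m ∈ Ioc 0 X, u m) / X) atTop (𝓝 δ)) (ε : ℝ) (hε : 0 < ε) :
    ∃ C : ℝ, ∀ X : ℕ, (δ - ε) * X - C ≤ ∑ m ∈ Ioc 0 X, u m := by
  obtain ⟨X0, hX0⟩ := (hu.eventually (eventually_gt_nhds (show δ - ε < δ by linarith))).exists_forall_of_atTop
  refine ⟨∑ m ∈ Ioc 0 X0, |u m| + |δ - ε| * X0, fun X => ?_⟩
  have h0 : 0 ≤ ∑ m ∈ Ioc 0 X0, |u m| := Finset.sum_nonneg fun _ _ => abs_nonneg _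
  have h00 : 0 ≤ |δ - ε| * (X0 : ℝ) := by positivity
  rcases le_total X0 X with h | h
  · have h1 := hX0 X h
    rcases Nat.eq_zero_or_pos X with rfl | hX
    · simp only [Nat.cast_zero, mul_zero, Ioc_self, sum_empty]
      linarith
    · have hXp : (0 : ℝ) < X := by exact_mod_cast hX
      rw [lt_div_iff₀ hXp] at h1
      linarith
  · have h1 : -∑ m ∈ Ioc 0 X0, |u m| ≤ ∑ m ∈ Ioc 0 X, u m := by
      have h2 : ∑ m ∈ Ioc 0 X, |u m| ≤ ∑ m ∈ Ioc 0 X0, |u m| := by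
        apply Finset.sum_le_sum_of_subset_of_nonneg
        · exact Finset.Ioc_subset_Ioc_right h
        · intro _ _ _; exact abs_nonneg _
      have h3 := Finset.abs_sum_le_sum_abs u (Ioc 0 X)
      have h4 := neg_abs_le (∑ m ∈ Ioc 0 X, u m)
      linarith
    have h5 : (δ - ε) * (X : ℝ) ≤ |δ - ε| * X0 := by
      have h6 : (X : ℝ) ≤ X0 := by exact_mod_cast h
      calc (δ - ε) * (X : ℝ) ≤ |δ - ε| * X := mul_le_mul_of_nonneg_right (le_abs_self _) (Nat.cast_nonneg _)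
        _ ≤ |δ - ε| * X0 := mul_le_mul_of_nonneg_left h6 (abs_nonneg _)
    linarith

/-- **Mean values along the sequence.** -/
theorem seq_mean {α c κ : ℝ} (hα : 0 < α) (hc : 1 < c) (hκ : 0 < κ) (u : ℕ → ℝ) {δ : ℝ}
    (hu : Tendsto (fun X : ℕ => (∑ m ∈ Ioc 0 X, u m) / X) atTop (𝓝 δ)) (N0 : ℕ) (hlaw : ∀ N : ℕ, N0 ≤ N →
      |∑ n ∈ Icc 1 N, u ⌊α * (n : ℝ) ^ c⌋₊ -
        α ^ (-(1 / c)) * ∑ t ∈ Ioc 0 ⌊α * (N : ℝ) ^ c⌋₊, wt c t * u t| ≤ (N : ℝ) ^ (1 - κ)) :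
    Tendsto (fun N : ℕ => (∑ n ∈ Icc 1 N, u ⌊α * (n : ℝ) ^ c⌋₊) / N) atTop (𝓝 δ) := by
  have hneg : Tendsto (fun X : ℕ => (∑ m ∈ Ioc 0 X, (fun m => -u m) m) / X) atTop (𝓝 (-δ)) := by
    refine hu.neg.congr fun X => ?_
    rw [Finset.sum_neg_distrib]
    ring
  rw [Metric.tendsto_atTop]
  intro ε hε
  obtain ⟨C1, hC1⟩ := partial_lower u hu (ε / 4) (by positivity)
  obtain ⟨C2, hC2⟩ := partial_lower _ hneg (ε / 4) (by positivity)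
  obtain ⟨N1, hN1⟩ := seq_lower hα hc hκ u hC1 N0 hlaw (ε / 4) (by positivity)
  obtain ⟨N2, hN2⟩ := seq_lower hα hc hκ _ hC2 N0 (law_neg u N0 hlaw) (ε / 4) (by positivity)
  refine ⟨max (max N1 N2) 1, fun N hN => ?_⟩
  have h1 := hN1 N (((le_max_left _ _).trans (le_max_left _ _)).trans hN)
  have h2 := hN2 N (((le_max_right _ _).trans (le_max_left _ _)).trans hN)
  have hNp : (0 : ℝ) < N := by
    have : 1 ≤ N := (le_max_right _ _).trans hN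
    exact_mod_cast this
  simp only [Finset.sum_neg_distrib] at h2
  rw [Real.dist_eq, abs_lt]
  constructor
  · rw [lt_sub_iff_add_lt, lt_div_iff₀ hNp]
    nlinarith
  · rw [sub_lt_iff_lt_add, div_lt_iff₀ hNp]
    nlinarith

end Pool.Agent.Y854.GM
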