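import Pool.Agent.Y854.PS.Fam

/-! The dimension of the set of the amplitudes `α` for which infinitely many members of a sequence `⌊α λ_n⌋` lie in a
given thin set, for arbitrary sequences `λ` of positive reals: at most the exponent of the thin set plus the exponent
of convergence of `λ`. -/

set_option autoImplicit false

open Finset Filter Topology MeasureTheory

namespace Pool.Agent.Y854.GM

open scoped ENNReal NNReal

/-- the exponent of convergence of the sequence `lam` is at most `τ` -/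
def ExpLe (lam : ℕ → ℝ) (τ : ℝ) : Prop := ∀ t : ℝ, τ < t → Summable (fun n : ℕ => (lam n) ^ (-t))

open Classical in
/-- one bounded range of amplitudes -/
theorem dim_lim_seq {lam : ℕ → ℝ} {s τ D : ℝ} (hpos : ∀ n, 0 < lam n) (hτ : 0 ≤ τ) (hlam : ExpLe lam τ)
    (hs : 0 ≤ s) (hD : s + τ < D) (P : Set ℕ) (C : ℝ) (hC : 0 ≤ C)
    (hP : ∀ X : ℕ, (((Ioc 0 X).filter (fun t => t ∈ P)).card : ℝ) ≤ C * (X : ℝ) ^ s) (A : ℕ) :
    dimH {α : ℝ | 0 < α ∧ α ≤ A ∧ ∀ n1 : ℕ, ∃ n : ℕ, n1 ≤ n ∧ 0 < ⌊α * lam n⌋₊ ∧ ⌊α * lam n⌋₊ ∈ P} ≤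
      ENNReal.ofReal D := by
  have hD0 : 0 < D := lt_of_le_of_lt (by positivity) hD
  have hDn : ((Real.toNNReal D : ℝ≥0) : ℝ) = D := Real.coe_toNNReal D hD0.le
  have hgoal : ENNReal.ofReal D = ((Real.toNNReal D : ℝ≥0) : ℝ≥0∞) := rfl
  rw [hgoal]
  apply dimH_le_of_hausdorffMeasure_ne_top
  rw [hDn]
  set T : ℕ → Finset ℕ := fun m => (Ioc 0 ⌊(A : ℝ) * lam m⌋₊).filter (fun t => t ∈ P) with hT
  set K : ℝ := C * (A : ℝ) ^ s with hK
  have hK0 : 0 ≤ K := by positivity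
  set p : ℝ := D - s with hp
  have hp1 : τ < p := by rw [hp]; linarith
  have hp0 : 0 < p := lt_of_le_of_lt hτ hp1
  have hcard : ∀ m : ℕ, ((T m).card : ℝ) ≤ K * (lam m) ^ s := by
    intro m
    refine (hP _).trans ?_
    rw [hK, mul_assoc]
    apply mul_le_mul_of_nonneg_left _ hC
    calc ((⌊(A : ℝ) * lam m⌋₊ : ℕ) : ℝ) ^ s ≤ ((A : ℝ) * lam m) ^ s :=
          Real.rpow_le_rpow (Nat.cast_nonneg _)
            (Nat.floor_le (mul_nonneg (Nat.cast_nonneg _) (hpos m).le)) hs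
      _ = (A : ℝ) ^ s * (lam m) ^ s := Real.mul_rpow (Nat.cast_nonneg _) (hpos m).le
  have hsum : Summable (fun m : ℕ => K * (lam m) ^ (-p)) := (hlam p hp1).mul_left K
  have hlev : ∀ m : ℕ, ((T m).card : ℝ) * ((lam m)⁻¹) ^ D ≤ K * (lam m) ^ (-p) := by
    intro m
    have hm0 := hpos m
    calc ((T m).card : ℝ) * ((lam m)⁻¹) ^ D ≤ (K * (lam m) ^ s) * ((lam m)⁻¹) ^ D :=
          mul_le_mul_of_nonneg_right (hcard m) (Real.rpow_nonneg (inv_nonneg.2 hm0.le) _)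
      _ = K * (lam m) ^ (-p) := by
          rw [Real.inv_rpow hm0.le, ← Real.rpow_neg hm0.le, mul_assoc, ← Real.rpow_add hm0]
          congr 2
          rw [hp]
          ring
  -- the sequence tends to infinity
  have hinv : Tendsto (fun n : ℕ => (lam n)⁻¹) atTop (𝓝 0) := by
    have h1 : Tendsto (fun n : ℕ => (lam n) ^ (-p)) atTop (𝓝 0) := (hlam p hp1).tendsto_atTop_zero
    have h2 : Tendsto (fun x : ℝ => x ^ (1 / p)) (𝓝 0) (𝓝 0) := by
      have h3 := (Real.continuousAt_rpow_const 0 (1 / p) (Or.inr (by positivity))).tendsto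
      rwa [Real.zero_rpow (by positivity)] at h3
    refine (h2.comp h1).congr (fun n => ?_)
    show ((lam n) ^ (-p)) ^ (1 / p) = (lam n)⁻¹
    rw [← Real.rpow_mul (hpos n).le]
    rw [show -p * (1 / p) = -1 by field_simp, Real.rpow_neg_one]
  -- a decreasing majorant of the diameters
  have hr : ∀ ε : ℝ≥0∞, 0 < ε → ∃ N : ℕ, ∀ n : ℕ, N ≤ n → ENNReal.ofReal ((lam n)⁻¹) ≤ ε := by
    intro ε hε
    have h1 := ENNReal.tendsto_ofReal hinv
    rw [ENNReal.ofReal_zero] at h1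
    exact ((h1.eventually (ge_mem_nhds hε))).exists_forall_of_atTop
  set r : ℕ → ℝ≥0∞ := fun n => ⨆ i : ℕ, ENNReal.ofReal ((lam (n + i))⁻¹) with hrdef
  have hrt : Tendsto r atTop (𝓝 0) := by
    rw [ENNReal.tendsto_atTop_zero]
    intro ε hε
    obtain ⟨N, hN⟩ := hr ε hε
    exact ⟨N, fun n hn => iSup_le fun i => hN _ (by omega)⟩
  have hd : ∀ (n : ℕ) (q : Σ i : ℕ, (T (n + i))),
      Metric.ediam (Set.Icc (((q.2 : ℕ) : ℝ) / lam (n + q.1)) ((((q.2 : ℕ) : ℝ) + 1) / lam (n + q.1))) =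
        ENNReal.ofReal ((lam (n + q.1))⁻¹) := by
    intro n q
    rw [Real.ediam_Icc]
    congr 1
    rw [← sub_div]
    simp
  have key := Measure.hausdorffMeasure_le_liminf_tsum (X := ℝ) (β := ℕ)
    (ι := fun n => Σ i : ℕ, (T (n + i))) D
    {α : ℝ | 0 < α ∧ α ≤ A ∧ ∀ n1 : ℕ, ∃ n : ℕ, n1 ≤ n ∧ 0 < ⌊α * lam n⌋₊ ∧ ⌊α * lam n⌋₊ ∈ P}
    (l := atTop) r hrt
    (fun n q => Set.Icc (((q.2 : ℕ) : ℝ) / lam (n + q.1)) ((((q.2 : ℕ) : ℝ) + 1) / lam (n + q.1)))
    (Eventually.of_forall fun n q => by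
      rw [hd n q]
      exact le_iSup (fun i : ℕ => ENNReal.ofReal ((lam (n + i))⁻¹)) q.1)
    (Eventually.of_forall fun n α hα => by
      obtain ⟨hα0, hαA, hlim⟩ := hα
      obtain ⟨m, hm1, hm2, hm3⟩ := hlim n
      obtain ⟨i, rfl⟩ := Nat.exists_eq_add_of_le hm1
      have hmp : 0 < lam (n + i) := hpos _
      have hmem : ⌊α * lam (n + i)⌋₊ ∈ T (n + i) := by
        rw [hT, mem_filter, mem_Ioc]
        refine ⟨⟨hm2, ?_⟩, hm3⟩
        apply Nat.floor_le_floor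
        exact mul_le_mul_of_nonneg_right hαA hmp.le
      rw [Set.mem_iUnion]
      refine ⟨⟨i, ⟨_, hmem⟩⟩, ?_⟩
      rw [Set.mem_Icc, div_le_iff₀ hmp, le_div_iff₀ hmp]
      exact ⟨Nat.floor_le (by positivity), (Nat.lt_floor_add_one _).le⟩)
  refine ne_top_of_le_ne_top ?_ key
  have hnn : ∀ m : ℕ, 0 ≤ K * (lam m) ^ (-p) := fun m => mul_nonneg hK0 (Real.rpow_nonneg (hpos m).le _)
  have htot : (∑' m : ℕ, ENNReal.ofReal (K * (lam m) ^ (-p))) ≠ ⊤ := by
    rw [← ENNReal.ofReal_tsum_of_nonneg hnn hsum]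
    exact ENNReal.ofReal_ne_top
  have hbound : ∀ n : ℕ, (∑' q : Σ i : ℕ, (T (n + i)),
      Metric.ediam (Set.Icc (((q.2 : ℕ) : ℝ) / lam (n + q.1)) ((((q.2 : ℕ) : ℝ) + 1) / lam (n + q.1))) ^ D) ≤
      ∑' m : ℕ, ENNReal.ofReal (K * (lam m) ^ (-p)) := by
    intro n
    rw [ENNReal.tsum_sigma']
    calc (∑' i : ℕ, ∑' x : (T (n + i)),
        Metric.ediam (Set.Icc (((x : ℕ) : ℝ) / lam (n + i)) ((((x : ℕ) : ℝ) + 1) / lam (n + i))) ^ D)
        ≤ ∑' i : ℕ, ENNReal.ofReal (K * (lam (n + i)) ^ (-p)) := by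
          apply ENNReal.tsum_le_tsum
          intro i
          have h1 : ∀ x : (T (n + i)),
              Metric.ediam (Set.Icc (((x : ℕ) : ℝ) / lam (n + i)) ((((x : ℕ) : ℝ) + 1) / lam (n + i))) ^ D =
                ENNReal.ofReal (((lam (n + i))⁻¹) ^ D) := by
            intro x
            rw [hd n ⟨i, x⟩, ENNReal.ofReal_rpow_of_pos (inv_pos.2 (hpos _))]
          simp only [h1]
          rw [tsum_fintype]
          simp only [Finset.sum_const, Finset.card_univ, Fintype.card_coe, nsmul_eq_mul]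
          rw [← ENNReal.ofReal_natCast, ← ENNReal.ofReal_mul (by positivity)]
          apply ENNReal.ofReal_le_ofReal
          exact hlev (n + i)
      _ ≤ ∑' m : ℕ, ENNReal.ofReal (K * (lam m) ^ (-p)) :=
          ENNReal.tsum_comp_le_tsum_of_injective (f := fun i : ℕ => n + i)
            (fun a b h => by simpa using h) (fun m : ℕ => ENNReal.ofReal (K * (lam m) ^ (-p)))
  refine ne_top_of_le_ne_top htot ?_
  apply Filter.liminf_le_of_le
  · isBoundedDefault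
  · intro b hb
    obtain ⟨n, hn⟩ := hb.exists
    exact hn.trans (hbound n)

/-- a sequence with a finite exponent of convergence tends to infinity -/
theorem tendsto_of_expLe {lam : ℕ → ℝ} {τ : ℝ} (hpos : ∀ n, 0 < lam n) (hτ : 0 ≤ τ) (hlam : ExpLe lam τ) :
    Tendsto lam atTop atTop := by
  have h1 : Tendsto (fun n : ℕ => (lam n) ^ (-(τ + 1))) atTop (𝓝 0) :=
    (hlam (τ + 1) (by linarith)).tendsto_atTop_zero
  rw [tendsto_atTop]
  intro b
  have hb : (0 : ℝ) < (max b 1) ^ (-(τ + 1)) := by positivity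
  filter_upwards [h1.eventually (gt_mem_nhds hb)] with n hn
  by_contra hcon
  push Not at hcon
  have h2 : lam n ≤ max b 1 := hcon.le.trans (le_max_left _ _)
  have h3 := Real.rpow_le_rpow_of_nonpos (hpos n) h2 (by linarith : -(τ + 1) ≤ 0)
  linarith

open Classical in
/-- **Only finitely many members of a sequence in a thin set.** Let `P` have at most `C X ^ (s + ε)` members up to `X`
for each `ε > 0`, and let the exponent of convergence of the positive sequence `λ` be at most `τ`. For all amplitudes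
`α > 0` outside a set of dimension at most `s + τ` only finitely many members of the sequence `⌊α λ_n⌋` belong to
`P`. -/
theorem finite_seq {lam : ℕ → ℝ} {s τ : ℝ} (hpos : ∀ n, 0 < lam n) (hτ : 0 ≤ τ) (hlam : ExpLe lam τ)
    (hs : 0 ≤ s) (P : Set ℕ)
    (hP : ∀ ε : ℝ, 0 < ε → ∃ C : ℝ, ∀ X : ℕ, 1 ≤ X →
      (((Ioc 0 X).filter (fun t => t ∈ P)).card : ℝ) ≤ C * (X : ℝ) ^ (s + ε)) :
    ∃ E : Set ℝ, dimH E ≤ ENNReal.ofReal (s + τ) ∧ ∀ α : ℝ, 0 < α → α ∉ E →
      ∃ n0 : ℕ, ∀ n : ℕ, n0 ≤ n → 0 < ⌊α * lam n⌋₊ ∧ ⌊α * lam n⌋₊ ∉ P := by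
  set F : ℕ → Set ℝ := fun A => {α : ℝ | 0 < α ∧ α ≤ A ∧ ∀ n1 : ℕ, ∃ n : ℕ, n1 ≤ n ∧
    0 < ⌊α * lam n⌋₊ ∧ ⌊α * lam n⌋₊ ∈ P} with hF
  refine ⟨⋃ A, F A, ?_, fun α hα hαE => ?_⟩
  · rw [dimH_iUnion]
    apply iSup_le
    intro A
    apply ENNReal.le_of_forall_pos_le_add
    intro ε hε _
    have hε' : (0 : ℝ) < ε := by exact_mod_cast hε
    obtain ⟨C, hC⟩ := hP (ε / 2) (by positivity)
    have hC' : ∀ X : ℕ, (((Ioc 0 X).filter (fun t => t ∈ P)).card : ℝ) ≤ |C| * (X : ℝ) ^ (s + ε / 2) := by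
      intro X
      rcases Nat.eq_zero_or_pos X with rfl | hX
      · simp only [Ioc_self, filter_empty, card_empty, Nat.cast_zero]
        positivity
      · exact (hC X hX).trans (mul_le_mul_of_nonneg_right (le_abs_self C) (by positivity))
    have h1 := dim_lim_seq hpos hτ hlam (s := s + ε / 2) (by positivity) (show s + ε / 2 + τ < s + τ + ε by
      linarith) P |C| (abs_nonneg C) hC' A
    rw [ENNReal.ofReal_add (by positivity) (by positivity), ENNReal.ofReal_coe_nnreal] at h1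
    exact h1
  · have h1 : α ∉ F ⌈α⌉₊ := fun h => hαE (Set.mem_iUnion.2 ⟨_, h⟩)
    have ht : Tendsto (fun n : ℕ => α * lam n) atTop atTop :=
      (tendsto_of_expLe hpos hτ hlam).const_mul_atTop hα
    obtain ⟨M, hM⟩ := (ht.eventually (eventually_ge_atTop 1)).exists_forall_of_atTop
    by_contra hcon
    push Not at hcon
    apply h1
    refine ⟨hα, Nat.le_ceil α, fun n1 => ?_⟩
    obtain ⟨n, hn, hn2⟩ := hcon (max n1 M)
    have h3 : 0 < ⌊α * lam n⌋₊ := Nat.floor_pos.2 (hM n ((le_max_right _ _).trans hn))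
    exact ⟨n, (le_max_left _ _).trans hn, h3, hn2 h3⟩

/-- the exponent of convergence of `n ^ c` is `1 / c` -/
theorem expLe_pow (c : ℝ) (hc : 0 < c) : ExpLe (fun n : ℕ => ((n : ℝ) + 1) ^ c) (1 / c) := by
  intro t ht
  have h1 : Summable (fun n : ℕ => (n : ℝ) ^ (-(c * t))) := by
    apply Real.summable_nat_rpow.2
    have : 1 < c * t := by
      rw [div_lt_iff₀ hc] at ht
      linarith
    linarith
  have h2 := (summable_nat_add_iff 1).2 h1
  refine h2.congr (fun n => ?_)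
  have h3 : (0 : ℝ) ≤ (n : ℝ) + 1 := by positivity
  rw [← Real.rpow_mul h3]
  congr 1
  · push_cast
    ring
  · ring

/-- the exponent of convergence of `b ^ n` is zero -/
theorem expLe_geom (b : ℝ) (hb : 1 < b) : ExpLe (fun n : ℕ => b ^ n) 0 := by
  intro t ht
  have hb0 : 0 < b := by linarith
  have h1 : b ^ (-t) < 1 := Real.rpow_lt_one_of_one_lt_of_neg hb (by linarith)
  have h2 : Summable (fun n : ℕ => (b ^ (-t)) ^ n) := summable_geometric_of_lt_one (by positivity) h1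
  refine h2.congr (fun n => ?_)
  show (b ^ (-t)) ^ n = (b ^ n) ^ (-t)
  rw [← Real.rpow_natCast (b ^ (-t)) n, ← Real.rpow_natCast b n, ← Real.rpow_mul hb0.le, ← Real.rpow_mul hb0.le]
  congr 1
  ring

end Pool.Agent.Y854.GM
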