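import Pool.Agent.Y854.GM.Block
import Pool.Agent.Y854.ST.Equiv

/-! All scales: the mean value of a function of subpolynomial growth along the sequence. -/

set_option autoImplicit false

open Finset Filter

namespace Pool.Agent.Y854.GM

open Pool.Agent.Y854.PS
open Pool.Agent.Y854.ST (sum_wt_up sum_wt_low Ioc_zero)

/-- functions of slow growth -/
def Grow {ι : Type*} (η : ℝ) (F : ι → ℕ → ℝ) : Prop :=
  ∀ k : ι, ∃ C : ℝ, 0 < C ∧ ∀ m : ℕ, 1 ≤ m → |F k m| ≤ C * (m : ℝ) ^ η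

/-- one dyadic block, both signs -/
theorem block2 (α c κ : ℝ) (hα : 0 < α) (hc : 1 < c) (hκ : 0 < κ) (hκ1 : κ ≤ 1 / (8 * c)) (F : ℕ → ℕ → ℝ)
    (hF : Grow (κ / 4) F) (hS : SampG (AF F) MF (ms α c) c (α ^ (-(1 / c))) κ) (k : ℕ) : ∃ K : ℝ, 0 < K ∧ ∃ i0 : ℕ, ∀ i : ℕ, i0 ≤ i →
    ∀ y : ℕ, 2 ^ i ≤ y → y ≤ 2 ^ (i + 1) → ∀ S : Finset ℕ, (∀ n, n ∈ S ↔ 1 ≤ n ∧ 2 ^ i < ms α c n ∧ ms α c n ≤ y) →
      |∑ n ∈ S, F k (ms α c n) - α ^ (-(1 / c)) * ∑ t ∈ Ioc (2 ^ i) y, wt c t * F k t| ≤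
        K * ((2 : ℝ) ^ i) ^ (1 / c - κ / 2) := by
  classical
  have hc0 : 0 < c := by linarith
  set a := α ^ (-(1 / c)) with ha
  have ha0 : 0 < a := Real.rpow_pos_of_pos hα _
  obtain ⟨C, hC, i1, h1⟩ := hS
  obtain ⟨Cf, hCf, hf⟩ := hF k
  obtain ⟨Cb, hCb, hblock⟩ := block_card hα hc
  have hκ2 : κ ≤ 1 / 8 := hκ1.trans (by
    rw [div_le_div_iff₀ (by positivity) (by norm_num)]
    linarith)
  -- growth
  obtain ⟨i2, hi2⟩ : ∃ i2 : ℕ, ∀ i : ℕ, i2 ≤ i → 2 * Cf * ((2 : ℝ) ^ i) ^ (κ / 4) ≤ (2 : ℝ) ^ i := by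
    have h2 : Tendsto (fun i : ℕ => ((2 : ℝ) ^ i) ^ (1 - κ / 4)) atTop atTop :=
      (tendsto_rpow_atTop (by linarith)).comp (tendsto_pow_atTop_atTop_of_one_lt (by norm_num))
    obtain ⟨i2, hi2⟩ := (h2.eventually (eventually_ge_atTop (2 * Cf))).exists_forall_of_atTop
    refine ⟨i2, fun i hi => ?_⟩
    have h3 := hi2 i hi
    have hX : (0 : ℝ) < 2 ^ i := by positivity
    calc 2 * Cf * ((2 : ℝ) ^ i) ^ (κ / 4) ≤ ((2 : ℝ) ^ i) ^ (1 - κ / 4) * ((2 : ℝ) ^ i) ^ (κ / 4) :=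
          mul_le_mul_of_nonneg_right h3 (by positivity)
      _ = (2 : ℝ) ^ i := by
          rw [← Real.rpow_add hX]
          simp
  refine ⟨2 * (4 * Cf * C + Cb + 2 * a), by positivity, max (max i1 i2) k, fun i hi y hy1 hy2 S hSc => ?_⟩
  have hii1 : i1 ≤ i := ((le_max_left _ _).trans (le_max_left _ _)).trans hi
  have hii2 : i2 ≤ i := ((le_max_right _ _).trans (le_max_left _ _)).trans hi
  have hiik : k ≤ i := (le_max_right _ _).trans hi
  have hX : (0 : ℝ) < 2 ^ i := by positivity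
  have hX1 : (1 : ℝ) ≤ 2 ^ i := one_le_pow₀ (by norm_num)
  set G : ℝ := 2 * Cf * ((2 : ℝ) ^ i) ^ (κ / 4) with hG
  have hG0 : 0 ≤ G := by positivity
  have hFG : ∀ t, 2 ^ i < t → t ≤ y → |F k t| ≤ G := by
    intro t ht1 ht2
    have h2 : 1 ≤ t := by omega
    refine (hf t h2).trans ?_
    have h3 : (t : ℝ) ≤ 2 * 2 ^ i := by
      have h4 : t ≤ 2 ^ (i + 1) := ht2.trans hy2
      have h5 : (t : ℝ) ≤ (2 : ℝ) ^ (i + 1) := by exact_mod_cast h4
      rw [pow_succ] at h5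
      linarith
    have h6 : (t : ℝ) ^ (κ / 4) ≤ (2 * 2 ^ i) ^ (κ / 4) := Real.rpow_le_rpow (Nat.cast_nonneg _) h3 (by positivity)
    have h7 : ((2 : ℝ) * 2 ^ i) ^ (κ / 4) ≤ 2 * ((2 : ℝ) ^ i) ^ (κ / 4) := by
      rw [Real.mul_rpow (by norm_num) hX.le]
      apply mul_le_mul_of_nonneg_right _ (by positivity)
      calc (2 : ℝ) ^ (κ / 4) ≤ (2 : ℝ) ^ (1 : ℝ) := Real.rpow_le_rpow_of_exponent_le (by norm_num) (by linarith)
        _ = 2 := Real.rpow_one 2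
    calc Cf * (t : ℝ) ^ (κ / 4) ≤ Cf * (2 * ((2 : ℝ) ^ i) ^ (κ / 4)) :=
          mul_le_mul_of_nonneg_left (h6.trans h7) hCf.le
      _ = G := by rw [hG]; ring
  have hsamp : ∀ j < MF i, |∑ n ∈ S, (if ms α c n ∈ AF F i j then (1 : ℝ) else 0) -
        a * ∑ t ∈ Ioc (2 ^ i) y, wt c t * (if t ∈ AF F i j then (1 : ℝ) else 0)| ≤ C * ((2 : ℝ) ^ i) ^ (1 / c - κ) := by
    intro j hj
    exact h1 i hii1 j hj (2 ^ i) y le_rfl hy1 hy2 S hSc
  have hb : ∀ s < 2, |∑ n ∈ S, sg F s k (ms α c n) - a * ∑ t ∈ Ioc (2 ^ i) y, wt c t * sg F s k t| ≤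
      2 * G * (C * ((2 : ℝ) ^ i) ^ (1 / c - κ)) + (S.card + a * ∑ t ∈ Ioc (2 ^ i) y, wt c t) / 2 ^ i := fun s hs =>
    blockG F (ms α c) c a κ C ha0.le i k s hiik hs hc hC.le (2 ^ i) y le_rfl hy1 hy2 S hSc hsamp G hG0 hFG (hi2 i hii2)
  -- the size of the error
  have hcard : (S.card : ℝ) ≤ Cb * ((2 : ℝ) ^ i) ^ (1 / c) := by
    apply hblock
    intro n hn
    have := (hSc n).mp hn
    exact ⟨this.1, this.2.2.trans hy2⟩
  have hwt : a * ∑ t ∈ Ioc (2 ^ i) y, wt c t ≤ 2 * a * ((2 : ℝ) ^ i) ^ (1 / c) := by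
    have h2 : ∑ t ∈ Ioc (2 ^ i) y, wt c t ≤ ∑ t ∈ Ioc 0 (2 ^ (i + 1)), wt c t := by
      apply Finset.sum_le_sum_of_subset_of_nonneg
      · intro t ht
        rw [mem_Ioc] at ht ⊢
        constructor <;> omega
      · intro t _ _
        exact wt_nonneg hc t
    have h3 := sum_wt_up hc (2 ^ (i + 1))
    have h4 : (((2 ^ (i + 1) : ℕ)) : ℝ) ^ (1 / c) ≤ 2 * ((2 : ℝ) ^ i) ^ (1 / c) := by
      push_cast
      rw [pow_succ, mul_comm, Real.mul_rpow (by norm_num) hX.le]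
      apply mul_le_mul_of_nonneg_right _ (by positivity)
      have h5 : 1 / c ≤ 1 := by rw [div_le_one hc0]; exact hc.le
      calc (2 : ℝ) ^ (1 / c) ≤ (2 : ℝ) ^ (1 : ℝ) := Real.rpow_le_rpow_of_exponent_le (by norm_num) h5
        _ = 2 := Real.rpow_one 2
    calc a * ∑ t ∈ Ioc (2 ^ i) y, wt c t ≤ a * (2 * ((2 : ℝ) ^ i) ^ (1 / c)) :=
          mul_le_mul_of_nonneg_left (h2.trans (h3.trans h4)) ha0.le
      _ = _ := by ring
  have hdiv : (S.card + a * ∑ t ∈ Ioc (2 ^ i) y, wt c t) / 2 ^ i ≤ (Cb + 2 * a) * ((2 : ℝ) ^ i) ^ (1 / c - κ / 2) := by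
    rw [div_le_iff₀ hX]
    have h2 : ((2 : ℝ) ^ i) ^ (1 / c) ≤ ((2 : ℝ) ^ i) ^ (1 / c - κ / 2) * 2 ^ i := by
      have h3 : ((2 : ℝ) ^ i) ^ (1 / c - κ / 2) * 2 ^ i = ((2 : ℝ) ^ i) ^ (1 / c - κ / 2 + 1) := by
        rw [Real.rpow_add hX, Real.rpow_one]
      rw [h3]
      exact Real.rpow_le_rpow_of_exponent_le hX1 (by linarith)
    have h4 : (0 : ℝ) ≤ Cb + 2 * a := by positivity
    have h5 := mul_le_mul_of_nonneg_left h2 h4
    nlinarith
  have hGX : 2 * G * (C * ((2 : ℝ) ^ i) ^ (1 / c - κ)) ≤ 4 * Cf * C * ((2 : ℝ) ^ i) ^ (1 / c - κ / 2) := by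
    have h2 : ((2 : ℝ) ^ i) ^ (κ / 4) * ((2 : ℝ) ^ i) ^ (1 / c - κ) ≤ ((2 : ℝ) ^ i) ^ (1 / c - κ / 2) := by
      rw [← Real.rpow_add hX]
      exact Real.rpow_le_rpow_of_exponent_le hX1 (by linarith)
    calc 2 * G * (C * ((2 : ℝ) ^ i) ^ (1 / c - κ)) =
        4 * Cf * C * (((2 : ℝ) ^ i) ^ (κ / 4) * ((2 : ℝ) ^ i) ^ (1 / c - κ)) := by rw [hG]; ring
      _ ≤ _ := mul_le_mul_of_nonneg_left h2 (by positivity)
  have hb0 := hb 0 (by norm_num)
  have hb1 := hb 1 (by norm_num)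
  have e : ∑ n ∈ S, F k (ms α c n) - a * ∑ t ∈ Ioc (2 ^ i) y, wt c t * F k t =
      (∑ n ∈ S, sg F 0 k (ms α c n) - a * ∑ t ∈ Ioc (2 ^ i) y, wt c t * sg F 0 k t) -
      (∑ n ∈ S, sg F 1 k (ms α c n) - a * ∑ t ∈ Ioc (2 ^ i) y, wt c t * sg F 1 k t) := by
    have e1 : ∑ n ∈ S, F k (ms α c n) = ∑ n ∈ S, sg F 0 k (ms α c n) - ∑ n ∈ S, sg F 1 k (ms α c n) := by
      rw [← Finset.sum_sub_distrib]
      exact Finset.sum_congr rfl fun n _ => (sg_sub F k _).symm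
    have e2 : ∑ t ∈ Ioc (2 ^ i) y, wt c t * F k t = ∑ t ∈ Ioc (2 ^ i) y, wt c t * sg F 0 k t -
        ∑ t ∈ Ioc (2 ^ i) y, wt c t * sg F 1 k t := by
      rw [← Finset.sum_sub_distrib]
      refine Finset.sum_congr rfl fun n _ => ?_
      rw [← sg_sub F k n]
      ring
    rw [e1, e2]
    ring
  rw [e]
  refine (abs_sub _ _).trans ?_
  nlinarith

/-- **The mean value along the sequence.** -/
theorem totalG (α c κ : ℝ) (hα : 0 < α) (hc : 1 < c) (hκ : 0 < κ) (hκ1 : κ ≤ 1 / (8 * c)) (F : ℕ → ℕ → ℝ)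
    (hF : Grow (κ / 4) F) (hS : SampG (AF F) MF (ms α c) c (α ^ (-(1 / c))) κ) (k : ℕ) : ∃ N0 : ℕ, ∀ N : ℕ, N0 ≤ N →
      |∑ n ∈ Icc 1 N, F k (ms α c n) - α ^ (-(1 / c)) * ∑ t ∈ Ioc 0 (ms α c N), wt c t * F k t| ≤
        (N : ℝ) ^ (1 - c * κ / 4) := by
  classical
  have hc0 : 0 < c := by linarith
  set a := α ^ (-(1 / c)) with ha
  have ha0 : 0 < a := Real.rpow_pos_of_pos hα _
  obtain ⟨K, hK, i1, hscale⟩ := block2 α c κ hα hc hκ hκ1 F hF hS k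
  have hcκ : c * κ ≤ 1 / 8 := by
    have h1 : κ * (8 * c) ≤ 1 := by rwa [le_div_iff₀ (by positivity)] at hκ1
    linarith
  set β : ℝ := 1 / c - κ / 2 with hβ
  have hβ0 : 0 < β := by
    have h1 : κ / 2 < 1 / c := by
      rw [lt_div_iff₀ hc0]
      linarith
    linarith
  have hβ1 : β < 1 := by
    have h1 : 1 / c < 1 := by rw [div_lt_one hc0]; exact hc
    linarith
  have hcβ : c * β = 1 - c * κ / 2 := by
    rw [hβ, mul_sub, mul_one_div_cancel hc0.ne']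
    ring
  obtain ⟨Cg, hCg, hgeo⟩ := geo (c := 1 / β) (by rw [lt_div_iff₀ hβ0]; linarith)
  simp only [one_div_one_div] at hgeo
  obtain ⟨i2, hstrict⟩ := ms_strict hα hc
  set i0 : ℕ := max (max i1 i2) 1 with hi0
  have hi01 : i1 ≤ i0 := (le_max_left _ _).trans (le_max_left _ _)
  have hi02 : i2 ≤ i0 := (le_max_right _ _).trans (le_max_left _ _)
  have hi03 : 1 ≤ i0 := le_max_right _ _
  have hms : Tendsto (fun n : ℕ => xs α c n) atTop atTop := by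
    have h1 : Tendsto (fun n : ℕ => (n : ℝ) ^ c) atTop atTop :=
      (tendsto_rpow_atTop hc0).comp tendsto_natCast_atTop_atTop
    exact h1.const_mul_atTop hα
  obtain ⟨N2, hN2⟩ := (hms.eventually (eventually_ge_atTop ((2 : ℝ) ^ i0 + 1))).exists_forall_of_atTop
  -- the small terms
  set D1 : ℝ := ∑ n ∈ Icc 1 N2, |F k (ms α c n)| with hD1
  set D2 : ℝ := a * ∑ t ∈ Ioc 0 (2 ^ i0), wt c t * |F k t| with hD2
  have hD10 : 0 ≤ D1 := Finset.sum_nonneg fun _ _ => abs_nonneg _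
  have hD20 : 0 ≤ D2 := mul_nonneg ha0.le (Finset.sum_nonneg fun t _ => mul_nonneg (wt_nonneg hc t) (abs_nonneg _))
  set Kb : ℝ := K * (Cg * α ^ β) with hKb
  have hKb0 : 0 < Kb := by positivity
  -- the final threshold
  have hlim1 : Tendsto (fun N : ℕ => (N : ℝ) ^ (c * κ / 4)) atTop atTop :=
    (tendsto_rpow_atTop (by positivity)).comp tendsto_natCast_atTop_atTop
  have hlim2 : Tendsto (fun N : ℕ => (N : ℝ) ^ (1 - c * κ / 4)) atTop atTop :=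
    (tendsto_rpow_atTop (by linarith)).comp tendsto_natCast_atTop_atTop
  obtain ⟨N3, hN3⟩ := (hlim1.eventually (eventually_ge_atTop (2 * Kb))).exists_forall_of_atTop
  obtain ⟨N4, hN4⟩ := (hlim2.eventually (eventually_ge_atTop (2 * (D1 + D2)))).exists_forall_of_atTop
  refine ⟨max (max N2 1) (max N3 N4), fun N hN => ?_⟩
  have hNN2 : N2 ≤ N := ((le_max_left _ _).trans (le_max_left _ _)).trans hN
  have hN1' : 1 ≤ N := ((le_max_right _ _).trans (le_max_left _ _)).trans hN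
  have hNN3 : N3 ≤ N := ((le_max_left _ _).trans (le_max_right _ _)).trans hN
  have hNN4 : N4 ≤ N := ((le_max_right _ _).trans (le_max_right _ _)).trans hN
  have hNpos : (0 : ℝ) < N := by exact_mod_cast hN1'
  have hmsN : 2 ^ i0 < ms α c N := by
    have h1 := hN2 N hNN2
    have h2 : 2 ^ i0 + 1 ≤ ms α c N := by
      apply Nat.le_floor
      push_cast
      exact h1
    omega
  have h2i0 : 2 ≤ 2 ^ i0 := by
    calc 2 = 2 ^ 1 := by norm_num
      _ ≤ 2 ^ i0 := Nat.pow_le_pow_right (by norm_num) (by omega)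
  set Fn : ℕ → ℝ := fun n => F k (ms α c n) with hFn
  set g : ℕ → ℝ := fun t => wt c t * F k t with hg
  rw [← Finset.sum_filter_add_sum_filter_not (Icc 1 N) (fun n => 2 ^ i0 < ms α c n) Fn]
  have hsplit : ∑ t ∈ Ioc 0 (ms α c N), g t = ∑ t ∈ Ioc 0 (2 ^ i0), g t + ∑ t ∈ Ioc (2 ^ i0) (ms α c N), g t :=
    (Finset.sum_Ioc_consecutive g (Nat.zero_le _) hmsN.le).symm
  rw [hsplit]
  set Big := (Icc 1 N).filter (fun n => 2 ^ i0 < ms α c n) with hBig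
  set Sm := (Icc 1 N).filter (fun n => ¬ 2 ^ i0 < ms α c n) with hSm
  have hsmall : |∑ n ∈ Sm, Fn n| ≤ D1 := by
    refine (Finset.abs_sum_le_sum_abs _ _).trans ?_
    apply Finset.sum_le_sum_of_subset_of_nonneg
    · intro n hn
      rw [hSm, mem_filter, mem_Icc] at hn
      rw [mem_Icc]
      refine ⟨hn.1.1, ?_⟩
      by_contra hcon
      push Not at hcon
      apply hn.2
      have h1 := hN2 n hcon.le
      have h2 : 2 ^ i0 + 1 ≤ ms α c n := by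
        apply Nat.le_floor
        push_cast
        exact h1
      omega
    · intro _ _ _
      exact abs_nonneg _
  have hsmall2 : |a * ∑ t ∈ Ioc 0 (2 ^ i0), g t| ≤ D2 := by
    rw [abs_mul, abs_of_pos ha0, hD2]
    apply mul_le_mul_of_nonneg_left _ ha0.le
    refine (Finset.abs_sum_le_sum_abs _ _).trans (Finset.sum_le_sum fun t _ => ?_)
    rw [hg]
    simp only
    rw [abs_mul, abs_of_nonneg (wt_nonneg hc t)]
  set I : ℕ := sc (ms α c N) with hI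
  have hmaps1 : ∀ n ∈ Big, sc (ms α c n) ∈ range (I + 1) := by
    intro n hn
    rw [hBig, mem_filter, mem_Icc] at hn
    rw [mem_range]
    have := sc_mono (ms_mono hα hc0.le hn.1.2)
    omega
  have hmaps2 : ∀ t ∈ Ioc (2 ^ i0) (ms α c N), sc t ∈ range (I + 1) := by
    intro t ht
    rw [mem_Ioc] at ht
    rw [mem_range]
    have := sc_mono ht.2
    omega
  have hfib : ∀ i ∈ range (I + 1), |∑ n ∈ Big.filter (fun n => sc (ms α c n) = i), Fn n -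
      a * ∑ t ∈ (Ioc (2 ^ i0) (ms α c N)).filter (fun t => sc t = i), g t| ≤
        K * ((2 : ℝ) ^ i) ^ β := by
    intro i hiI
    rw [mem_range] at hiI
    by_cases hii0 : i0 ≤ i
    · have h2i : 2 ^ i0 ≤ 2 ^ i := Nat.pow_le_pow_right (by norm_num) hii0
      have hIN : 2 ^ I < ms α c N := ((sc_iff (by omega)).mp hI.symm).1
      have hiN : 2 ^ i < ms α c N := lt_of_le_of_lt (Nat.pow_le_pow_right (by norm_num) (by omega)) hIN
      set y : ℕ := min (2 ^ (i + 1)) (ms α c N) with hy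
      have hy1 : 2 ^ i ≤ y := le_min (Nat.pow_le_pow_right (by norm_num) (by omega)) hiN.le
      have hy2 : y ≤ 2 ^ (i + 1) := min_le_left _ _
      have e2 : (Ioc (2 ^ i0) (ms α c N)).filter (fun t => sc t = i) = Ioc (2 ^ i) y := by
        ext t
        rw [mem_filter, mem_Ioc, mem_Ioc, hy, le_min_iff]
        constructor
        · rintro ⟨⟨h1, h2⟩, h3⟩
          rw [sc_iff (by omega)] at h3
          exact ⟨h3.1, h3.2, h2⟩
        · rintro ⟨h1, h2, h3⟩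
          refine ⟨⟨by omega, h3⟩, ?_⟩
          rw [sc_iff (by omega)]
          exact ⟨h1, h2⟩
      have e1 : ∀ n, n ∈ Big.filter (fun n => sc (ms α c n) = i) ↔ 1 ≤ n ∧ 2 ^ i < ms α c n ∧ ms α c n ≤ y := by
        intro n
        rw [mem_filter, hBig, mem_filter, mem_Icc, hy, le_min_iff]
        constructor
        · rintro ⟨⟨⟨h1, h2⟩, h3⟩, h4⟩
          rw [sc_iff (by omega)] at h4
          exact ⟨h1, h4.1, h4.2, ms_mono hα hc0.le h2⟩
        · rintro ⟨h1, h2, h3, h4⟩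
          have h5 : n ≤ N := by
            by_contra hcon
            push Not at hcon
            have h6 : 2 ^ i2 < ms α c N :=
              lt_of_le_of_lt (Nat.pow_le_pow_right (by norm_num) (hi02.trans hii0)) hiN
            have := hstrict N n h6 hcon
            omega
          refine ⟨⟨⟨h1, h5⟩, by omega⟩, ?_⟩
          rw [sc_iff (by omega)]
          exact ⟨h2, h3⟩
      rw [e2]
      exact hscale i (hi01.trans hii0) y hy1 hy2 _ e1
    · push Not at hii0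
      have e1 : Big.filter (fun n => sc (ms α c n) = i) = ∅ := by
        apply Finset.eq_empty_of_forall_notMem
        intro n hn
        rw [mem_filter, hBig, mem_filter, mem_Icc] at hn
        obtain ⟨⟨-, h3⟩, h4⟩ := hn
        rw [sc_iff (by omega)] at h4
        have h5 : 2 ^ (i + 1) ≤ 2 ^ i0 := Nat.pow_le_pow_right (by norm_num) (by omega)
        omega
      have e2 : (Ioc (2 ^ i0) (ms α c N)).filter (fun t => sc t = i) = ∅ := by
        apply Finset.eq_empty_of_forall_notMem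
        intro t ht
        rw [mem_filter, mem_Ioc] at ht
        obtain ⟨⟨h3, -⟩, h4⟩ := ht
        rw [sc_iff (by omega)] at h4
        have h5 : 2 ^ (i + 1) ≤ 2 ^ i0 := Nat.pow_le_pow_right (by norm_num) (by omega)
        omega
      rw [e1, e2]
      simp only [sum_empty, mul_zero, sub_zero, abs_zero]
      positivity
  have hbig : |∑ n ∈ Big, Fn n - a * ∑ t ∈ Ioc (2 ^ i0) (ms α c N), g t| ≤ Kb * (N : ℝ) ^ (1 - c * κ / 2) := by
    have e3 : ∑ n ∈ Big, Fn n - a * ∑ t ∈ Ioc (2 ^ i0) (ms α c N), g t =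
        ∑ i ∈ range (I + 1), (∑ n ∈ Big.filter (fun n => sc (ms α c n) = i), Fn n -
          a * ∑ t ∈ (Ioc (2 ^ i0) (ms α c N)).filter (fun t => sc t = i), g t) := by
      rw [Finset.sum_sub_distrib, ← Finset.mul_sum, Finset.sum_fiberwise_of_maps_to hmaps1,
        Finset.sum_fiberwise_of_maps_to hmaps2]
    rw [e3]
    refine (Finset.abs_sum_le_sum_abs _ _).trans ((Finset.sum_le_sum hfib).trans ?_)
    rw [← Finset.mul_sum]
    have h2 : ((2 : ℝ) ^ I) ^ β ≤ α ^ β * (N : ℝ) ^ (1 - c * κ / 2) := by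
      have h3 : 2 ^ I < ms α c N := ((sc_iff (by omega)).mp hI.symm).1
      have h4 : (2 : ℝ) ^ I ≤ xs α c N := by
        have h5 : (2 : ℝ) ^ I < ms α c N := by exact_mod_cast h3
        have h6 : (ms α c N : ℝ) ≤ xs α c N := Nat.floor_le (xs_nonneg hα N)
        linarith
      calc ((2 : ℝ) ^ I) ^ β ≤ (xs α c N) ^ β :=
            Real.rpow_le_rpow (by positivity) h4 hβ0.le
        _ = α ^ β * (N : ℝ) ^ (1 - c * κ / 2) := by
            unfold xs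
            rw [Real.mul_rpow hα.le (by positivity), ← Real.rpow_mul hNpos.le, hcβ]
    calc K * ∑ i ∈ range (I + 1), ((2 : ℝ) ^ i) ^ β ≤ K * (Cg * (α ^ β * (N : ℝ) ^ (1 - c * κ / 2))) := by
          apply mul_le_mul_of_nonneg_left _ hK.le
          exact (hgeo I).trans (mul_le_mul_of_nonneg_left h2 hCg.le)
      _ = Kb * (N : ℝ) ^ (1 - c * κ / 2) := by rw [hKb]; ring
  have hf1 : Kb * (N : ℝ) ^ (1 - c * κ / 2) ≤ (1 / 2) * (N : ℝ) ^ (1 - c * κ / 4) := by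
    have h1 := hN3 N hNN3
    have h2 : (N : ℝ) ^ (1 - c * κ / 4) = (N : ℝ) ^ (c * κ / 4) * (N : ℝ) ^ (1 - c * κ / 2) := by
      rw [← Real.rpow_add hNpos]
      congr 1
      ring
    rw [h2]
    have h3 : (0 : ℝ) ≤ (N : ℝ) ^ (1 - c * κ / 2) := by positivity
    nlinarith
  have hf2 := hN4 N hNN4
  have e : ∑ n ∈ Big, Fn n + ∑ n ∈ Sm, Fn n -
      a * (∑ t ∈ Ioc 0 (2 ^ i0), g t + ∑ t ∈ Ioc (2 ^ i0) (ms α c N), g t) =
      (∑ n ∈ Big, Fn n - a * ∑ t ∈ Ioc (2 ^ i0) (ms α c N), g t) + (∑ n ∈ Sm, Fn n -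
        a * ∑ t ∈ Ioc 0 (2 ^ i0), g t) := by ring
  rw [e]
  have t1 := abs_add_le (∑ n ∈ Big, Fn n - a * ∑ t ∈ Ioc (2 ^ i0) (ms α c N), g t) (∑ n ∈ Sm, Fn n -
        a * ∑ t ∈ Ioc 0 (2 ^ i0), g t)
  have t2 := abs_sub (∑ n ∈ Sm, Fn n) (a * ∑ t ∈ Ioc 0 (2 ^ i0), g t)
  linarith

/-- **The mean values of a countable family of functions of slow growth, for all amplitudes outside a
set of dimension less than one.** -/
theorem mean (c : ℝ) (hc : 1 < c) : ∃ κ : ℝ, 0 < κ ∧ κ < 1 ∧ ∀ {ι : Type} [Countable ι] (F : ι → ℕ → ℝ), Grow κ F →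
    ∃ E : Set ℝ, dimH E ≤ ENNReal.ofReal (1 - κ) ∧ ∀ α : ℝ, 0 < α → α ∉ E → ∀ k : ι, ∃ N0 : ℕ, ∀ N : ℕ, N0 ≤ N →
      |∑ n ∈ Icc 1 N, F k ⌊α * (n : ℝ) ^ c⌋₊ -
        α ^ (-(1 / c)) * ∑ t ∈ Ioc 0 ⌊α * (N : ℝ) ^ c⌋₊, wt c t * F k t| ≤ (N : ℝ) ^ (1 - κ) := by
  obtain ⟨κ, hκ, hκ1, h⟩ := samp_gen c hc
  have hc0 : 0 < c := by linarith
  have hκ2 : κ ≤ 1 / 8 := hκ1.trans (by
    rw [div_le_div_iff₀ (by positivity) (by norm_num)]
    linarith)
  refine ⟨κ / 4, by positivity, by linarith, fun {ι} _ F hF => ?_⟩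
  rcases isEmpty_or_nonempty ι with hι | hι
  · exact ⟨∅, by simp, fun α _ _ k => (hι.false k).elim⟩
  obtain ⟨e, he⟩ := exists_surjective_nat ι
  obtain ⟨E, hE, h1⟩ := h 4 MF MF_le (AF (fun k => F (e k)))
  refine ⟨E, hE.trans (ENNReal.ofReal_le_ofReal (by linarith)), fun α hα hαE k => ?_⟩
  obtain ⟨j, rfl⟩ := he k
  obtain ⟨N0, h2⟩ := totalG α c κ hα hc hκ hκ1 (fun k => F (e k)) (fun k => hF (e k)) (h1 α hα hαE) j
  refine ⟨max N0 1, fun N hN => ?_⟩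
  refine (h2 N ((le_max_left _ _).trans hN)).trans ?_
  have hN1 : (1 : ℝ) ≤ N := by exact_mod_cast (le_max_right _ _).trans hN
  apply Real.rpow_le_rpow_of_exponent_le hN1
  nlinarith

end Pool.Agent.Y854.GM
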