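import Pool.Agent.Y854.GM.Slow
import Pool.Agent.Y854.GM.Dens

/-! The mean value law for the members of slow growth of an arbitrary countable family. -/

set_option autoImplicit false

open Finset Filter Topology

namespace Pool.Agent.Y854.GM

open Pool.Agent.Y854.PS

/-- **The mean values of the functions of slow growth of a countable family.** -/
theorem mean2 (c : ℝ) (hc : 1 < c) : ∃ κ : ℝ, 0 < κ ∧ κ < 1 ∧ ∀ {ι : Type} [Countable ι] (g : ι → ℕ → ℝ),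
    ∃ E : Set ℝ, dimH E < 1 ∧ ∀ α : ℝ, 0 < α → α ∉ E → ∀ k : ι,
      (∃ C : ℝ, 0 < C ∧ ∀ m : ℕ, 1 ≤ m → |g k m| ≤ C * (m : ℝ) ^ κ) → ∃ N0 : ℕ, ∀ N : ℕ, N0 ≤ N →
      |∑ n ∈ Icc 1 N, g k ⌊α * (n : ℝ) ^ c⌋₊ -
        α ^ (-(1 / c)) * ∑ t ∈ Ioc 0 ⌊α * (N : ℝ) ^ c⌋₊, wt c t * g k t| ≤ (N : ℝ) ^ (1 - κ) := by
  classical
  obtain ⟨κ, hκ, hκ1, h⟩ := mean c hc
  refine ⟨κ, hκ, hκ1, fun {ι} _ g => ?_⟩
  have hG : Grow κ (fun k : ι => if (∃ C : ℝ, 0 < C ∧ ∀ m : ℕ, 1 ≤ m → |g k m| ≤ C * (m : ℝ) ^ κ) then g k else 0) := by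
    intro k
    by_cases hk : ∃ C : ℝ, 0 < C ∧ ∀ m : ℕ, 1 ≤ m → |g k m| ≤ C * (m : ℝ) ^ κ
    · simp only [if_pos hk]
      exact hk
    · simp only [if_neg hk]
      refine ⟨1, one_pos, fun m _ => ?_⟩
      simp only [Pi.zero_apply, abs_zero, one_mul]
      positivity
  obtain ⟨E, hE, hlaw⟩ := h _ hG
  refine ⟨E, lt_of_le_of_lt hE ?_, fun α hα hαE k hk => ?_⟩
  · have : (1 : ENNReal) = ENNReal.ofReal 1 := by simp
    rw [this]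
    exact (ENNReal.ofReal_lt_ofReal_iff (by norm_num)).mpr (by linarith)
  obtain ⟨N0, hN0⟩ := hlaw α hα hαE k
  simp only [if_pos hk] at hN0
  exact ⟨N0, hN0⟩

end Pool.Agent.Y854.GM
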