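import Pool.Agent.Y854.PS.FamA

/-! The sampling law for general families of sets. -/

set_option autoImplicit false

open Finset MeasureTheory Filter

namespace Pool.Agent.Y854.GM

open Pool.Agent.H706R2.PS
open Pool.Agent.H706R2.PS.A13aux
open Pool.Agent.Y854.PS

open Classical in
/-- sampling law for the sets `A i k`, `k < M i` -/
def SampG (A : ℕ → ℕ → Set ℕ) (M : ℕ → ℕ) (m : ℕ → ℕ) (c a κ : ℝ) : Prop := ∃ C : ℝ, 0 < C ∧ ∃ i0 : ℕ,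
  ∀ i : ℕ, i0 ≤ i → ∀ k < M i, ∀ u v : ℕ, 2 ^ i ≤ u → u ≤ v → v ≤ 2 ^ (i + 1) → ∀ S : Finset ℕ,
    (∀ n, n ∈ S ↔ 1 ≤ n ∧ u < m n ∧ m n ≤ v) →
      |∑ n ∈ S, (if m n ∈ A i k then (1 : ℝ) else 0) -
        a * ∑ t ∈ Ioc u v, wt c t * (if t ∈ A i k then (1 : ℝ) else 0)| ≤ C * ((2 : ℝ) ^ i) ^ (1 / c - κ)

/-- **The sampling law for families.** -/
theorem samp_gen (c : ℝ) (hc : 1 < c) : ∃ κ : ℝ, 0 < κ ∧ κ ≤ 1 / (8 * c) ∧ ∀ (p : ℕ) (M : ℕ → ℕ),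
    (∀ i, M i ≤ (i + 2) ^ p) → ∀ A : ℕ → ℕ → Set ℕ, ∃ E : Set ℝ, dimH E ≤ ENNReal.ofReal (1 - κ) ∧
      ∀ α : ℝ, 0 < α → α ∉ E → SampG A M (ms α c) c (α ^ (-(1 / c))) κ := by
  classical
  obtain ⟨κ, hκ0, hκ1, hfam⟩ := famA c hc
  refine ⟨κ / 64, by positivity, by linarith, fun p M hM A => ?_⟩
  obtain ⟨E, hE, h⟩ := hfam p M hM A
  refine ⟨E, hE, fun α hα hαE => ⟨2 * (1 + 2 * α ^ (-(1 / c))), by positivity, ?_⟩⟩
  obtain ⟨i1, h1⟩ := h α hα hαE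
  refine ⟨i1, fun i hi1 k hk u v hu huv hv S hS => ?_⟩
  have h3 := h1 i hi1 k hk v (hu.trans huv) hv
  have h4 := h1 i hi1 k hk u hu (huv.trans hv)
  rw [← Finset.sum_Ioc_consecutive _ hu huv] at h3
  have h6 := card_SA (A i k) hc hα S hS
  have h8 : ∑ n ∈ S, (if ms α c n ∈ A i k then (1 : ℝ) else 0) =
      ((S.filter (fun n => ms α c n ∈ A i k)).card : ℝ) := by
    rw [Finset.sum_boole]
  have h7 : α ^ (-(1 / c)) * ∑ t ∈ Ioc u v, wt c t * (if t ∈ A i k then (1 : ℝ) else 0) =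
      ∑ m ∈ Ioc u v, Pool.Agent.H706R2.PS.A13aux.mt (A i k) c α m := by
    rw [Finset.mul_sum]
    apply Finset.sum_congr rfl
    intro m _
    unfold Pool.Agent.H706R2.PS.A13aux.mt wt
    split_ifs
    · ring
    · ring
  rw [h8, h6, h7, ← Finset.sum_sub_distrib]
  have hX : (1 : ℝ) ≤ (2 : ℝ) ^ i := one_le_pow₀ (by norm_num)
  have hmono : ((2 : ℝ) ^ i) ^ (1 / c - κ / 4) ≤ ((2 : ℝ) ^ i) ^ (1 / c - κ / 64) :=
    Real.rpow_le_rpow_of_exponent_le hX (by linarith)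
  have hK : 0 ≤ 1 + 2 * α ^ (-(1 / c)) := by positivity
  have h5 := mul_le_mul_of_nonneg_left hmono hK
  rw [abs_le] at h3 h4 ⊢
  constructor <;> linarith [h3.1, h3.2, h4.1, h4.2]

end Pool.Agent.Y854.GM
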