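import Pool.Agent.Y854.GM.Abel

/-! Upper bounds along the sequence for non-negative functions with slowly growing means. -/

set_option autoImplicit false

open Finset Filter Topology

namespace Pool.Agent.Y854.GM

open Pool.Agent.Y854.PS
open Pool.Agent.Y854.ST (sum_wt_up sum_wt_low Ioc_zero wsum)

/-- the weighted sum of a non-negative function -/
lemma w_upper {c : ℝ} (hc : 1 < c) (F : ℕ → ℝ) (X : ℕ) (D : ℝ)
    (hsum : ∀ Y : ℕ, Y ≤ X → ∑ m ∈ Ioc 0 Y, F m ≤ D * Y) :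
    ∑ m ∈ Ioc 0 X, wt c m * F m ≤ D * ∑ m ∈ Ioc 0 X, wt c m := by
  classical
  set u : ℕ → ℝ := fun m => if m ≤ X then D - F m else 0 with hu
  have h1 : ∀ Y : ℕ, -(0 : ℝ) ≤ ∑ m ∈ Ioc 0 Y, u m := by
    intro Y
    have h2 : ∑ m ∈ Ioc 0 Y, u m = ∑ m ∈ Ioc 0 (min Y X), (D - F m) := by
      rw [hu]
      rw [← Finset.sum_filter]
      apply Finset.sum_congr
      · ext m
        rw [mem_filter, mem_Ioc, mem_Ioc, le_min_iff]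
        tauto
      · intro _ _; rfl
    rw [h2, Finset.sum_sub_distrib, sum_const, Nat.card_Ioc, nsmul_eq_mul, Nat.sub_zero]
    have h3 := hsum (min Y X) (min_le_right _ _)
    linarith [mul_comm ((min Y X : ℕ) : ℝ) D]
  have h4 := w_lower hc u 0 h1 X
  have h5 : ∑ m ∈ Ioc 0 X, wt c m * u m = D * ∑ m ∈ Ioc 0 X, wt c m - ∑ m ∈ Ioc 0 X, wt c m * F m := by
    rw [Finset.mul_sum, ← Finset.sum_sub_distrib]
    apply Finset.sum_congr rfl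
    intro m hm
    rw [mem_Ioc] at hm
    rw [hu]
    simp only
    rw [if_pos hm.2]
    ring
  rw [h5] at h4
  linarith

/-- **Upper bounds along the sequence.** If the mean of `F` up to `X` is at most `D X`, with `D` non-decreasing,
then the mean along the sequence up to `N` is at most a constant times `D (α N ^ c)`. -/
theorem seq_upper_slow {α c κ : ℝ} (hα : 0 < α) (hc : 1 < c) (hκ : 0 < κ) (F : ℕ → ℝ) (hF : ∀ m, 0 ≤ F m)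
    (D : ℕ → ℝ) (hD1 : ∀ X, 1 ≤ D X) (hD : Monotone D) (hsum : ∀ X : ℕ, ∑ m ∈ Ioc 0 X, F m ≤ D X * X)
    (N0 : ℕ) (hlaw : ∀ N : ℕ, N0 ≤ N →
      |∑ n ∈ Icc 1 N, F ⌊α * (n : ℝ) ^ c⌋₊ -
        α ^ (-(1 / c)) * ∑ t ∈ Ioc 0 ⌊α * (N : ℝ) ^ c⌋₊, wt c t * F t| ≤ (N : ℝ) ^ (1 - κ)) :
    ∃ K : ℝ, 0 < K ∧ ∀ N : ℕ, ∑ n ∈ Icc 1 N, F ⌊α * (n : ℝ) ^ c⌋₊ ≤ K * D ⌊α * (N : ℝ) ^ c⌋₊ * N := by
  set a := α ^ (-(1 / c)) with ha
  have ha0 : 0 < a := Real.rpow_pos_of_pos hα _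
  set D1 : ℝ := ∑ n ∈ Icc 1 N0, F ⌊α * (n : ℝ) ^ c⌋₊ with hD1'
  have hD10 : 0 ≤ D1 := Finset.sum_nonneg fun _ _ => hF _
  refine ⟨2 + D1, by positivity, fun N => ?_⟩
  rcases Nat.eq_zero_or_pos N with rfl | hN
  · simp
  have hNp : (1 : ℝ) ≤ N := by exact_mod_cast hN
  have hDX := hD1 ⌊α * (N : ℝ) ^ c⌋₊
  rcases le_total N0 N with h | h
  · have h1 := hlaw N h
    have h2 := wsum hα hc N
    have h3 := w_upper hc F ⌊α * (N : ℝ) ^ c⌋₊ (D ⌊α * (N : ℝ) ^ c⌋₊) (fun Y hY => by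
      refine (hsum Y).trans ?_
      exact mul_le_mul_of_nonneg_right (hD hY) (Nat.cast_nonneg _))
    have h4 : ⌊α * (N : ℝ) ^ c⌋₊ = ms α c N := rfl
    rw [← h4] at h2
    have h5 : a * ∑ m ∈ Ioc 0 ⌊α * (N : ℝ) ^ c⌋₊, wt c m * F m ≤ D ⌊α * (N : ℝ) ^ c⌋₊ * N := by
      calc a * ∑ m ∈ Ioc 0 ⌊α * (N : ℝ) ^ c⌋₊, wt c m * F m
          ≤ a * (D ⌊α * (N : ℝ) ^ c⌋₊ * ∑ m ∈ Ioc 0 ⌊α * (N : ℝ) ^ c⌋₊, wt c m) := mul_le_mul_of_nonneg_left h3 ha0.le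
        _ = D ⌊α * (N : ℝ) ^ c⌋₊ * (a * ∑ m ∈ Ioc 0 ⌊α * (N : ℝ) ^ c⌋₊, wt c m) := by ring
        _ ≤ D ⌊α * (N : ℝ) ^ c⌋₊ * N := mul_le_mul_of_nonneg_left h2.2 (by linarith)
    have h6 : (N : ℝ) ^ (1 - κ) ≤ N := by
      calc (N : ℝ) ^ (1 - κ) ≤ (N : ℝ) ^ (1 : ℝ) := Real.rpow_le_rpow_of_exponent_le hNp (by linarith)
        _ = N := Real.rpow_one _
    rw [abs_le] at h1
    have h7 : (N : ℝ) ≤ D ⌊α * (N : ℝ) ^ c⌋₊ * N := le_mul_of_one_le_left (by linarith) hDX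
    have h8 : 0 ≤ D1 * (D ⌊α * (N : ℝ) ^ c⌋₊ * N) := by positivity
    have h9 := h1.2
    nlinarith
  · have h1 : ∑ n ∈ Icc 1 N, F ⌊α * (n : ℝ) ^ c⌋₊ ≤ D1 := by
      apply Finset.sum_le_sum_of_subset_of_nonneg
      · exact Finset.Icc_subset_Icc_right h
      · intro _ _ _
        exact hF _
    have h2 : (1 : ℝ) ≤ D ⌊α * (N : ℝ) ^ c⌋₊ * N := by nlinarith
    have h3 : D1 ≤ D1 * (D ⌊α * (N : ℝ) ^ c⌋₊ * N) := le_mul_of_one_le_right hD10 h2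
    nlinarith

end Pool.Agent.Y854.GM
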