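import Pool.Agent.Y854.GM.Mean

/-! The mean values of a sequence of bounded functions along the sequence, with uniformity in the index. -/

set_option autoImplicit false

open Finset Filter

namespace Pool.Agent.Y854.GM

open Pool.Agent.Y854.PS
open Pool.Agent.Y854.ST (sum_wt_up sum_wt_low Ioc_zero wsum)

/-- one dyadic block, both signs, all indices -/
theorem blockU (α c κ : ℝ) (hα : 0 < α) (hc : 1 < c) (hκ : 0 < κ) (hκ1 : κ ≤ 1 / (8 * c)) (F : ℕ → ℕ → ℝ)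
    (hF : ∀ k m, |F k m| ≤ 1) (hS : SampG (AF F) MF (ms α c) c (α ^ (-(1 / c))) κ) : ∃ K : ℝ, 0 < K ∧ ∃ i0 : ℕ,
    ∀ i : ℕ, i0 ≤ i → ∀ k : ℕ, k ≤ i →
    ∀ y : ℕ, 2 ^ i ≤ y → y ≤ 2 ^ (i + 1) → ∀ S : Finset ℕ, (∀ n, n ∈ S ↔ 1 ≤ n ∧ 2 ^ i < ms α c n ∧ ms α c n ≤ y) →
      |∑ n ∈ S, F k (ms α c n) - α ^ (-(1 / c)) * ∑ t ∈ Ioc (2 ^ i) y, wt c t * F k t| ≤
        K * ((2 : ℝ) ^ i) ^ (1 / c - κ / 2) := by
  classical
  have hc0 : 0 < c := by linarith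
  set a := α ^ (-(1 / c)) with ha
  have ha0 : 0 < a := Real.rpow_pos_of_pos hα _
  obtain ⟨C, hC, i1, h1⟩ := hS
  obtain ⟨Cb, hCb, hblock⟩ := block_card hα hc
  have hκ2 : κ ≤ 1 / 8 := hκ1.trans (by
    rw [div_le_div_iff₀ (by positivity) (by norm_num)]
    linarith)
  refine ⟨2 * (2 * C + Cb + 2 * a), by positivity, i1, fun i hii1 k hiik y hy1 hy2 S hSc => ?_⟩
  have hX : (0 : ℝ) < 2 ^ i := by positivity
  have hX1 : (1 : ℝ) ≤ 2 ^ i := one_le_pow₀ (by norm_num)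
  have hsamp : ∀ j < MF i, |∑ n ∈ S, (if ms α c n ∈ AF F i j then (1 : ℝ) else 0) -
        a * ∑ t ∈ Ioc (2 ^ i) y, wt c t * (if t ∈ AF F i j then (1 : ℝ) else 0)| ≤ C * ((2 : ℝ) ^ i) ^ (1 / c - κ) := by
    intro j hj
    exact h1 i hii1 j hj (2 ^ i) y le_rfl hy1 hy2 S hSc
  have hb : ∀ s < 2, |∑ n ∈ S, sg F s k (ms α c n) - a * ∑ t ∈ Ioc (2 ^ i) y, wt c t * sg F s k t| ≤
      2 * 1 * (C * ((2 : ℝ) ^ i) ^ (1 / c - κ)) + (S.card + a * ∑ t ∈ Ioc (2 ^ i) y, wt c t) / 2 ^ i := fun s hs =>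
    blockG F (ms α c) c a κ C ha0.le i k s hiik hs hc hC.le (2 ^ i) y le_rfl hy1 hy2 S hSc hsamp 1 zero_le_one
      (fun t _ _ => hF k t) hX1
  -- the size of the error
  have hcard : (S.card : ℝ) ≤ Cb * ((2 : ℝ) ^ i) ^ (1 / c) := by
    apply hblock
    intro n hn
    have := (hSc n).mp hn
    exact ⟨this.1, this.2.2.trans hy2⟩
  have hwt : a * ∑ t ∈ Ioc (2 ^ i) y, wt c t ≤ 2 * a * ((2 : ℝ) ^ i) ^ (1 / c) := by
    have h2 : ∑ t ∈ Ioc (2 ^ i) y, wt c t ≤ ∑ t ∈ Ioc 0 (2 ^ (i + 1)), wt c t := by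
      apply Finset.sum_le_sum_of_subset_of_nonneg
      · intro t ht
        rw [mem_Ioc] at ht ⊢
        constructor <;> omega
      · intro t _ _
        exact wt_nonneg hc t
    have h3 := sum_wt_up hc (2 ^ (i + 1))
    have h4 : (((2 ^ (i + 1) : ℕ)) : ℝ) ^ (1 / c) ≤ 2 * ((2 : ℝ) ^ i) ^ (1 / c) := by
      push_cast
      rw [pow_succ, mul_comm, Real.mul_rpow (by norm_num) hX.le]
      apply mul_le_mul_of_nonneg_right _ (by positivity)
      have h5 : 1 / c ≤ 1 := by rw [div_le_one hc0]; exact hc.le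
      calc (2 : ℝ) ^ (1 / c) ≤ (2 : ℝ) ^ (1 : ℝ) := Real.rpow_le_rpow_of_exponent_le (by norm_num) h5
        _ = 2 := Real.rpow_one 2
    calc a * ∑ t ∈ Ioc (2 ^ i) y, wt c t ≤ a * (2 * ((2 : ℝ) ^ i) ^ (1 / c)) :=
          mul_le_mul_of_nonneg_left (h2.trans (h3.trans h4)) ha0.le
      _ = _ := by ring
  have hdiv : (S.card + a * ∑ t ∈ Ioc (2 ^ i) y, wt c t) / 2 ^ i ≤ (Cb + 2 * a) * ((2 : ℝ) ^ i) ^ (1 / c - κ / 2) := by
    rw [div_le_iff₀ hX]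
    have h2 : ((2 : ℝ) ^ i) ^ (1 / c) ≤ ((2 : ℝ) ^ i) ^ (1 / c - κ / 2) * 2 ^ i := by
      have h3 : ((2 : ℝ) ^ i) ^ (1 / c - κ / 2) * 2 ^ i = ((2 : ℝ) ^ i) ^ (1 / c - κ / 2 + 1) := by
        rw [Real.rpow_add hX, Real.rpow_one]
      rw [h3]
      exact Real.rpow_le_rpow_of_exponent_le hX1 (by linarith)
    have h4 : (0 : ℝ) ≤ Cb + 2 * a := by positivity
    have h5 := mul_le_mul_of_nonneg_left h2 h4
    nlinarith
  have hGX : 2 * 1 * (C * ((2 : ℝ) ^ i) ^ (1 / c - κ)) ≤ 2 * C * ((2 : ℝ) ^ i) ^ (1 / c - κ / 2) := by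
    have h2 : ((2 : ℝ) ^ i) ^ (1 / c - κ) ≤ ((2 : ℝ) ^ i) ^ (1 / c - κ / 2) :=
      Real.rpow_le_rpow_of_exponent_le hX1 (by linarith)
    nlinarith
  have hb0 := hb 0 (by norm_num)
  have hb1 := hb 1 (by norm_num)
  have e : ∑ n ∈ S, F k (ms α c n) - a * ∑ t ∈ Ioc (2 ^ i) y, wt c t * F k t =
      (∑ n ∈ S, sg F 0 k (ms α c n) - a * ∑ t ∈ Ioc (2 ^ i) y, wt c t * sg F 0 k t) -
      (∑ n ∈ S, sg F 1 k (ms α c n) - a * ∑ t ∈ Ioc (2 ^ i) y, wt c t * sg F 1 k t) := by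
    have e1 : ∑ n ∈ S, F k (ms α c n) = ∑ n ∈ S, sg F 0 k (ms α c n) - ∑ n ∈ S, sg F 1 k (ms α c n) := by
      rw [← Finset.sum_sub_distrib]
      exact Finset.sum_congr rfl fun n _ => (sg_sub F k _).symm
    have e2 : ∑ t ∈ Ioc (2 ^ i) y, wt c t * F k t = ∑ t ∈ Ioc (2 ^ i) y, wt c t * sg F 0 k t -
        ∑ t ∈ Ioc (2 ^ i) y, wt c t * sg F 1 k t := by
      rw [← Finset.sum_sub_distrib]
      refine Finset.sum_congr rfl fun n _ => ?_
      rw [← sg_sub F k n]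
      ring
    rw [e1, e2]
    ring
  rw [e]
  refine (abs_sub _ _).trans ?_
  nlinarith

/-- few terms are small -/
lemma few_small {α c : ℝ} (hα : 0 < α) (hc : 1 < c) {k n : ℕ} (h : ms α c n ≤ 2 ^ k) :
    (n : ℝ) ≤ 2 * α ^ (-(1 / c)) * ((2 : ℝ) ^ k) ^ (1 / c) := by
  have hc0 : 0 < c := by linarith
  have hX1 : (1 : ℝ) ≤ 2 ^ k := one_le_pow₀ (by norm_num)
  have h1 : α * (n : ℝ) ^ c < (ms α c n : ℝ) + 1 := Nat.lt_floor_add_one _
  have h2 : (ms α c n : ℝ) ≤ 2 ^ k := by exact_mod_cast h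
  have h3 : (n : ℝ) ^ c ≤ 2 * 2 ^ k / α := by
    rw [le_div_iff₀ hα]
    nlinarith
  have h4 : ((n : ℝ) ^ c) ^ (1 / c) ≤ (2 * 2 ^ k / α) ^ (1 / c) := Real.rpow_le_rpow (by positivity) h3 (by positivity)
  have h5 : ((n : ℝ) ^ c) ^ (1 / c) = n := by
    rw [← Real.rpow_mul (Nat.cast_nonneg _), mul_one_div_cancel hc0.ne', Real.rpow_one]
  have h6 : (2 * 2 ^ k / α) ^ (1 / c) = (2 : ℝ) ^ (1 / c) * ((2 : ℝ) ^ k) ^ (1 / c) * α ^ (-(1 / c)) := by
    rw [Real.div_rpow (by positivity) hα.le, Real.mul_rpow (by norm_num) (by positivity), Real.rpow_neg hα.le, div_eq_mul_inv]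
  have h7 : (2 : ℝ) ^ (1 / c) ≤ 2 := by
    calc (2 : ℝ) ^ (1 / c) ≤ (2 : ℝ) ^ (1 : ℝ) :=
          Real.rpow_le_rpow_of_exponent_le (by norm_num) (by rw [div_le_one hc0]; exact hc.le)
      _ = 2 := Real.rpow_one 2
  rw [h5, h6] at h4
  refine h4.trans ?_
  have h8 : (0 : ℝ) < ((2 : ℝ) ^ k) ^ (1 / c) := by positivity
  have h9 : 0 < α ^ (-(1 / c)) := Real.rpow_pos_of_pos hα _
  calc (2 : ℝ) ^ (1 / c) * ((2 : ℝ) ^ k) ^ (1 / c) * α ^ (-(1 / c))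
      ≤ 2 * ((2 : ℝ) ^ k) ^ (1 / c) * α ^ (-(1 / c)) := by
        apply mul_le_mul_of_nonneg_right _ h9.le
        exact mul_le_mul_of_nonneg_right h7 h8.le
    _ = _ := by ring

/-- **The mean value along the sequence, uniformly in the index.** -/
theorem totalU (α c κ : ℝ) (hα : 0 < α) (hc : 1 < c) (hκ : 0 < κ) (hκ1 : κ ≤ 1 / (8 * c)) (F : ℕ → ℕ → ℝ)
    (hF : ∀ k m, |F k m| ≤ 1) (hS : SampG (AF F) MF (ms α c) c (α ^ (-(1 / c))) κ) :
    ∃ K : ℝ, 0 < K ∧ ∃ i0 : ℕ, ∀ k N : ℕ, i0 ≤ k → 1 ≤ N →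
      |∑ n ∈ Icc 1 N, F k (ms α c n) - α ^ (-(1 / c)) * ∑ t ∈ Ioc 0 (ms α c N), wt c t * F k t| ≤
        K * (N : ℝ) ^ (1 - c * κ / 2) + K * ((2 : ℝ) ^ k) ^ (1 / c) := by
  classical
  have hc0 : 0 < c := by linarith
  set a := α ^ (-(1 / c)) with ha
  have ha0 : 0 < a := Real.rpow_pos_of_pos hα _
  obtain ⟨K, hK, i1, hscale⟩ := blockU α c κ hα hc hκ hκ1 F hF hS
  have hcκ : c * κ ≤ 1 / 8 := by
    have h1 : κ * (8 * c) ≤ 1 := by rwa [le_div_iff₀ (by positivity)] at hκ1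
    linarith
  set β : ℝ := 1 / c - κ / 2 with hβ
  have hβ0 : 0 < β := by
    have h1 : κ / 2 < 1 / c := by
      rw [lt_div_iff₀ hc0]
      linarith
    linarith
  have hβ1 : β < 1 := by
    have h1 : 1 / c < 1 := by rw [div_lt_one hc0]; exact hc
    linarith
  have hcβ : c * β = 1 - c * κ / 2 := by
    rw [hβ, mul_sub, mul_one_div_cancel hc0.ne']
    ring
  obtain ⟨Cg, hCg, hgeo⟩ := geo (c := 1 / β) (by rw [lt_div_iff₀ hβ0]; linarith)
  simp only [one_div_one_div] at hgeo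
  obtain ⟨i2, hstrict⟩ := ms_strict hα hc
  set Kb : ℝ := K * (Cg * α ^ β) with hKb
  have hKb0 : 0 < Kb := by positivity
  refine ⟨Kb + 4 * a, by positivity, max (max i1 i2) 1, fun k N hk hN1' => ?_⟩
  have hi01 : i1 ≤ k := ((le_max_left _ _).trans (le_max_left _ _)).trans hk
  have hi02 : i2 ≤ k := ((le_max_right _ _).trans (le_max_left _ _)).trans hk
  have hi03 : 1 ≤ k := (le_max_right _ _).trans hk
  have hNpos : (0 : ℝ) < N := by exact_mod_cast hN1'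
  set Y : ℝ := ((2 : ℝ) ^ k) ^ (1 / c) with hY
  have hY0 : 0 < Y := by positivity
  have hNN : 0 ≤ (N : ℝ) ^ (1 - c * κ / 2) := by positivity
  rcases le_or_gt (ms α c N) (2 ^ k) with hmsN | hmsN
  · -- all terms are small
    have h1 := few_small hα hc hmsN
    have h2 : |∑ n ∈ Icc 1 N, F k (ms α c n)| ≤ N := by
      refine (Finset.abs_sum_le_sum_abs _ _).trans ?_
      calc ∑ n ∈ Icc 1 N, |F k (ms α c n)| ≤ ∑ n ∈ Icc 1 N, (1 : ℝ) := Finset.sum_le_sum fun n _ => hF k _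
        _ = N := by rw [sum_const, Nat.card_Icc, nsmul_eq_mul]; simp
    have h3 : |a * ∑ t ∈ Ioc 0 (ms α c N), wt c t * F k t| ≤ N := by
      rw [abs_mul, abs_of_pos ha0]
      refine le_trans ?_ (wsum hα hc N).2
      apply mul_le_mul_of_nonneg_left _ ha0.le
      refine (Finset.abs_sum_le_sum_abs _ _).trans (Finset.sum_le_sum fun t _ => ?_)
      rw [abs_mul, abs_of_nonneg (wt_nonneg hc t)]
      exact mul_le_of_le_one_right (wt_nonneg hc t) (hF k t)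
    have h4 := abs_sub (∑ n ∈ Icc 1 N, F k (ms α c n)) (a * ∑ t ∈ Ioc 0 (ms α c N), wt c t * F k t)
    have h5 : 0 ≤ Kb * Y := by positivity
    have h6 : 0 ≤ (Kb + 4 * a) * (N : ℝ) ^ (1 - c * κ / 2) := by positivity
    nlinarith
  have h2i0 : 2 ≤ 2 ^ k := by
    calc 2 = 2 ^ 1 := by norm_num
      _ ≤ 2 ^ k := Nat.pow_le_pow_right (by norm_num) (by omega)
  set Fn : ℕ → ℝ := fun n => F k (ms α c n) with hFn
  set g : ℕ → ℝ := fun t => wt c t * F k t with hg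
  rw [← Finset.sum_filter_add_sum_filter_not (Icc 1 N) (fun n => 2 ^ k < ms α c n) Fn]
  have hsplit : ∑ t ∈ Ioc 0 (ms α c N), g t = ∑ t ∈ Ioc 0 (2 ^ k), g t + ∑ t ∈ Ioc (2 ^ k) (ms α c N), g t :=
    (Finset.sum_Ioc_consecutive g (Nat.zero_le _) hmsN.le).symm
  rw [hsplit]
  set Big := (Icc 1 N).filter (fun n => 2 ^ k < ms α c n) with hBig
  set Sm := (Icc 1 N).filter (fun n => ¬ 2 ^ k < ms α c n) with hSm
  have hsmall : |∑ n ∈ Sm, Fn n| ≤ 2 * a * Y := by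
    refine (Finset.abs_sum_le_sum_abs _ _).trans ?_
    have h1 : ∑ n ∈ Sm, |Fn n| ≤ (Sm.card : ℝ) := by
      calc ∑ n ∈ Sm, |Fn n| ≤ ∑ n ∈ Sm, (1 : ℝ) := Finset.sum_le_sum fun n _ => hF k _
        _ = Sm.card := by simp
    have h2 : Sm ⊆ Icc 1 ⌊2 * a * Y⌋₊ := by
      intro n hn
      rw [hSm, mem_filter, mem_Icc] at hn
      rw [mem_Icc]
      refine ⟨hn.1.1, Nat.le_floor ?_⟩
      exact few_small hα hc (by omega)
    have h3 : (Sm.card : ℝ) ≤ (⌊2 * a * Y⌋₊ : ℝ) := by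
      have := Finset.card_le_card h2
      rw [Nat.card_Icc, Nat.add_sub_cancel] at this
      exact_mod_cast this
    exact h1.trans (h3.trans (Nat.floor_le (by positivity)))
  have hsmall2 : |a * ∑ t ∈ Ioc 0 (2 ^ k), g t| ≤ a * Y := by
    rw [abs_mul, abs_of_pos ha0]
    apply mul_le_mul_of_nonneg_left _ ha0.le
    have h1 := sum_wt_up hc (2 ^ k)
    push_cast at h1
    refine le_trans ?_ h1
    refine (Finset.abs_sum_le_sum_abs _ _).trans (Finset.sum_le_sum fun t _ => ?_)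
    rw [hg]
    simp only
    rw [abs_mul, abs_of_nonneg (wt_nonneg hc t)]
    exact mul_le_of_le_one_right (wt_nonneg hc t) (hF k t)
  set I : ℕ := sc (ms α c N) with hI
  have hmaps1 : ∀ n ∈ Big, sc (ms α c n) ∈ range (I + 1) := by
    intro n hn
    rw [hBig, mem_filter, mem_Icc] at hn
    rw [mem_range]
    have := sc_mono (ms_mono hα hc0.le hn.1.2)
    omega
  have hmaps2 : ∀ t ∈ Ioc (2 ^ k) (ms α c N), sc t ∈ range (I + 1) := by
    intro t ht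
    rw [mem_Ioc] at ht
    rw [mem_range]
    have := sc_mono ht.2
    omega
  have hfib : ∀ i ∈ range (I + 1), |∑ n ∈ Big.filter (fun n => sc (ms α c n) = i), Fn n -
      a * ∑ t ∈ (Ioc (2 ^ k) (ms α c N)).filter (fun t => sc t = i), g t| ≤
        K * ((2 : ℝ) ^ i) ^ β := by
    intro i hiI
    rw [mem_range] at hiI
    by_cases hii0 : k ≤ i
    · have h2i : 2 ^ k ≤ 2 ^ i := Nat.pow_le_pow_right (by norm_num) hii0
      have hIN : 2 ^ I < ms α c N := ((sc_iff (by omega)).mp hI.symm).1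
      have hiN : 2 ^ i < ms α c N := lt_of_le_of_lt (Nat.pow_le_pow_right (by norm_num) (by omega)) hIN
      set y : ℕ := min (2 ^ (i + 1)) (ms α c N) with hy
      have hy1 : 2 ^ i ≤ y := le_min (Nat.pow_le_pow_right (by norm_num) (by omega)) hiN.le
      have hy2 : y ≤ 2 ^ (i + 1) := min_le_left _ _
      have e2 : (Ioc (2 ^ k) (ms α c N)).filter (fun t => sc t = i) = Ioc (2 ^ i) y := by
        ext t
        rw [mem_filter, mem_Ioc, mem_Ioc, hy, le_min_iff]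
        constructor
        · rintro ⟨⟨h1, h2⟩, h3⟩
          rw [sc_iff (by omega)] at h3
          exact ⟨h3.1, h3.2, h2⟩
        · rintro ⟨h1, h2, h3⟩
          refine ⟨⟨by omega, h3⟩, ?_⟩
          rw [sc_iff (by omega)]
          exact ⟨h1, h2⟩
      have e1 : ∀ n, n ∈ Big.filter (fun n => sc (ms α c n) = i) ↔ 1 ≤ n ∧ 2 ^ i < ms α c n ∧ ms α c n ≤ y := by
        intro n
        rw [mem_filter, hBig, mem_filter, mem_Icc, hy, le_min_iff]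
        constructor
        · rintro ⟨⟨⟨h1, h2⟩, h3⟩, h4⟩
          rw [sc_iff (by omega)] at h4
          exact ⟨h1, h4.1, h4.2, ms_mono hα hc0.le h2⟩
        · rintro ⟨h1, h2, h3, h4⟩
          have h5 : n ≤ N := by
            by_contra hcon
            push Not at hcon
            have h6 : 2 ^ i2 < ms α c N :=
              lt_of_le_of_lt (Nat.pow_le_pow_right (by norm_num) (hi02.trans hii0)) hiN
            have := hstrict N n h6 hcon
            omega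
          refine ⟨⟨⟨h1, h5⟩, by omega⟩, ?_⟩
          rw [sc_iff (by omega)]
          exact ⟨h2, h3⟩
      rw [e2]
      exact hscale i (hi01.trans hii0) k hii0 y hy1 hy2 _ e1
    · push Not at hii0
      have e1 : Big.filter (fun n => sc (ms α c n) = i) = ∅ := by
        apply Finset.eq_empty_of_forall_notMem
        intro n hn
        rw [mem_filter, hBig, mem_filter, mem_Icc] at hn
        obtain ⟨⟨-, h3⟩, h4⟩ := hn
        rw [sc_iff (by omega)] at h4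
        have h5 : 2 ^ (i + 1) ≤ 2 ^ k := Nat.pow_le_pow_right (by norm_num) (by omega)
        omega
      have e2 : (Ioc (2 ^ k) (ms α c N)).filter (fun t => sc t = i) = ∅ := by
        apply Finset.eq_empty_of_forall_notMem
        intro t ht
        rw [mem_filter, mem_Ioc] at ht
        obtain ⟨⟨h3, -⟩, h4⟩ := ht
        rw [sc_iff (by omega)] at h4
        have h5 : 2 ^ (i + 1) ≤ 2 ^ k := Nat.pow_le_pow_right (by norm_num) (by omega)
        omega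
      rw [e1, e2]
      simp only [sum_empty, mul_zero, sub_zero, abs_zero]
      positivity
  have hbig : |∑ n ∈ Big, Fn n - a * ∑ t ∈ Ioc (2 ^ k) (ms α c N), g t| ≤ Kb * (N : ℝ) ^ (1 - c * κ / 2) := by
    have e3 : ∑ n ∈ Big, Fn n - a * ∑ t ∈ Ioc (2 ^ k) (ms α c N), g t =
        ∑ i ∈ range (I + 1), (∑ n ∈ Big.filter (fun n => sc (ms α c n) = i), Fn n -
          a * ∑ t ∈ (Ioc (2 ^ k) (ms α c N)).filter (fun t => sc t = i), g t) := by
      rw [Finset.sum_sub_distrib, ← Finset.mul_sum, Finset.sum_fiberwise_of_maps_to hmaps1,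
        Finset.sum_fiberwise_of_maps_to hmaps2]
    rw [e3]
    refine (Finset.abs_sum_le_sum_abs _ _).trans ((Finset.sum_le_sum hfib).trans ?_)
    rw [← Finset.mul_sum]
    have h2 : ((2 : ℝ) ^ I) ^ β ≤ α ^ β * (N : ℝ) ^ (1 - c * κ / 2) := by
      have h3 : 2 ^ I < ms α c N := ((sc_iff (by omega)).mp hI.symm).1
      have h4 : (2 : ℝ) ^ I ≤ xs α c N := by
        have h5 : (2 : ℝ) ^ I < ms α c N := by exact_mod_cast h3
        have h6 : (ms α c N : ℝ) ≤ xs α c N := Nat.floor_le (xs_nonneg hα N)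
        linarith
      calc ((2 : ℝ) ^ I) ^ β ≤ (xs α c N) ^ β :=
            Real.rpow_le_rpow (by positivity) h4 hβ0.le
        _ = α ^ β * (N : ℝ) ^ (1 - c * κ / 2) := by
            unfold xs
            rw [Real.mul_rpow hα.le (by positivity), ← Real.rpow_mul hNpos.le, hcβ]
    calc K * ∑ i ∈ range (I + 1), ((2 : ℝ) ^ i) ^ β ≤ K * (Cg * (α ^ β * (N : ℝ) ^ (1 - c * κ / 2))) := by
          apply mul_le_mul_of_nonneg_left _ hK.le
          exact (hgeo I).trans (mul_le_mul_of_nonneg_left h2 hCg.le)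
      _ = Kb * (N : ℝ) ^ (1 - c * κ / 2) := by rw [hKb]; ring
  have e : ∑ n ∈ Big, Fn n + ∑ n ∈ Sm, Fn n -
      a * (∑ t ∈ Ioc 0 (2 ^ k), g t + ∑ t ∈ Ioc (2 ^ k) (ms α c N), g t) =
      (∑ n ∈ Big, Fn n - a * ∑ t ∈ Ioc (2 ^ k) (ms α c N), g t) + (∑ n ∈ Sm, Fn n -
        a * ∑ t ∈ Ioc 0 (2 ^ k), g t) := by ring
  rw [e]
  have t1 := abs_add_le (∑ n ∈ Big, Fn n - a * ∑ t ∈ Ioc (2 ^ k) (ms α c N), g t) (∑ n ∈ Sm, Fn n -
        a * ∑ t ∈ Ioc 0 (2 ^ k), g t)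
  have t2 := abs_sub (∑ n ∈ Sm, Fn n) (a * ∑ t ∈ Ioc 0 (2 ^ k), g t)
  have h5 : 0 ≤ Kb * Y := by positivity
  have h6 : 0 ≤ 4 * a * (N : ℝ) ^ (1 - c * κ / 2) := by positivity
  have h7 : 0 ≤ a * Y := by positivity
  nlinarith

/-- **The mean values of a sequence of bounded functions, uniformly in the index, outside a set of
dimension less than one.** -/
theorem mean_uni (c : ℝ) (hc : 1 < c) : ∃ κ : ℝ, 0 < κ ∧ κ < 1 ∧ ∀ F : ℕ → ℕ → ℝ, (∀ k m, |F k m| ≤ 1) →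
    ∃ E : Set ℝ, dimH E ≤ ENNReal.ofReal (1 - κ) ∧ ∀ α : ℝ, 0 < α → α ∉ E → ∃ K : ℝ, 0 < K ∧ ∃ i0 : ℕ,
      ∀ k N : ℕ, i0 ≤ k → 1 ≤ N →
      |∑ n ∈ Icc 1 N, F k ⌊α * (n : ℝ) ^ c⌋₊ -
        α ^ (-(1 / c)) * ∑ t ∈ Ioc 0 ⌊α * (N : ℝ) ^ c⌋₊, wt c t * F k t| ≤
          K * (N : ℝ) ^ (1 - κ) + K * ((2 : ℝ) ^ k) ^ (1 / c) := by
  obtain ⟨κ, hκ, hκ1, h⟩ := samp_gen c hc
  have hc0 : 0 < c := by linarith
  have hκ2 : κ ≤ 1 / 8 := hκ1.trans (by
    rw [div_le_div_iff₀ (by positivity) (by norm_num)]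
    linarith)
  refine ⟨κ / 2, by positivity, by linarith, fun F hF => ?_⟩
  obtain ⟨E, hE, h1⟩ := h 4 MF MF_le (AF F)
  refine ⟨E, hE.trans (ENNReal.ofReal_le_ofReal (by linarith)), fun α hα hαE => ?_⟩
  obtain ⟨K, hK, i0, h2⟩ := totalU α c κ hα hc hκ hκ1 F hF (h1 α hα hαE)
  refine ⟨K, hK, i0, fun k N hk hN => ?_⟩
  refine (h2 k N hk hN).trans ?_
  have hN1 : (1 : ℝ) ≤ N := by exact_mod_cast hN
  have h3 : (N : ℝ) ^ (1 - c * κ / 2) ≤ (N : ℝ) ^ (1 - κ / 2) := by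
    apply Real.rpow_le_rpow_of_exponent_le hN1
    nlinarith
  have := mul_le_mul_of_nonneg_left h3 hK.le
  linarith

/-- **The same, with the index up to any multiple of the logarithm.** -/
theorem mean_uni_r (c : ℝ) (hc : 1 < c) : ∃ κ : ℝ, 0 < κ ∧ κ < 1 ∧ ∀ F : ℕ → ℕ → ℝ, (∀ k m, |F k m| ≤ 1) →
    ∃ E : Set ℝ, dimH E < 1 ∧ ∀ α : ℝ, 0 < α → α ∉ E → ∀ r : ℕ, 0 < r → ∃ K : ℝ, 0 < K ∧ ∃ j0 : ℕ,
      ∀ j N : ℕ, j0 ≤ j → 1 ≤ N →
      |∑ n ∈ Icc 1 N, F j ⌊α * (n : ℝ) ^ c⌋₊ -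
        α ^ (-(1 / c)) * ∑ t ∈ Ioc 0 ⌊α * (N : ℝ) ^ c⌋₊, wt c t * F j t| ≤
          K * (N : ℝ) ^ (1 - κ) + K * ((2 : ℝ) ^ (j / r)) ^ (1 / c) := by
  classical
  obtain ⟨κ, hκ, hκ1, h⟩ := mean_uni c hc
  refine ⟨κ, hκ, hκ1, fun F hF => ?_⟩
  have h' := fun p : ℕ × ℕ => h (fun k m => F (p.1 * k + p.2) m) (fun k m => hF _ _)
  choose E hE hlaw using h'
  refine ⟨⋃ p : ℕ × ℕ, E p, ?_, fun α hα hαE r hr => ?_⟩
  · rw [dimH_iUnion]
    refine lt_of_le_of_lt (iSup_le hE) ?_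
    have : (1 : ENNReal) = ENNReal.ofReal 1 := by simp
    rw [this]
    exact (ENNReal.ofReal_lt_ofReal_iff (by norm_num)).mpr (by linarith)
  · rw [Set.mem_iUnion, not_exists] at hαE
    have h1 := fun s : ℕ => hlaw (r, s) α hα (hαE (r, s))
    choose K hK i0 hi0 using h1
    refine ⟨∑ s ∈ range r, K s, ?_, (∑ s ∈ range r, i0 s) * r + r, fun j N hj hN => ?_⟩
    · exact Finset.sum_pos (fun s _ => hK s) ⟨0, mem_range.mpr hr⟩
    set s := j % r with hs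
    have hsr : s < r := Nat.mod_lt _ hr
    have hdecomp : r * (j / r) + s = j := Nat.div_add_mod j r
    have hi : i0 s ≤ j / r := by
      rw [Nat.le_div_iff_mul_le hr]
      have h2 : i0 s ≤ ∑ s ∈ range r, i0 s := Finset.single_le_sum (fun _ _ => Nat.zero_le _) (mem_range.mpr hsr)
      have h3 := Nat.mul_le_mul_right r h2
      omega
    have h2 := hi0 s (j / r) N hi hN
    simp only at h2
    rw [hdecomp] at h2
    refine h2.trans ?_
    have h3 : K s ≤ ∑ s ∈ range r, K s := Finset.single_le_sum (fun s _ => (hK s).le) (mem_range.mpr hsr)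
    have h4 : (0 : ℝ) ≤ (N : ℝ) ^ (1 - κ) := by positivity
    have h5 : (0 : ℝ) ≤ ((2 : ℝ) ^ (j / r)) ^ (1 / c) := by positivity
    have h6 := mul_le_mul_of_nonneg_right h3 h4
    have h7 := mul_le_mul_of_nonneg_right h3 h5
    linarith

end Pool.Agent.Y854.GM
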